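import Pool.Agent.Run7.h108.GL.Law

/-! Standardization of a bounded non-degenerate law. -/

set_option autoImplicit false
set_option linter.unusedSectionVars false

open scoped BigOperators
open MeasureTheory ProbabilityTheory

namespace Run7.h108.GL

variable (ν : Measure ℝ) [IsProbabilityMeasure ν]

/-- the mean -/
noncomputable def mean : ℝ := ∫ s, s ∂ν

/-- the standard deviation -/
noncomputable def sd : ℝ := Real.sqrt (∫ s, (s - mean ν) ^ 2 ∂ν)

variable {ν}

theorem nu_bd {R : ℝ} (hR : ν (Set.Icc (-R) R)ᶜ = 0) : ∀ᵐ s ∂ν, |s| ≤ R := by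
  filter_upwards [mem_ae_iff.2 hR] with s hs
  exact abs_le.2 hs

theorem nu_int {R : ℝ} (hR : ν (Set.Icc (-R) R)ᶜ = 0) {f : ℝ → ℝ} (hf : Continuous f) :
    Integrable f ν := by
  obtain ⟨C, hC⟩ := (isCompact_Icc (a := -R) (b := R)).exists_bound_of_continuousOn
    hf.continuousOn
  refine Integrable.of_bound hf.aestronglyMeasurable C ?_
  filter_upwards [mem_ae_iff.2 hR] with s hs
  exact hC s hs

theorem sd_pos {R : ℝ} (hR : ν (Set.Icc (-R) R)ᶜ = 0) (hν : ∀ c, ν {c} ≠ 1) : 0 < sd ν := by
  unfold sd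
  rw [Real.sqrt_pos]
  have hi := nu_int hR (f := fun s => (s - mean ν) ^ 2) (by fun_prop)
  have h0 : 0 ≤ ∫ s, (s - mean ν) ^ 2 ∂ν := integral_nonneg fun s => sq_nonneg _
  refine lt_of_le_of_ne h0 fun h => ?_
  have h1 := (integral_eq_zero_iff_of_nonneg (fun s => sq_nonneg _) hi).1 h.symm
  apply hν (mean ν)
  have h2 : ∀ᵐ s ∂ν, s ∈ ({mean ν} : Set ℝ) := by
    filter_upwards [h1] with s hs
    have h3 : (s - mean ν) ^ 2 = 0 := hs
    have h4 : s - mean ν = 0 := by simpa using h3
    exact sub_eq_zero.1 h4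
  exact prob_eq_one_iff_of_mem_ae h2
where
  prob_eq_one_iff_of_mem_ae {S : Set ℝ} (h : ∀ᵐ s ∂ν, s ∈ S) : ν S = 1 := by
    have h1 : ν S = ν Set.univ := measure_congr (by
      filter_upwards [h] with s hs
      exact propext ⟨fun _ => trivial, fun _ => hs⟩)
    rw [h1, measure_univ]

/-- the standardized law -/
@[reducible]
noncomputable def lawNu (ν : Measure ℝ) [IsProbabilityMeasure ν] (R : ℝ)
    (hR : ν (Set.Icc (-R) R)ᶜ = 0) (hν : ∀ c, ν {c} ≠ 1) : Law where
  μ := ν.map fun s => (s - mean ν) / sd ν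
  pr := Measure.isProbabilityMeasure_map (by fun_prop)
  b := (|R| + |mean ν|) / sd ν + 1
  hb := by
    have := sd_pos hR hν
    positivity
  bd := by
    have hv := sd_pos hR hν
    have hm : Measurable fun s => (s - mean ν) / sd ν := by fun_prop
    rw [ae_map_iff hm.aemeasurable (measurableSet_le (by fun_prop) measurable_const)]
    filter_upwards [nu_bd hR] with s hs
    rw [abs_div, abs_of_pos hv]
    have h1 : |s - mean ν| ≤ |R| + |mean ν| := by
      refine (abs_sub _ _).trans ?_
      have := le_abs_self R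
      linarith
    have h2 : |s - mean ν| / sd ν ≤ (|R| + |mean ν|) / sd ν := by gcongr
    linarith
  mean := by
    have hm : Measurable fun s => (s - mean ν) / sd ν := by fun_prop
    rw [integral_map hm.aemeasurable (by fun_prop), integral_div,
      integral_sub (nu_int hR (f := fun s => s) continuous_id) (integrable_const _)]
    simp [mean]
  var := by
    have hv := sd_pos hR hν
    have hm : Measurable fun s => (s - mean ν) / sd ν := by fun_prop
    rw [integral_map hm.aemeasurable (by fun_prop)]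
    simp only [div_pow]
    rw [integral_div]
    have h1 : sd ν ^ 2 = ∫ s, (s - mean ν) ^ 2 ∂ν := by
      unfold sd
      exact Real.sq_sqrt (integral_nonneg fun s => sq_nonneg _)
    rw [← h1, div_self (by positivity)]

theorem lawNu_pi (ν : Measure ℝ) [IsProbabilityMeasure ν] (R : ℝ)
    (hR : ν (Set.Icc (-R) R)ᶜ = 0) (hν : ∀ c, ν {c} ≠ 1) (κ : Type) [Fintype κ] :
    (Measure.pi fun _ : κ => ν).map (fun ω x => (ω x - mean ν) / sd ν) =
      Measure.pi fun _ : κ => (lawNu ν R hR hν).μ := by
  have hm : Measurable fun s => (s - mean ν) / sd ν := by fun_prop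
  have : IsProbabilityMeasure (ν.map fun s => (s - mean ν) / sd ν) :=
    Measure.isProbabilityMeasure_map hm.aemeasurable
  exact Measure.pi_map_pi (μ := fun _ : κ => ν) (f := fun _ s => (s - mean ν) / sd ν)
    fun _ => hm.aemeasurable

theorem lawNu_inf (ν : Measure ℝ) [IsProbabilityMeasure ν] (R : ℝ)
    (hR : ν (Set.Icc (-R) R)ᶜ = 0) (hν : ∀ c, ν {c} ≠ 1) (κ : Type) :
    (Measure.infinitePi fun _ : κ => ν).map (fun ω x => (ω x - mean ν) / sd ν) =
      Measure.infinitePi fun _ : κ => (lawNu ν R hR hν).μ := by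
  have hm : Measurable fun s => (s - mean ν) / sd ν := by fun_prop
  exact Measure.infinitePi_map_pi (μ := fun _ : κ => ν) (f := fun _ s => (s - mean ν) / sd ν)
    fun _ => hm

end Run7.h108.GL
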