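import Pool.Agent.Run7.h108.GL.Apr
import Pool.Agent.Run7.h47.Apr2

/-! A priori bounds on smaller tori. -/

set_option autoImplicit false
set_option linter.unusedSectionVars false

open scoped BigOperators Matrix
open MeasureTheory

namespace Run7.h108.GL.Q

open Pool.Agent.Run7.h47 hiding Hyp good free0 free1 free1_im free2 inst lad
  par tor_lim
open Pool.Agent.Run7.h47.Q
open Pool.Agent.W788.MFP.Four Pool.Agent.W788.BK
open Pool.Agent.W788.MFP.Form hiding form1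
open Pool.Agent.W788.MFP.Dos

variable {d L : ℕ} [NeZero L] [Law]

/-- the a priori bounds -/
theorem aprC (d : ℕ) (hd : 3 ≤ d) (κ : ℝ) (hκ0 : 0 < κ) (hκ1 : κ < 4 / 35) (ε : ℝ) (hε : 0 < ε)
    (hε1 : ε ≤ 1) :
    ∃ s : ℝ, 0 < s ∧ s ≤ 1 / 5 ∧ ∀ (σ E t : ℝ) (L : ℕ) [NeZero L], 0 < |σ| → |σ| ≤ s →
      |σ| ^ (2 + κ) ≤ t → t ≤ σ ^ 2 → (|σ| ^ 2)⁻¹ ≤ (L : ℝ) → (L : ℝ) ≤ 2 * (|σ| ^ 12)⁻¹ →
      er2 d L (ze d L σ E t).im ≤ ε →
      (mm d L σ E t).im ≤ CX ∧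
      (ze d L σ E t).im ≤ 1 ∧
      ‖mm d L σ E t - mf d L σ E t‖ ≤ ε * (t / σ ^ 2) ∧
      V1 d L σ E t ≤ ε * (t / σ ^ 2) ^ 3 ∧
      (∀ p : T d L, t ^ 2 * V2 σ E t p ≤ ε * (t / σ ^ 2) ^ 3) ∧
      ‖mf d L σ E t‖ ≤ C0 ∧
      ‖ze d L σ E t - E‖ ≤ (C0 + 2) * σ ^ 2 := by
  have hC0 := C0_ge
  have hCX : 3 ≤ CX := by unfold CX; linarith
  set ε' : ℝ := ε ^ 2 / (4 * C0 * (1 + CX) ^ 2) with hε'
  have hε'0 : 0 < ε' := by positivity
  have hε'1 : 4 * C0 * (1 + CX) ^ 2 * ε' = ε ^ 2 := by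
    rw [hε']
    field_simp
  have hεe : ε ^ 2 ≤ ε := by nlinarith
  have hε'2 : ε' ≤ ε ^ 2 := by
    rw [← hε'1]
    have h1 : 1 ≤ 4 * C0 * (1 + CX) ^ 2 := by nlinarith
    nlinarith
  have hε'3 : ε' ≤ 1 := by linarith
  obtain ⟨s1, hs1, hs1', H1⟩ := par d hd κ hκ0 hκ1 ε' hε'0 hε'3
  obtain ⟨s3, hs3, H3⟩ := small_pow (1 + CX) 2 1 (by norm_num) one_pos
  refine ⟨min s1 s3, by positivity, (min_le_left _ _).trans hs1', ?_⟩
  intro σ E t L _ hσ hσs htl htu hL1 hL2 her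
  have hσ1 : |σ| ≤ s1 := hσs.trans (min_le_left _ _)
  have hσ3 : |σ| ≤ s3 := hσs.trans (min_le_right _ _)
  obtain ⟨hV1, hV2⟩ := H1 σ E t L hσ hσ1 htl htu hL1 hL2
  set x : ℝ := |σ| with hx
  have hx1 : x ≤ 1 := by linarith
  have hσx : σ ^ 2 = x ^ 2 := (sq_abs σ).symm
  have ht : 0 < t := (Real.rpow_pos_of_pos hσ _).trans_le htl
  have hσ0 : 0 < σ ^ 2 := by rw [hσx]; positivity
  set r : ℝ := t / σ ^ 2 with hr
  have hr0 : 0 < r := by positivity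
  have hr1 : r ≤ 1 := by
    rw [hr, div_le_one hσ0]
    exact htu
  have hL0 : (0 : ℝ) < L := lt_of_lt_of_le (by positivity) hL1
  have hζ0 := ze_pos (d := d) (L := L) (σ := σ) (E := E) ht
  -- the free resolvent
  have hmf : ‖mf d L σ E t‖ ≤ C0 := by
    have h1 := free0 hd L hζ0
    unfold mf C0
    linarith
  have hmfi : (mf d L σ E t).im ≤ C0 := ((le_abs_self _).trans (Complex.abs_im_le_norm _)).trans hmf
  have hmf0 : 0 ≤ (mf d L σ E t).im := GG_im_nonneg hζ0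
  set X := (mm d L σ E t).im with hX
  have hX0 : 0 ≤ X := mm_im_nonneg ht
  -- the difference
  have hdiff : ‖mm d L σ E t - mf d L σ E t‖ ^ 2 ≤ C0 * ε' * r ^ 2 * (1 + X ^ 2) := by
    refine (m_sub ht).trans ?_
    have h1 : g2 d L σ E t * X ≤ C0 / σ ^ 2 := by
      unfold g2
      have h2 : σ ^ 2 * X ≤ (ze d L σ E t).im := by
        rw [ze_im]
        linarith
      rw [div_mul_eq_mul_div, div_le_div_iff₀ hζ0 hσ0]
      calc (mf d L σ E t).im * X * σ ^ 2 = (mf d L σ E t).im * (σ ^ 2 * X) := by ring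
        _ ≤ C0 * (ze d L σ E t).im :=
            mul_le_mul hmfi h2 (by positivity) (by linarith)
    have hV0 := V1_nonneg (d := d) (L := L) (σ := σ) (E := E) (t := t)
    calc σ ^ 4 * (g2 d L σ E t * V1 d L σ E t) * (X / t) =
        σ ^ 4 / t * V1 d L σ E t * (g2 d L σ E t * X) := by ring
      _ ≤ σ ^ 4 / t * (ε' * r ^ 3 * (1 + X ^ 2)) * (C0 / σ ^ 2) := by
          have h5 : 0 ≤ g2 d L σ E t * X := mul_nonneg (g2_nonneg ht) hX0
          have h6 : 0 ≤ ε' * r ^ 3 * (1 + X ^ 2) := by positivity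
          gcongr
      _ = C0 * ε' * r ^ 2 * (1 + X ^ 2) := by
          rw [hr]
          field_simp
  have hq : C0 * ε' ≤ (ε / (2 * (1 + CX))) ^ 2 := by
    rw [div_pow, le_div_iff₀ (by positivity)]
    calc C0 * ε' * (2 * (1 + CX)) ^ 2 = 4 * C0 * (1 + CX) ^ 2 * ε' := by ring
      _ = ε ^ 2 := hε'1
      _ ≤ ε ^ 2 := le_rfl
  have hdiff2 : ‖mm d L σ E t - mf d L σ E t‖ ≤ ε / (2 * (1 + CX)) * r * (1 + X) := by
    refine abs_le_of_sq_le_sq' ?_ (by positivity) |>.2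
    refine hdiff.trans ?_
    calc C0 * ε' * r ^ 2 * (1 + X ^ 2) ≤ (ε / (2 * (1 + CX))) ^ 2 * r ^ 2 * (1 + X) ^ 2 := by
          have h1 : 1 + X ^ 2 ≤ (1 + X) ^ 2 := by nlinarith
          gcongr
      _ = _ := by ring
  have hXle : X ≤ CX := by
    have h1 : X - (mf d L σ E t).im ≤ ‖mm d L σ E t - mf d L σ E t‖ := by
      rw [hX, ← Complex.sub_im]
      exact (le_abs_self _).trans (Complex.abs_im_le_norm _)
    have h2 : ε / (2 * (1 + CX)) * r * (1 + X) ≤ 1 / 2 * (1 + X) := by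
      refine mul_le_mul_of_nonneg_right ?_ (by positivity)
      have h3 : ε / (2 * (1 + CX)) ≤ 1 / 2 := by
        rw [div_le_div_iff₀ (by positivity) (by norm_num)]
        nlinarith
      calc ε / (2 * (1 + CX)) * r ≤ 1 / 2 * 1 := mul_le_mul h3 hr1 hr0.le (by norm_num)
        _ = 1 / 2 := by norm_num
    unfold CX
    linarith
  have hm1 : ‖mm d L σ E t - mf d L σ E t‖ ≤ ε * r := by
    refine hdiff2.trans ?_
    calc ε / (2 * (1 + CX)) * r * (1 + X) ≤ ε / (2 * (1 + CX)) * r * (1 + CX) := by gcongr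
      _ = ε * r / 2 := by field_simp
      _ ≤ ε * r := by
          have : 0 ≤ ε * r := by positivity
          linarith
  have h1X : ε' * (1 + X ^ 2) ≤ ε := by
    have h1 : 1 + X ^ 2 ≤ 4 * C0 * (1 + CX) ^ 2 := by nlinarith
    calc ε' * (1 + X ^ 2) ≤ ε' * (4 * C0 * (1 + CX) ^ 2) := by gcongr
      _ = ε ^ 2 := by rw [mul_comm, hε'1]
      _ ≤ ε := hεe
  have hVV : ε' * r ^ 3 * (1 + X ^ 2) ≤ ε * r ^ 3 := by
    calc ε' * r ^ 3 * (1 + X ^ 2) = (ε' * (1 + X ^ 2)) * r ^ 3 := by ring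
      _ ≤ ε * r ^ 3 := by gcongr
  have hmn : ‖mm d L σ E t‖ ≤ C0 + 1 := by
    have h1 : ‖mm d L σ E t‖ ≤ ‖mm d L σ E t - mf d L σ E t‖ + ‖mf d L σ E t‖ := by
      have := norm_add_le (mm d L σ E t - mf d L σ E t) (mf d L σ E t)
      rwa [sub_add_cancel] at this
    have h2 : ε * r ≤ 1 := by nlinarith
    linarith
  refine ⟨hXle, ?_, hm1, hV1.trans hVV, fun p => (hV2 p).trans hVV, hmf, ?_⟩
  · rw [ze_im]
    have h1 := H3 x hσ hσ3
    have h2 : x ^ (2 : ℝ) = x ^ 2 := by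
      rw [← Real.rpow_natCast]
      norm_num
    rw [h2, ← hσx] at h1
    calc t + σ ^ 2 * X ≤ σ ^ 2 + σ ^ 2 * CX := by gcongr
      _ = (1 + CX) * σ ^ 2 := by ring
      _ ≤ 1 := h1
  · have h1 : ze d L σ E t - E = (t : ℂ) * Complex.I + (σ : ℂ) ^ 2 * mm d L σ E t := by
      unfold ze
      ring
    rw [h1]
    refine (norm_add_le _ _).trans ?_
    rw [norm_mul, norm_mul, Complex.norm_I, mul_one, norm_pow, Complex.norm_real,
      Complex.norm_real, Real.norm_of_nonneg ht.le, Real.norm_eq_abs, sq_abs]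
    calc t + σ ^ 2 * ‖mm d L σ E t‖ ≤ σ ^ 2 + σ ^ 2 * (C0 + 1) := by gcongr
      _ = _ := by ring

theorem mm_dbl {σ E t : ℝ} (ht : 0 < t) :
    (mm d L σ E (2 * t)).im ≤ 5 * (mm d L σ E t).im := by
  rw [← mm_im ht, ← mm_im (by positivity : 0 < 2 * t), ← integral_const_mul]
  refine integral_mono ?_ ?_ fun V => R_dbl ht V
  · exact (R_BC (σ := σ) (E := E) (by positivity : 0 < 2 * t) (0 : T d L) 0).int.im
  · exact ((R_BC (σ := σ) (E := E) ht (0 : T d L) 0).int.im).const_mul 5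

end Run7.h108.GL.Q
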