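import Pool.Agent.Run7.h108.GL.Apr2
import Pool.Agent.Run7.h47.Apr3

/-! A priori bounds on smaller tori: the lower bound for the density. -/

set_option autoImplicit false
set_option linter.unusedSectionVars false

open scoped BigOperators Matrix
open MeasureTheory

namespace Run7.h108.GL.Q

open Pool.Agent.Run7.h47 hiding Hyp good free0 free1 free1_im free2 inst lad
  par tor_lim
open Pool.Agent.Run7.h47.Q
open Pool.Agent.W788.MFP.Four Pool.Agent.W788.BK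
open Pool.Agent.W788.MFP.Form hiding form1
open Pool.Agent.W788.MFP.Dos

variable [Law]

/-- **a priori bounds on smaller tori** -/
theorem aprB (d : ℕ) (hd : 3 ≤ d) (κ : ℝ) (hκ0 : 0 < κ) (hκ1 : κ < 4 / 35) (a c0 : ℝ)
    (hc0 : 0 < c0) (hJ : ∀ E : ℝ, |E| ≤ a → c0 ≤ (mJ d E).re) (b1 : ℝ) (hb1 : 2 < b1)
    (ε : ℝ) (hε : 0 < ε) (hε1 : ε ≤ 1) (s0 : ℝ) (hs0 : 0 < s0) (hs0' : s0 ≤ 1) :
    ∃ s : ℝ, 0 < s ∧ s ≤ 1 / 5 ∧ ∀ (σ E t : ℝ) (L : ℕ) [NeZero L], 0 < |σ| → |σ| ≤ s →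
      |E| ≤ a → |σ| ^ (2 + κ) ≤ t → t ≤ s0 * σ ^ 2 → |σ| ^ (-b1) ≤ (L : ℝ) →
      (L : ℝ) ≤ 2 * (|σ| ^ 12)⁻¹ →
      er2 d L (ze d L σ E t).im ≤ ε ∧
      (mm d L σ E t).im ≤ CX ∧
      (ze d L σ E t).im ≤ 1 ∧
      ‖mm d L σ E t - mf d L σ E t‖ ≤ ε * (t / σ ^ 2) ∧
      V1 d L σ E t ≤ ε * (t / σ ^ 2) ^ 3 ∧
      (∀ p : T d L, t ^ 2 * V2 σ E t p ≤ ε * (t / σ ^ 2) ^ 3) ∧
      ‖mf d L σ E t‖ ≤ C0 ∧
      ‖ze d L σ E t - E‖ ≤ (C0 + 2) * σ ^ 2 := by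
  have hC0 := C0_ge
  obtain ⟨e0, he0⟩ : ∃ e0, e0 = min ε (c0 / 8) := ⟨_, rfl⟩
  have he00 : 0 < e0 := by rw [he0]; positivity
  have he0ε : e0 ≤ ε := by rw [he0]; exact min_le_left _ _
  have he0c : e0 ≤ c0 / 8 := by rw [he0]; exact min_le_right _ _
  obtain ⟨s1, hs1, hs1', H1⟩ := aprC d hd κ hκ0 hκ1 e0 he00 (he0ε.trans hε1)
  obtain ⟨c1, hc1⟩ : ∃ c1, c1 = min (s0 / 2) (c0 / 10) := ⟨_, rfl⟩
  have hc10 : 0 < c1 := by rw [hc1]; positivity
  obtain ⟨s2, hs2, hs2', H2⟩ := er2_small d c1 b1 e0 hc10 hb1 he00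
  obtain ⟨s3, hs3, H3⟩ := small_pow (3 * 72 * C54 * (C0 + 2) ^ (1 / 4 : ℝ)) (1 / 2) (c0 / 8)
    (by norm_num) (by positivity)
  refine ⟨min s1 (min s2 s3), by positivity, (min_le_left _ _).trans hs1', ?_⟩
  intro σ E t L _ hσ hσs hE htl htu hL1 hL2
  obtain ⟨x, hx⟩ : ∃ x, x = |σ| := ⟨_, rfl⟩
  have hσx : σ ^ 2 = x ^ 2 := by rw [hx, sq_abs]
  rw [← hx] at hσ hσs htl hL1 hL2
  have hxs1 : x ≤ s1 := hσs.trans (min_le_left _ _)
  have hxs2 : x ≤ s2 := hσs.trans ((min_le_right _ _).trans (min_le_left _ _))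
  have hxs3 : x ≤ s3 := hσs.trans ((min_le_right _ _).trans (min_le_right _ _))
  have hx15 : x ≤ 1 / 5 := hxs1.trans hs1'
  have hx1 : x ≤ 1 := by linarith
  have hσ2 : 0 < σ ^ 2 := by rw [hσx]; positivity
  have hL0 : (x ^ 2)⁻¹ ≤ (L : ℝ) := by
    refine le_trans ?_ hL1
    rw [← Real.rpow_natCast, ← Real.rpow_neg hσ.le]
    exact Real.rpow_le_rpow_of_exponent_ge hσ hx1 (by push_cast; linarith)
  -- one step
  have step : ∀ t' : ℝ, x ^ (2 + κ) ≤ t' → t' ≤ s0 * σ ^ 2 →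
      er2 d L (ze d L σ E t').im ≤ e0 → c0 / 2 ≤ (mm d L σ E t').im := by
    intro t' h1 h2 h3
    have ht' : 0 < t' := (Real.rpow_pos_of_pos hσ _).trans_le h1
    have h2' : t' ≤ σ ^ 2 := h2.trans (by
      calc s0 * σ ^ 2 ≤ 1 * σ ^ 2 := by gcongr
        _ = σ ^ 2 := one_mul _)
    obtain ⟨_, _, k3, _, _, _, k7⟩ := H1 σ E t' L (by rw [← hx]; exact hσ)
      (by rw [← hx]; exact hxs1) (by rw [← hx]; exact h1) h2' (by rw [← hx]; exact hL0)
      (by rw [← hx]; exact hL2) h3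
    have h4 := free1_im hd L (ze_pos (d := d) (L := L) (σ := σ) (E := E) ht') E
    have h5 : 3 * 72 * C54 * ‖ze d L σ E t' - E‖ ^ (1 / 4 : ℝ) ≤ c0 / 8 := by
      refine le_trans ?_ (H3 x hσ hxs3)
      have h6 : ‖ze d L σ E t' - E‖ ^ (1 / 4 : ℝ) ≤ ((C0 + 2) * σ ^ 2) ^ (1 / 4 : ℝ) :=
        Real.rpow_le_rpow (norm_nonneg _) k7 (by norm_num)
      have h7 : ((C0 + 2) * σ ^ 2) ^ (1 / 4 : ℝ) = (C0 + 2) ^ (1 / 4 : ℝ) * x ^ (1 / 2 : ℝ) := by
        rw [Real.mul_rpow (by linarith) hσ2.le, hσx, ← Real.rpow_natCast, ← Real.rpow_mul hσ.le]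
        congr 2
        norm_num
      rw [h7] at h6
      have := C54_nonneg
      calc 3 * 72 * C54 * ‖ze d L σ E t' - E‖ ^ (1 / 4 : ℝ) ≤
          3 * 72 * C54 * ((C0 + 2) ^ (1 / 4 : ℝ) * x ^ (1 / 2 : ℝ)) := by gcongr
        _ = _ := by ring
    have h6 : |(mf d L σ E t').im - (mJ d E).re| ≤ c0 / 8 + c0 / 8 :=
      h4.trans (add_le_add (h3.trans he0c) h5)
    have h7 : |(mm d L σ E t').im - (mf d L σ E t').im| ≤ c0 / 8 := by
      rw [← Complex.sub_im]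
      refine (Complex.abs_im_le_norm _).trans (k3.trans ?_)
      have h8 : t' / σ ^ 2 ≤ 1 := by
        rw [div_le_one hσ2]
        exact h2'
      calc e0 * (t' / σ ^ 2) ≤ e0 * 1 := by gcongr
        _ ≤ c0 / 8 := by linarith
    have h8 := hJ E hE
    have h9 := (abs_le.1 h6).1
    have h10 := (abs_le.1 h7).1
    linarith
  have good : ∀ n : ℕ, ∀ t' : ℝ, x ^ (2 + κ) ≤ t' → t' ≤ s0 * σ ^ 2 →
      s0 * σ ^ 2 / 2 ^ (n + 1) ≤ t' → er2 d L (ze d L σ E t').im ≤ e0 := by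
    intro n
    induction n with
    | zero =>
      intro t' h1 h2 h3
      have ht' : 0 < t' := (Real.rpow_pos_of_pos hσ _).trans_le h1
      refine H2 x hσ hxs2 L hL1 _ ?_
      refine le_trans ?_ (h3.trans (ze_im_ge ht'))
      rw [hσx]
      have h4 : c1 ≤ s0 / 2 := by rw [hc1]; exact min_le_left _ _
      have h5 : 0 < x ^ 2 := by positivity
      calc c1 * x ^ 2 ≤ s0 / 2 * x ^ 2 := by gcongr
        _ = s0 * x ^ 2 / 2 ^ (0 + 1) := by ring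
    | succ n ih =>
      intro t' h1 h2 h3
      have ht' : 0 < t' := (Real.rpow_pos_of_pos hσ _).trans_le h1
      by_cases h4 : 2 * t' ≤ s0 * σ ^ 2
      · have h5 : s0 * σ ^ 2 / 2 ^ (n + 1) ≤ 2 * t' := by
          have h6 : s0 * σ ^ 2 / 2 ^ (n + 1) = 2 * (s0 * σ ^ 2 / 2 ^ (n + 1 + 1)) := by
            rw [pow_succ 2 (n + 1)]
            field_simp
          rw [h6]
          linarith
        have h6 := ih (2 * t') (by linarith) h4 h5
        have h7 := step (2 * t') (by linarith) h4 h6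
        have h8 := mm_dbl (d := d) (L := L) (σ := σ) (E := E) ht'
        refine H2 x hσ hxs2 L hL1 _ ?_
        rw [ze_im, hσx]
        have h9 : c1 ≤ c0 / 10 := by rw [hc1]; exact min_le_right _ _
        have h10 : c0 / 10 ≤ (mm d L σ E t').im := by linarith
        have h11 : 0 < x ^ 2 := by positivity
        have h12 : c1 * x ^ 2 ≤ x ^ 2 * (mm d L σ E t').im := by
          calc c1 * x ^ 2 ≤ (mm d L σ E t').im * x ^ 2 := by
                gcongr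
                linarith
            _ = _ := mul_comm _ _
        linarith
      · push Not at h4
        refine H2 x hσ hxs2 L hL1 _ ?_
        refine le_trans ?_ (ze_im_ge ht')
        rw [hσx] at h4
        have h5 : c1 ≤ s0 / 2 := by rw [hc1]; exact min_le_left _ _
        have h6 : 0 < x ^ 2 := by positivity
        calc c1 * x ^ 2 ≤ s0 / 2 * x ^ 2 := by gcongr
          _ = s0 * x ^ 2 / 2 := by ring
          _ ≤ t' := by linarith
  have ht : 0 < t := (Real.rpow_pos_of_pos hσ _).trans_le htl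
  obtain ⟨n, hn⟩ := exists_nat_gt (s0 * σ ^ 2 / t)
  have hn1 : s0 * σ ^ 2 / 2 ^ (n + 1) ≤ t := by
    rw [div_le_iff₀ (by positivity)]
    rw [div_lt_iff₀ ht] at hn
    have h1 : (n : ℝ) ≤ 2 ^ (n + 1) := by
      have h2 : n < 2 ^ (n + 1) := (Nat.lt_two_pow_self (n := n)).trans
        (Nat.pow_lt_pow_right (by norm_num) (by omega))
      exact_mod_cast h2.le
    have h3 : (n : ℝ) * t ≤ 2 ^ (n + 1) * t := by gcongr
    linarith
  have hgood := good n t htl htu hn1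
  have htu' : t ≤ σ ^ 2 := htu.trans (by
    calc s0 * σ ^ 2 ≤ 1 * σ ^ 2 := by gcongr
      _ = σ ^ 2 := one_mul _)
  obtain ⟨k1, k2, k3, k4, k5, k6, k7⟩ := H1 σ E t L (by rw [← hx]; exact hσ)
    (by rw [← hx]; exact hxs1) (by rw [← hx]; exact htl) htu' (by rw [← hx]; exact hL0)
    (by rw [← hx]; exact hL2) hgood
  have hr0 : 0 ≤ t / σ ^ 2 := by positivity
  refine ⟨hgood.trans he0ε, k1, k2, k3.trans ?_, k4.trans ?_, fun p => (k5 p).trans ?_, k6, k7⟩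
  · gcongr
  · gcongr
  · gcongr

end Run7.h108.GL.Q
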