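import Pool.Agent.Run7.h108.GL.Law
import Pool.Agent.Run7.h47.Teq
import Pool.Agent.W193.BK.ES
import Pool.Agent.W540.BK.Fac

/-! Continuous functions of the field which are bounded on the support of its law. -/

set_option autoImplicit false
set_option linter.unusedSectionVars false

open scoped BigOperators
open MeasureTheory

namespace Run7.h108.GL

variable {κ : Type} [Fintype κ] [DecidableEq κ] [Law]

/-- continuous functions, bounded on the cube -/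
def BC {A : Type} [NormedAddCommGroup A] (f : (κ → ℝ) → A) : Prop :=
  Continuous f ∧ ∃ C : ℝ, ∀ V : κ → ℝ, (∀ x, |V x| ≤ Law.b) → ‖f V‖ ≤ C

section BC
variable {A : Type} [NormedAddCommGroup A]

theorem cube_zero : ∀ x : κ, |(0 : κ → ℝ) x| ≤ Law.b := fun x => by
  simp only [Pi.zero_apply, abs_zero]
  exact Law.hb.le

theorem cube_upd {V : κ → ℝ} (h : ∀ x, |V x| ≤ Law.b) (y : κ) :
    ∀ x, |Function.update V y 0 x| ≤ Law.b := by
  intro x
  by_cases hx : x = y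
  · subst hx
    simp only [Function.update_self, abs_zero]
    exact Law.hb.le
  · rw [Function.update_of_ne hx]
    exact h x

theorem ae_cube : ∀ᵐ V ∂(Γ κ), ∀ x, |V x| ≤ Law.b := ae_bd Law.bd

theorem BC.of47 {f : (κ → ℝ) → A} (h : Pool.Agent.Run7.h47.BC f) : BC f :=
  ⟨h.1, h.2.imp fun _ hC V _ => hC V⟩

theorem BC.int {f : (κ → ℝ) → ℂ} (h : BC f) : Integrable f (Γ κ) := by
  obtain ⟨hc, C, hC⟩ := h
  refine Integrable.of_bound hc.aestronglyMeasurable C ?_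
  filter_upwards [ae_cube (κ := κ)] with V hV
  exact hC V hV

theorem BC.intR {f : (κ → ℝ) → ℝ} (h : BC f) : Integrable f (Γ κ) := by
  obtain ⟨hc, C, hC⟩ := h
  refine Integrable.of_bound hc.aestronglyMeasurable C ?_
  filter_upwards [ae_cube (κ := κ)] with V hV
  exact hC V hV

theorem BC.add {f g : (κ → ℝ) → A} (hf : BC f) (hg : BC g) : BC fun x => f x + g x := by
  obtain ⟨c1, C1, h1⟩ := hf
  obtain ⟨c2, C2, h2⟩ := hg
  exact ⟨c1.add c2, C1 + C2, fun x hx => (norm_add_le _ _).trans (add_le_add (h1 x hx) (h2 x hx))⟩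

theorem BC.sub {f g : (κ → ℝ) → A} (hf : BC f) (hg : BC g) : BC fun x => f x - g x := by
  obtain ⟨c1, C1, h1⟩ := hf
  obtain ⟨c2, C2, h2⟩ := hg
  exact ⟨c1.sub c2, C1 + C2, fun x hx => (norm_sub_le _ _).trans (add_le_add (h1 x hx) (h2 x hx))⟩

theorem BC.neg {f : (κ → ℝ) → A} (hf : BC f) : BC fun x => -f x := by
  obtain ⟨c1, C1, h1⟩ := hf
  exact ⟨c1.neg, C1, fun x hx => by rw [norm_neg]; exact h1 x hx⟩

theorem BC.const (a : A) : BC fun _ : κ → ℝ => a :=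
  ⟨continuous_const, ‖a‖, fun _ _ => le_rfl⟩

theorem BC.sum {ι : Type} (s : Finset ι) {f : ι → (κ → ℝ) → A} (h : ∀ i ∈ s, BC (f i)) :
    BC fun x => ∑ i ∈ s, f i x := by
  classical
  induction s using Finset.induction_on with
  | empty => simpa using BC.const (0 : A)
  | insert a s ha ih =>
    simp only [Finset.sum_insert ha]
    exact (h a (Finset.mem_insert_self _ _)).add
      (ih fun i hi => h i (Finset.mem_insert_of_mem hi))

theorem BC.norm {f : (κ → ℝ) → A} (hf : BC f) : BC fun x => ‖f x‖ := by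
  obtain ⟨c1, C1, h1⟩ := hf
  exact ⟨c1.norm, C1, fun x hx => by rw [norm_norm]; exact h1 x hx⟩

theorem BC.upd {f : (κ → ℝ) → A} (hf : BC f) (y : κ) :
    BC fun V => f (Function.update V y 0) := by
  obtain ⟨c1, C1, h1⟩ := hf
  exact ⟨c1.comp (continuous_id.update y continuous_const), C1, fun V hV => h1 _ (cube_upd hV y)⟩

end BC

theorem BC.co (x : κ) : BC fun V : κ → ℝ => ((V x : ℝ) : ℂ) :=
  ⟨Complex.continuous_ofReal.comp (continuous_apply x), Law.b, fun V hV => by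
    rw [Complex.norm_real]
    exact hV x⟩

theorem BC.mul {f g : (κ → ℝ) → ℂ} (hf : BC f) (hg : BC g) : BC fun x => f x * g x := by
  obtain ⟨c1, C1, h1⟩ := hf
  obtain ⟨c2, C2, h2⟩ := hg
  exact ⟨c1.mul c2, C1 * C2, fun x hx => by
    rw [norm_mul]
    exact mul_le_mul (h1 x hx) (h2 x hx) (norm_nonneg _) ((norm_nonneg _).trans (h1 x hx))⟩

theorem BC.mulR {f g : (κ → ℝ) → ℝ} (hf : BC f) (hg : BC g) : BC fun x => f x * g x := by
  obtain ⟨c1, C1, h1⟩ := hf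
  obtain ⟨c2, C2, h2⟩ := hg
  exact ⟨c1.mul c2, C1 * C2, fun x hx => by
    rw [norm_mul]
    exact mul_le_mul (h1 x hx) (h2 x hx) (norm_nonneg _) ((norm_nonneg _).trans (h1 x hx))⟩

theorem BC.powR {f : (κ → ℝ) → ℝ} (hf : BC f) (n : ℕ) : BC fun x => f x ^ n := by
  induction n with
  | zero => simpa using BC.const (1 : ℝ)
  | succ n ih =>
    simp only [pow_succ]
    exact ih.mulR hf

theorem BC.powC {f : (κ → ℝ) → ℂ} (hf : BC f) (n : ℕ) : BC fun x => f x ^ n := by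
  induction n with
  | zero => simpa using BC.const (1 : ℂ)
  | succ n ih =>
    simp only [pow_succ]
    exact ih.mul hf

theorem BC.conj {f : (κ → ℝ) → ℂ} (hf : BC f) : BC fun x => (starRingEnd ℂ) (f x) := by
  obtain ⟨c1, C1, h1⟩ := hf
  exact ⟨Complex.continuous_conj.comp c1, C1, fun x hx => by
    rw [RCLike.norm_conj]
    exact h1 x hx⟩

theorem BC.im {f : (κ → ℝ) → ℂ} (hf : BC f) : BC fun x => (f x).im := by
  obtain ⟨c1, C1, h1⟩ := hf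
  exact ⟨Complex.continuous_im.comp c1, C1, fun x hx =>
    (Complex.abs_im_le_norm _).trans (h1 x hx)⟩

theorem BC.re {f : (κ → ℝ) → ℂ} (hf : BC f) : BC fun x => (f x).re := by
  obtain ⟨c1, C1, h1⟩ := hf
  exact ⟨Complex.continuous_re.comp c1, C1, fun x hx =>
    (Complex.abs_re_le_norm _).trans (h1 x hx)⟩

theorem BC.nsq {f : (κ → ℝ) → ℂ} (hf : BC f) : BC fun x => ‖f x‖ ^ 2 := hf.norm.powR 2

theorem BC.iadd {f g : (κ → ℝ) → ℂ} (hf : BC f) (hg : BC g) :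
    ∫ V, (f V + g V) ∂(Γ κ) = ∫ V, f V ∂(Γ κ) + ∫ V, g V ∂(Γ κ) := integral_add hf.int hg.int

theorem BC.isub {f g : (κ → ℝ) → ℂ} (hf : BC f) (hg : BC g) :
    ∫ V, (f V - g V) ∂(Γ κ) = ∫ V, f V ∂(Γ κ) - ∫ V, g V ∂(Γ κ) := integral_sub hf.int hg.int

theorem BC.cmul {f : (κ → ℝ) → ℂ} (hf : BC f) (c : ℂ) : BC fun V => c * f V :=
  (BC.const c).mul hf

/-- Cauchy-Schwarz -/
theorem csI {ι : Type} [Fintype ι] (a b : ι → (κ → ℝ) → ℂ) (ha : ∀ i, BC (a i))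
    (hb : ∀ i, BC (b i)) :
    ‖∫ V, ∑ i, a i V * b i V ∂(Γ κ)‖ ^ 2 ≤
      (∫ V, ∑ i, ‖a i V‖ ^ 2 ∂(Γ κ)) * ∫ V, ∑ i, ‖b i V‖ ^ 2 ∂(Γ κ) := by
  set A := ∫ V, ∑ i, ‖a i V‖ ^ 2 ∂(Γ κ) with hA
  set B := ∫ V, ∑ i, ‖b i V‖ ^ 2 ∂(Γ κ) with hB
  set P := ∫ V, ∑ i, ‖a i V‖ * ‖b i V‖ ∂(Γ κ) with hP
  have bA : BC fun V : κ → ℝ => ∑ i, ‖a i V‖ ^ 2 := BC.sum _ fun i _ => (ha i).nsq
  have bB : BC fun V : κ → ℝ => ∑ i, ‖b i V‖ ^ 2 := BC.sum _ fun i _ => (hb i).nsq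
  have bP : BC fun V : κ → ℝ => ∑ i, ‖a i V‖ * ‖b i V‖ :=
    BC.sum _ fun i _ => (ha i).norm.mulR (hb i).norm
  have h1 : ‖∫ V, ∑ i, a i V * b i V ∂(Γ κ)‖ ≤ P := by
    refine (norm_integral_le_integral_norm _).trans ?_
    refine integral_mono ?_ bP.intR fun V => ?_
    · exact (BC.sum (A := ℂ) Finset.univ fun i _ => (ha i).mul (hb i)).norm.intR
    · refine (norm_sum_le _ _).trans (Finset.sum_le_sum fun i _ => ?_)
      rw [norm_mul]
  have h2 : ∀ s : ℝ, 0 ≤ A * (s * s) + (-2 * P) * s + B := by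
    intro s
    have e1 : ∫ V, (s ^ 2 * (∑ i, ‖a i V‖ ^ 2) - 2 * s * (∑ i, ‖a i V‖ * ‖b i V‖) +
        ∑ i, ‖b i V‖ ^ 2) ∂(Γ κ) = s ^ 2 * A - 2 * s * P + B := by
      have i1 := (bA.intR.const_mul (s ^ 2))
      have i2 := (bP.intR.const_mul (2 * s))
      have j1 : ∫ V, (s ^ 2 * (∑ i, ‖a i V‖ ^ 2) - 2 * s * (∑ i, ‖a i V‖ * ‖b i V‖) +
          ∑ i, ‖b i V‖ ^ 2) ∂(Γ κ) =
          ∫ V, (s ^ 2 * (∑ i, ‖a i V‖ ^ 2) - 2 * s * (∑ i, ‖a i V‖ * ‖b i V‖)) ∂(Γ κ) + B :=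
        integral_add (i1.sub i2) bB.intR
      have j2 : ∫ V, (s ^ 2 * (∑ i, ‖a i V‖ ^ 2) - 2 * s * (∑ i, ‖a i V‖ * ‖b i V‖)) ∂(Γ κ) =
          ∫ V, s ^ 2 * (∑ i, ‖a i V‖ ^ 2) ∂(Γ κ) - ∫ V, 2 * s * (∑ i, ‖a i V‖ * ‖b i V‖) ∂(Γ κ) :=
        integral_sub i1 i2
      rw [j1, j2, integral_const_mul, integral_const_mul]
    have e2 : 0 ≤ ∫ V, (s ^ 2 * (∑ i, ‖a i V‖ ^ 2) - 2 * s * (∑ i, ‖a i V‖ * ‖b i V‖) +
        ∑ i, ‖b i V‖ ^ 2) ∂(Γ κ) := by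
      refine integral_nonneg fun V => ?_
      simp only [Pi.zero_apply]
      have e3 : s ^ 2 * (∑ i, ‖a i V‖ ^ 2) - 2 * s * (∑ i, ‖a i V‖ * ‖b i V‖) +
          ∑ i, ‖b i V‖ ^ 2 = ∑ i, (s * ‖a i V‖ - ‖b i V‖) ^ 2 := by
        rw [Finset.mul_sum, Finset.mul_sum, ← Finset.sum_sub_distrib, ← Finset.sum_add_distrib]
        exact Finset.sum_congr rfl fun i _ => by ring
      rw [e3]
      exact Finset.sum_nonneg fun _ _ => sq_nonneg _
    rw [e1] at e2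
    linarith
  have h3 := discrim_le_zero h2
  unfold discrim at h3
  have h4 : ‖∫ V, ∑ i, a i V * b i V ∂(Γ κ)‖ ^ 2 ≤ P ^ 2 :=
    pow_le_pow_left₀ (norm_nonneg _) h1 2
  nlinarith

/-- the Efron-Stein inequality -/
theorem es {F : (κ → ℝ) → ℂ} (h : Pool.Agent.Run7.h47.BC F) :
    ∫ V, ‖F V - ∫ U, F U ∂(Γ κ)‖ ^ 2 ∂(Γ κ) ≤
      ∑ y, ∫ V, ‖F V - F (Function.update V y 0)‖ ^ 2 ∂(Γ κ) :=
  Pool.Agent.W193.BK.ES.es κ Law.μ F h.1 h.2

theorem fac (y : κ) (h : ℝ → ℝ) (F : (κ → ℝ) → ℂ) (hh : Continuous h) (hF : Continuous F)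
    (hy : ∀ (V : κ → ℝ) (t : ℝ), F (Function.update V y t) = F V) :
    ∫ V, (h (V y) : ℂ) * F V ∂(Γ κ) = ((∫ s, h s ∂Law.μ : ℝ) : ℂ) * ∫ V, F V ∂(Γ κ) :=
  Pool.Agent.W540.BK.fac κ Law.μ y h F hh hF hy

/-- the first moment -/
theorem fac1 (y : κ) {F : (κ → ℝ) → ℂ} (hF : Continuous F) :
    ∫ V, ((V y : ℝ) : ℂ) * F (Function.update V y 0) ∂(Γ κ) = 0 := by
  have h := fac y (fun s => s) (fun V => F (Function.update V y 0)) continuous_id
    (hF.comp (continuous_id.update y continuous_const)) (fun V t => by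
      simp only [Function.update_idem])
  rw [h, Law.mean]
  simp

/-- the second moment -/
theorem fac2 (y : κ) {F : (κ → ℝ) → ℂ} (hF : Continuous F) :
    ∫ V, ((V y : ℝ) : ℂ) ^ 2 * F (Function.update V y 0) ∂(Γ κ) =
      ∫ V, F (Function.update V y 0) ∂(Γ κ) := by
  have h := fac y (fun s => s ^ 2) (fun V => F (Function.update V y 0)) (continuous_pow 2)
    (hF.comp (continuous_id.update y continuous_const)) (fun V t => by
      simp only [Function.update_idem])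
  rw [Law.var] at h
  simpa using h

end Run7.h108.GL
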