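import Pool.Agent.W788.MFP.Nck

/-! Comparison of bounded centred variables with Gaussian ones. -/

set_option autoImplicit false
set_option linter.unusedSectionVars false

open scoped BigOperators
open MeasureTheory ProbabilityTheory

namespace Run7.h108.GL

open Pool.Agent.W788.MFP.Gm (γ Γ)

section cube

variable {κ : Type} [Fintype κ] [DecidableEq κ]

/-- the sign of a bit -/
noncomputable def sg (e : Bool) : ℝ := if e then 1 else -1

theorem sg_sq (e : Bool) : sg e * sg e = 1 := by cases e <;> simp [sg]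

theorem sg_abs (e : Bool) : |sg e| = 1 := by cases e <;> simp [sg]

/-- the weights of the vertices of the cube -/
noncomputable def wt (b : ℝ) (v : κ → ℝ) (ε : κ → Bool) : ℝ := ∏ x, (1 + sg (ε x) * v x / b) / 2

theorem sum_prod (f : κ → Bool → ℝ) : ∑ ε : κ → Bool, ∏ x, f x (ε x) = ∏ x, ∑ e, f x e := by
  rw [Finset.prod_univ_sum, Fintype.piFinset_univ]

theorem wt_nonneg {b : ℝ} (hb : 0 < b) {v : κ → ℝ} (hv : ∀ x, |v x| ≤ b) (ε : κ → Bool) :
    0 ≤ wt b v ε := by
  refine Finset.prod_nonneg fun x _ => ?_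
  have h1 : |sg (ε x) * v x / b| ≤ 1 := by
    rw [abs_div, abs_mul, sg_abs, one_mul, abs_of_pos hb, div_le_one hb]
    exact hv x
  have := (abs_le.1 h1).1
  linarith

theorem wt_sum (b : ℝ) (v : κ → ℝ) : ∑ ε : κ → Bool, wt b v ε = 1 := by
  unfold wt
  rw [sum_prod fun x e => (1 + sg e * v x / b) / 2]
  refine Finset.prod_eq_one fun x _ => ?_
  rw [Fintype.sum_bool]
  simp only [sg]
  norm_num
  ring

theorem wt_mean {b : ℝ} (hb : 0 < b) (v : κ → ℝ) (x : κ) :
    ∑ ε : κ → Bool, wt b v ε * (b * sg (ε x)) = v x := by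
  have h1 : ∀ ε : κ → Bool, wt b v ε * (b * sg (ε x)) =
      ∏ y, ((1 + sg (ε y) * v y / b) / 2 * (if y = x then b * sg (ε y) else 1)) := by
    intro ε
    rw [Finset.prod_mul_distrib, Finset.prod_ite_eq' Finset.univ x fun y => b * sg (ε y),
      if_pos (Finset.mem_univ x)]
    rfl
  simp only [h1]
  rw [sum_prod fun y e => (1 + sg e * v y / b) / 2 * (if y = x then b * sg e else 1)]
  have h2 : ∀ y, ∑ e : Bool, (1 + sg e * v y / b) / 2 * (if y = x then b * sg e else 1) =
      if y = x then v y else 1 := by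
    intro y
    rw [Fintype.sum_bool]
    by_cases h : y = x
    · simp only [if_pos h, sg]
      norm_num
      field_simp
      ring
    · simp only [if_neg h, sg]
      norm_num
      ring
  simp only [h2]
  rw [Finset.prod_ite_eq' Finset.univ x fun y => v y, if_pos (Finset.mem_univ x)]

variable {B : Type} [NormedAddCommGroup B] [NormedSpace ℝ B]

/-- a linear function of the field -/
noncomputable def li (A : κ → B) (ξ : κ → ℝ) : B := ∑ x, ξ x • A x

theorem li_cont (A : κ → B) : Continuous (li A) := by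
  unfold li
  fun_prop

theorem li_bd (A : κ → B) (ξ : κ → ℝ) : ‖li A ξ‖ ≤ ∑ x, |ξ x| * ‖A x‖ := by
  unfold li
  refine (norm_sum_le _ _).trans (Finset.sum_le_sum fun x _ => ?_)
  rw [norm_smul, Real.norm_eq_abs]

theorem li_cube {b : ℝ} (hb : 0 < b) (A : κ → B) (m : ℕ) (v : κ → ℝ) (hv : ∀ x, |v x| ≤ b) :
    ‖li A v‖ ^ m ≤ ∑ ε : κ → Bool, wt b v ε * ‖li A (fun x => b * sg (ε x))‖ ^ m := by
  have h1 : li A v = ∑ ε : κ → Bool, wt b v ε • li A (fun x => b * sg (ε x)) := by
    unfold li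
    simp only [Finset.smul_sum]
    rw [Finset.sum_comm]
    refine Finset.sum_congr rfl fun x _ => ?_
    simp only [smul_smul]
    rw [← Finset.sum_smul, wt_mean hb]
  have h2 : ‖li A v‖ ≤ ∑ ε : κ → Bool, wt b v ε * ‖li A (fun x => b * sg (ε x))‖ := by
    rw [h1]
    refine (norm_sum_le _ _).trans (Finset.sum_le_sum fun ε _ => ?_)
    rw [norm_smul, Real.norm_of_nonneg (wt_nonneg hb hv ε)]
  refine (pow_le_pow_left₀ (norm_nonneg _) h2 m).trans ?_
  exact Real.pow_arith_mean_le_arith_mean_pow _ _ _ (fun ε _ => wt_nonneg hb hv ε) (wt_sum b v)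
    (fun ε _ => norm_nonneg _) m

theorem ae_bd {μ : Measure ℝ} [IsProbabilityMeasure μ] {b : ℝ} (hbd : ∀ᵐ s ∂μ, |s| ≤ b) :
    ∀ᵐ V ∂(Measure.pi fun _ : κ => μ), ∀ x, |V x| ≤ b := by
  rw [ae_all_iff]
  intro x
  exact (Measure.quasiMeasurePreserving_eval (fun _ : κ => μ) x).ae hbd

theorem int_id {μ : Measure ℝ} [IsProbabilityMeasure μ] {b : ℝ} (hbd : ∀ᵐ s ∂μ, |s| ≤ b) :
    Integrable (fun s : ℝ => s) μ :=
  Integrable.of_bound measurable_id.aestronglyMeasurable b hbd

theorem cube_int {μ : Measure ℝ} [IsProbabilityMeasure μ] {b : ℝ} (hb : 0 < b)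
    (hbd : ∀ᵐ s ∂μ, |s| ≤ b) (hm : ∫ s, s ∂μ = 0) (ε : κ → Bool) :
    Integrable (fun V => wt b V ε) (Measure.pi fun _ : κ => μ) ∧
      ∫ V, wt b V ε ∂(Measure.pi fun _ : κ => μ) = (1 / 2) ^ Fintype.card κ := by
  have hi : ∀ x, Integrable (fun s : ℝ => (1 + sg (ε x) * s / b) / 2) μ := fun x =>
    ((integrable_const _).add (((int_id hbd).const_mul _).div_const _)).div_const _
  refine ⟨Integrable.fintype_prod (f := fun x s => (1 + sg (ε x) * s / b) / 2) hi, ?_⟩
  unfold wt
  rw [integral_fintype_prod_eq_prod (fun x s => (1 + sg (ε x) * s / b) / 2)]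
  have h1 : ∀ x, ∫ s, (1 + sg (ε x) * s / b) / 2 ∂μ = 1 / 2 := by
    intro x
    rw [integral_div, integral_add (integrable_const _) (((int_id hbd).const_mul _).div_const _),
      integral_div, integral_const_mul, hm]
    simp
  simp only [h1]
  simp

/-- first half of the comparison -/
theorem cube_le {μ : Measure ℝ} [IsProbabilityMeasure μ] {b : ℝ} (hb : 0 < b)
    (hbd : ∀ᵐ s ∂μ, |s| ≤ b) (hm : ∫ s, s ∂μ = 0) (A : κ → B) (m : ℕ) :
    ∫ V, ‖li A V‖ ^ m ∂(Measure.pi fun _ : κ => μ) ≤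
      ∑ ε : κ → Bool, (1 / 2) ^ Fintype.card κ * ‖li A (fun x => b * sg (ε x))‖ ^ m := by
  have h1 : ∫ V, ‖li A V‖ ^ m ∂(Measure.pi fun _ : κ => μ) ≤
      ∫ V, ∑ ε : κ → Bool, wt b V ε * ‖li A (fun x => b * sg (ε x))‖ ^ m
        ∂(Measure.pi fun _ : κ => μ) := by
    refine integral_mono_of_nonneg (Filter.Eventually.of_forall fun V => by positivity) ?_ ?_
    · exact integrable_finsetSum _ fun ε _ => (cube_int hb hbd hm ε).1.mul_const _
    · filter_upwards [ae_bd (κ := κ) hbd] with V hV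
      exact li_cube hb A m V hV
  refine h1.trans (le_of_eq ?_)
  rw [integral_finsetSum _ fun ε _ => (cube_int hb hbd hm ε).1.mul_const _]
  refine Finset.sum_congr rfl fun ε _ => ?_
  rw [integral_mul_const, (cube_int hb hbd hm ε).2]

end cube

section gauss

variable {κ : Type} [Fintype κ] [DecidableEq κ]
variable {B : Type} [NormedAddCommGroup B] [NormedSpace ℝ B] [CompleteSpace B]

theorem abs_pow_int (m : ℕ) : Integrable (fun s : ℝ => |s| ^ m) γ := by
  have h := (Pool.Agent.W788.MFP.Gm.int_pow m).norm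
  refine h.congr (Filter.Eventually.of_forall fun s => ?_)
  simp [norm_pow]

theorem coord_int (m : ℕ) (x : κ) : Integrable (fun g : κ → ℝ => |g x| ^ m) (Γ κ) :=
  (measurePreserving_eval (fun _ : κ => γ) x).integrable_comp_of_integrable (abs_pow_int m)

/-- domination by the moments -/
theorem dom_int (A : κ → B) (m : ℕ) (h : (κ → ℝ) → κ → ℝ) (hc : Continuous h) (K : ℝ)
    (hK : 0 ≤ K) (hb : ∀ g x, |h g x| ≤ K * |g x|) :
    Integrable (fun g => ‖li A (h g)‖ ^ m) (Γ κ) := by
  have h1 : Integrable (fun g : κ → ℝ => (K * ∑ y, ‖A y‖) ^ m * (1 + ∑ x, |g x| ^ m)) (Γ κ) :=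
    ((integrable_const _).add (integrable_finsetSum _ fun x _ => coord_int m x)).const_mul _
  refine h1.mono' (((li_cont A).comp hc).norm.pow m).aestronglyMeasurable
    (Filter.Eventually.of_forall fun g => ?_)
  rw [Real.norm_of_nonneg (by positivity)]
  have hS : 0 ≤ ∑ y, ‖A y‖ := Finset.sum_nonneg fun _ _ => norm_nonneg _
  rcases isEmpty_or_nonempty κ with hE | hE
  · have h2 : li A (h g) = 0 := by
      unfold li
      simp
    rw [h2, norm_zero]
    simp
  · obtain ⟨x0, _, hx0⟩ := Finset.exists_max_image Finset.univ (fun x => |g x|)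
      Finset.univ_nonempty
    have h2 : ‖li A (h g)‖ ≤ K * |g x0| * ∑ y, ‖A y‖ := by
      refine (li_bd A _).trans ?_
      rw [Finset.mul_sum]
      refine Finset.sum_le_sum fun x _ => ?_
      refine mul_le_mul_of_nonneg_right ?_ (norm_nonneg _)
      exact (hb g x).trans (mul_le_mul_of_nonneg_left (hx0 x (Finset.mem_univ x)) hK)
    have h3 : |g x0| ^ m ≤ ∑ x, |g x| ^ m :=
      Finset.single_le_sum (f := fun x => |g x| ^ m) (fun _ _ => by positivity)
        (Finset.mem_univ x0)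
    calc ‖li A (h g)‖ ^ m ≤ (K * |g x0| * ∑ y, ‖A y‖) ^ m :=
          pow_le_pow_left₀ (norm_nonneg _) h2 m
      _ = (K * ∑ y, ‖A y‖) ^ m * |g x0| ^ m := by ring
      _ ≤ (K * ∑ y, ‖A y‖) ^ m * (1 + ∑ x, |g x| ^ m) := by
          gcongr
          linarith

/-- the first absolute moment -/
noncomputable def m1 : ℝ := ∫ s, |s| ∂γ

theorem abs_int : Integrable (fun s : ℝ => |s|) γ := by
  simpa using abs_pow_int 1

theorem m1_pos : 0 < m1 := by
  unfold m1
  rw [integral_pos_iff_support_of_nonneg (fun s => abs_nonneg s) abs_int]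
  have h1 : Function.support (fun s : ℝ => |s|) = {0}ᶜ := by
    ext s
    simp
  rw [h1, prob_compl_eq_one_sub (measurableSet_singleton 0)]
  have h2 : γ {(0 : ℝ)} = 0 := by
    have : NullSingletonClass γ := by
      unfold Pool.Agent.W788.MFP.Gm.γ
      exact nullSingletonClass_gaussianReal (by norm_num)
    exact measure_singleton 0
  rw [h2]
  simp

/-- Jensen for one pattern of signs -/
theorem jensen {b : ℝ} (hb : 0 < b) (A : κ → B) (m : ℕ) (ε : κ → Bool) :
    ‖li A (fun x => b * sg (ε x))‖ ^ m ≤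
      ∫ g, ‖li A (fun x => b / m1 * (sg (ε x) * |g x|))‖ ^ m ∂(Γ κ) := by
  have hm := m1_pos
  have hK : 0 ≤ b / m1 := by positivity
  have hc : Continuous fun (g : κ → ℝ) (x : κ) => b / m1 * (sg (ε x) * |g x|) := by fun_prop
  have hbd : ∀ (g : κ → ℝ) (x : κ), |b / m1 * (sg (ε x) * |g x|)| ≤ b / m1 * |g x| := by
    intro g x
    rw [abs_mul, abs_mul, sg_abs, one_mul, abs_abs, abs_of_nonneg hK]
  have hi : ∀ n : ℕ, Integrable (fun g : κ → ℝ =>
      ‖li A (fun x => b / m1 * (sg (ε x) * |g x|))‖ ^ n) (Γ κ) := fun n =>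
    dom_int A n (fun g x => b / m1 * (sg (ε x) * |g x|)) hc _ hK hbd
  have hi1 : Integrable (fun g : κ → ℝ =>
      ‖li A (fun x => b / m1 * (sg (ε x) * |g x|))‖) (Γ κ) := by simpa using hi 1
  have e1 : li A (fun x => b * sg (ε x)) =
      ∫ g, li A (fun x => b / m1 * (sg (ε x) * |g x|)) ∂(Γ κ) := by
    unfold li
    have hx : ∀ x : κ, Integrable (fun g : κ → ℝ => |g x|) (Γ κ) := fun x => by
      simpa using coord_int 1 x
    rw [integral_finsetSum _ fun x _ => (((hx x).const_mul (sg (ε x))).const_mul (b / m1)).smul_const (A x)]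
    refine Finset.sum_congr rfl fun x _ => ?_
    rw [integral_smul_const, integral_const_mul, integral_const_mul]
    have e2 : ∫ g, |g x| ∂(Γ κ) = m1 := by
      unfold m1
      have e3 := integral_map (μ := Γ κ) (φ := Function.eval x) (f := fun s : ℝ => |s|)
        (measurable_pi_apply x).aemeasurable continuous_abs.aestronglyMeasurable
      rw [(measurePreserving_eval (fun _ : κ => γ) x).map_eq] at e3
      exact e3.symm
    rw [e2]
    congr 1
    field_simp
  have h2 : ‖li A (fun x => b * sg (ε x))‖ ≤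
      ∫ g, ‖li A (fun x => b / m1 * (sg (ε x) * |g x|))‖ ∂(Γ κ) := by
    rw [e1]
    exact norm_integral_le_integral_norm _
  refine (pow_le_pow_left₀ (norm_nonneg _) h2 m).trans ?_
  exact (convexOn_pow m).map_integral_le (continuous_pow m).continuousOn isClosed_Ici
    (Filter.Eventually.of_forall fun g => norm_nonneg _) hi1 (hi m)

/-- the flip of the signs -/
noncomputable def fl (g : κ → ℝ) (ε : κ → Bool) : κ → Bool := fun x => if g x < 0 then !(ε x) else ε x

theorem fl_fl (g : κ → ℝ) (ε : κ → Bool) : fl g (fl g ε) = ε := by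
  funext x
  unfold fl
  by_cases h : g x < 0 <;> simp [h]

theorem fl_sg (g : κ → ℝ) (ε : κ → Bool) (x : κ) : sg (fl g ε x) * g x = sg (ε x) * |g x| := by
  unfold fl
  by_cases h : g x < 0
  · rw [if_pos h, abs_of_neg h]
    cases ε x <;> simp [sg]
  · rw [if_neg h, abs_of_nonneg (not_lt.1 h)]

/-- the Gaussian measure is invariant under changes of signs -/
theorem mp_sign (ε : κ → Bool) :
    MeasurePreserving (fun (g : κ → ℝ) (x : κ) => sg (ε x) * g x) (Γ κ) (Γ κ) := by
  refine measurePreserving_pi (fun _ : κ => γ) (fun _ : κ => γ)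
    (f := fun x s => sg (ε x) * s) fun x => ?_
  refine ⟨by fun_prop, ?_⟩
  unfold Pool.Agent.W788.MFP.Gm.γ
  rcases Bool.eq_false_or_eq_true (ε x) with h | h
  · simp [h, sg]
  · have h1 := gaussianReal_map_neg (μ := 0) (v := 1)
    rw [neg_zero] at h1
    simp only [h, sg, Bool.false_eq_true, if_false, neg_one_mul]
    exact h1

/-- **the comparison**: moments of linear functions of bounded centred variables -/
theorem compare {μ : Measure ℝ} [IsProbabilityMeasure μ] {b : ℝ} (hb : 0 < b)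
    (hbd : ∀ᵐ s ∂μ, |s| ≤ b) (hm : ∫ s, s ∂μ = 0) (A : κ → B) (m : ℕ) :
    ∫ V, ‖li A V‖ ^ m ∂(Measure.pi fun _ : κ => μ) ≤
      (b / m1) ^ m * ∫ g, ‖li A g‖ ^ m ∂(Γ κ) := by
  have hm1 := m1_pos
  have hK : 0 ≤ b / m1 := by positivity
  refine (cube_le hb hbd hm A m).trans ?_
  have hi : ∀ ε : κ → Bool, Integrable (fun g : κ → ℝ =>
      (1 / 2 : ℝ) ^ Fintype.card κ * ‖li A (fun x => b / m1 * (sg (ε x) * |g x|))‖ ^ m)
      (Γ κ) := fun ε =>
    (dom_int A m (fun g x => b / m1 * (sg (ε x) * |g x|)) (by fun_prop) _ hK (fun g x => by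
      rw [abs_mul, abs_mul, sg_abs, one_mul, abs_abs, abs_of_nonneg hK])).const_mul _
  have hj : ∀ ε : κ → Bool, Integrable (fun g : κ → ℝ =>
      (1 / 2 : ℝ) ^ Fintype.card κ * ‖li A (fun x => b / m1 * (sg (ε x) * g x))‖ ^ m)
      (Γ κ) := fun ε =>
    (dom_int A m (fun g x => b / m1 * (sg (ε x) * g x)) (by fun_prop) _ hK (fun g x => by
      rw [abs_mul, abs_mul, sg_abs, one_mul, abs_of_nonneg hK])).const_mul _
  have h1 : ∑ ε : κ → Bool, (1 / 2) ^ Fintype.card κ * ‖li A (fun x => b * sg (ε x))‖ ^ m ≤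
      ∑ ε : κ → Bool, ∫ g, (1 / 2 : ℝ) ^ Fintype.card κ *
        ‖li A (fun x => b / m1 * (sg (ε x) * |g x|))‖ ^ m ∂(Γ κ) := by
    refine Finset.sum_le_sum fun ε _ => ?_
    rw [integral_const_mul]
    exact mul_le_mul_of_nonneg_left (jensen hb A m ε) (by positivity)
  refine h1.trans (le_of_eq ?_)
  rw [← integral_finsetSum _ fun ε _ => hi ε]
  have h2 : ∀ g : κ → ℝ, ∑ ε : κ → Bool, (1 / 2 : ℝ) ^ Fintype.card κ *
        ‖li A (fun x => b / m1 * (sg (ε x) * |g x|))‖ ^ m =
      ∑ ε : κ → Bool, (1 / 2 : ℝ) ^ Fintype.card κ *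
        ‖li A (fun x => b / m1 * (sg (ε x) * g x))‖ ^ m := by
    intro g
    refine Finset.sum_nbij' (fl g) (fl g) (fun _ _ => Finset.mem_univ _)
      (fun _ _ => Finset.mem_univ _) (fun ε _ => fl_fl g ε) (fun ε _ => fl_fl g ε) fun ε _ => ?_
    simp only [fl_sg]
  simp only [h2]
  rw [integral_finsetSum _ fun ε _ => hj ε]
  have h3 : ∀ ε : κ → Bool, ∫ g, (1 / 2 : ℝ) ^ Fintype.card κ *
        ‖li A (fun x => b / m1 * (sg (ε x) * g x))‖ ^ m ∂(Γ κ) =
      (1 / 2 : ℝ) ^ Fintype.card κ * ((b / m1) ^ m * ∫ g, ‖li A g‖ ^ m ∂(Γ κ)) := by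
    intro ε
    rw [integral_const_mul]
    congr 1
    have h4 : ∀ g : κ → ℝ, ‖li A (fun x => b / m1 * (sg (ε x) * g x))‖ ^ m =
        (b / m1) ^ m * ‖li A (fun x => sg (ε x) * g x)‖ ^ m := by
      intro g
      have h5 : li A (fun x => b / m1 * (sg (ε x) * g x)) =
          (b / m1) • li A (fun x => sg (ε x) * g x) := by
        unfold li
        rw [Finset.smul_sum]
        refine Finset.sum_congr rfl fun x _ => ?_
        rw [smul_smul]
      rw [h5, norm_smul, Real.norm_of_nonneg hK, mul_pow]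
    simp only [h4]
    rw [integral_const_mul]
    congr 1
    have h5 := integral_map (μ := Γ κ) (φ := fun (g : κ → ℝ) (x : κ) => sg (ε x) * g x)
      (f := fun g => ‖li A g‖ ^ m) (mp_sign ε).measurable.aemeasurable
      (((li_cont A).norm.pow m).aestronglyMeasurable)
    rw [(mp_sign ε).map_eq] at h5
    exact h5.symm
  simp only [h3]
  rw [Finset.sum_const, Finset.card_univ, Fintype.card_fun, Fintype.card_bool, nsmul_eq_mul,
    ← mul_assoc]
  have h6 : (((2 : ℕ) ^ Fintype.card κ : ℕ) : ℝ) * (1 / 2) ^ Fintype.card κ = 1 := by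
    push_cast
    rw [← mul_pow]
    norm_num
  rw [h6, one_mul]

end gauss

end Run7.h108.GL
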