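import Pool.Agent.Run7.h108.GL.Zm
import Pool.Agent.Run7.h47.Eig2

/-! Eigenvectors on the torus: averaging over momenta. -/

set_option autoImplicit false
set_option linter.unusedSectionVars false

open scoped BigOperators Matrix Topology
open MeasureTheory ProbabilityTheory

namespace Run7.h108.GL

open Pool.Agent.Run7.h47 hiding Hyp good
open Pool.Agent.W788.MFP.Four Pool.Agent.W788.BK

variable {d L : ℕ} [NeZero L] [Law]

/-- the mean of the sum at one momentum -/
theorem Hp_mean {σ E t : ℝ} (ht : 0 < t) (p : T d L) :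
    ∫ V, Hp p (fun x y => ‖R σ E t V x y‖ ^ 2) ∂(Γ (T d L)) = (NN d L : ℂ) * ff σ E t p := by
  have h1 : ∀ V : T d L → ℝ, Hp p (fun x y => ‖R σ E t V x y‖ ^ 2) =
      ∑ y, (starRingEnd ℂ) (e p y) * Fm σ E t p V y y := by
    intro V
    unfold Hp Fm
    rw [Finset.sum_comm]
    refine Finset.sum_congr rfl fun y _ => ?_
    rw [Finset.mul_sum]
    refine Finset.sum_congr rfl fun x _ => ?_
    have h2 := Complex.mul_conj (R σ E t V y x)
    rw [Complex.normSq_eq_norm_sq] at h2
    rw [sub_eq_add_neg, e_add, e_neg]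
    simp only
    rw [R_symm σ E t V x y, ← h2]
    ring
  simp only [h1]
  have hi : ∀ y : T d L, Integrable (fun V : T d L → ℝ =>
      (starRingEnd ℂ) (e p y) * Fm σ E t p V y y) (Γ (T d L)) := by
    intro y
    obtain ⟨c1, C, hC⟩ := Pool.Agent.Run7.h47.F_BC (σ := σ) (E := E) ht p y y
    exact (Integrable.of_bound c1.aestronglyMeasurable C (Filter.Eventually.of_forall hC)).const_mul _
  rw [integral_finsetSum _ fun y _ => hi y]
  have h2 : ∀ y : T d L, ∫ V, (starRingEnd ℂ) (e p y) * Fm σ E t p V y y ∂(Γ (T d L)) =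
      ff σ E t p := by
    intro y
    rw [integral_const_mul, F_mean ht, ← mul_assoc, mul_comm ((starRingEnd ℂ) (e p y)), e_normSq,
      one_mul]
  rw [Finset.sum_congr rfl fun y _ => h2 y, Finset.sum_const, Finset.card_univ, nsmul_eq_mul]
  congr 1
  unfold NN
  rw [Fintype.card_pi]
  simp [ZMod.card]

/-- the mean of the averaged sum -/
theorem Sw_mean {σ E t K0 δ : ℝ} (ht : 0 < t) {n : ℕ} (hn : 0 < n) (q : T d L)
    (h0 : t * ‖ff σ E t (0 : T d L)‖ ≤ K0)
    (h1 : ∀ k < n, ∀ l < n, k ≠ l → t * ‖ff σ E t (k • q - l • q)‖ ≤ δ) (hδ : 0 ≤ δ) :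
    t * ∫ V, Sw n q (fun x y => ‖R σ E t V x y‖ ^ 2) ∂(Γ (T d L)) ≤ NN d L * (K0 / n + δ) := by
  have hn0 : (0 : ℝ) < n := by exact_mod_cast hn
  have hN := NN_pos (d := d) (L := L)
  have hHc : ∀ p : T d L, Continuous fun V : T d L → ℝ =>
      Hp p (fun x y => ‖R σ E t V x y‖ ^ 2) := by
    intro p
    unfold Hp
    refine continuous_finsetSum _ fun x _ => continuous_finsetSum _ fun y _ => ?_
    exact continuous_const.mul (Complex.continuous_ofReal.comp (R2_cont ht x y))
  have hHi : ∀ p : T d L, Integrable (fun V : T d L → ℝ =>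
      Hp p (fun x y => ‖R σ E t V x y‖ ^ 2)) (Γ (T d L)) := by
    intro p
    refine Integrable.of_bound (C := ∑ _x : T d L, ∑ _y : T d L, (t⁻¹) ^ 2)
      (hHc p).aestronglyMeasurable (Filter.Eventually.of_forall fun V => ?_)
    unfold Hp
    refine (norm_sum_le _ _).trans (Finset.sum_le_sum fun x _ => ?_)
    refine (norm_sum_le _ _).trans (Finset.sum_le_sum fun y _ => ?_)
    rw [norm_mul, norm_e, one_mul, Complex.norm_real, Real.norm_of_nonneg (sq_nonneg _)]
    exact pow_le_pow_left₀ (norm_nonneg _) (R_bd ht V x y) 2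
  have hre : ∀ p : T d L, ∫ V, (Hp p (fun x y => ‖R σ E t V x y‖ ^ 2)).re ∂(Γ (T d L)) ≤
      NN d L * ‖ff σ E t p‖ := by
    intro p
    have h2 := Complex.reCLM.integral_comp_comm (hHi p)
    simp only [Complex.reCLM_apply] at h2
    rw [h2, Hp_mean ht, Complex.re_ofReal_mul]
    exact mul_le_mul_of_nonneg_left ((le_abs_self _).trans (Complex.abs_re_le_norm _)) hN.le
  have hS : ∫ V, Sw n q (fun x y => ‖R σ E t V x y‖ ^ 2) ∂(Γ (T d L)) =
      ((n : ℝ) ^ 2)⁻¹ * ∑ k ∈ Finset.range n, ∑ l ∈ Finset.range n,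
        ∫ V, (Hp (k • q - l • q) (fun x y => ‖R σ E t V x y‖ ^ 2)).re ∂(Γ (T d L)) := by
    simp only [Sw_eq]
    rw [integral_const_mul, integral_finsetSum]
    · congr 1
      refine Finset.sum_congr rfl fun k _ => ?_
      rw [integral_finsetSum]
      exact fun l _ => (hHi _).re
    · exact fun k _ => integrable_finsetSum _ fun l _ => (hHi _).re
  rw [hS]
  have h2 : ∀ k ∈ Finset.range n, ∑ l ∈ Finset.range n,
      t * ∫ V, (Hp (k • q - l • q) (fun x y => ‖R σ E t V x y‖ ^ 2)).re ∂(Γ (T d L)) ≤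
      NN d L * (K0 + n * δ) := by
    intro k hk
    have h3 : ∀ l ∈ Finset.range n,
        t * ∫ V, (Hp (k • q - l • q) (fun x y => ‖R σ E t V x y‖ ^ 2)).re ∂(Γ (T d L)) ≤
        NN d L * ((if l = k then K0 else 0) + δ) := by
      intro l hl
      have h4 : t * ∫ V, (Hp (k • q - l • q) (fun x y => ‖R σ E t V x y‖ ^ 2)).re ∂(Γ (T d L)) ≤
          NN d L * (t * ‖ff σ E t (k • q - l • q)‖) := by
        calc t * ∫ V, (Hp (k • q - l • q) (fun x y => ‖R σ E t V x y‖ ^ 2)).re ∂(Γ (T d L)) ≤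
            t * (NN d L * ‖ff σ E t (k • q - l • q)‖) := by
              gcongr
              exact hre _
          _ = _ := by ring
      refine h4.trans (mul_le_mul_of_nonneg_left ?_ hN.le)
      by_cases hkl : l = k
      · subst hkl
        rw [if_pos rfl, sub_self]
        linarith
      · rw [if_neg hkl, zero_add]
        exact h1 k (Finset.mem_range.1 hk) l (Finset.mem_range.1 hl) fun h => hkl h.symm
    refine (Finset.sum_le_sum h3).trans (le_of_eq ?_)
    rw [← Finset.mul_sum, Finset.sum_add_distrib, Finset.sum_ite_eq' (Finset.range n) k,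
      if_pos hk, Finset.sum_const, Finset.card_range, nsmul_eq_mul]
  calc t * (((n : ℝ) ^ 2)⁻¹ * ∑ k ∈ Finset.range n, ∑ l ∈ Finset.range n,
        ∫ V, (Hp (k • q - l • q) (fun x y => ‖R σ E t V x y‖ ^ 2)).re ∂(Γ (T d L))) =
      ((n : ℝ) ^ 2)⁻¹ * ∑ k ∈ Finset.range n, ∑ l ∈ Finset.range n,
        t * ∫ V, (Hp (k • q - l • q) (fun x y => ‖R σ E t V x y‖ ^ 2)).re ∂(Γ (T d L)) := by
        rw [← mul_assoc, mul_comm t, mul_assoc, Finset.mul_sum]
        congr 1
        exact Finset.sum_congr rfl fun k _ => by rw [Finset.mul_sum]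
    _ ≤ ((n : ℝ) ^ 2)⁻¹ * ∑ _k ∈ Finset.range n, NN d L * (K0 + n * δ) :=
        mul_le_mul_of_nonneg_left (Finset.sum_le_sum h2) (by positivity)
    _ = _ := by
        rw [Finset.sum_const, Finset.card_range, nsmul_eq_mul]
        field_simp

end Run7.h108.GL
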