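import Pool.Agent.Run7.h108.GL.Eig2
import Pool.Agent.Run7.h47.Eig3

/-! Eigenvectors on the torus: the slabs and the limit in large volumes. -/

set_option autoImplicit false
set_option linter.unusedSectionVars false

open scoped BigOperators Matrix Topology
open MeasureTheory ProbabilityTheory

namespace Run7.h108.GL

open Pool.Agent.Run7.h47 hiding Hyp good
open Pool.Agent.W788.MFP.Four Pool.Agent.W788.BK
open Pool.Agent.H4R2.LO (Zd)
open Pool.Agent.H695R3.AN (lf lf_inj lf_add lf_sub)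

variable {d L : ℕ} [NeZero L] [Law]

/-- the limit of the ladder in all large volumes -/
theorem tor_all (d : ℕ) (hd : 3 ≤ d) (κ : ℝ) (hκ0 : 0 < κ) (hκ1 : κ < 4 / 35) (a c0 : ℝ)
    (hc0 : 0 < c0) (hJ : ∀ E : ℝ, |E| ≤ a → c0 ≤ (mJ d E).re)
    (hS : ∀ E : ℝ, |E| ≤ a → 0 ≤ (mS d E).re) (M : ℝ) (hM : 0 ≤ M) (ε : ℝ) (hε : 0 < ε) :
    ∃ s : ℝ, 0 < s ∧ s ≤ 1 / 5 ∧ ∀ (σ E t : ℝ) (L : ℕ) [NeZero L], 0 < |σ| → |σ| ≤ s → |E| ≤ a →
      |σ| ^ (2 + κ) ≤ t → t ≤ s * σ ^ 2 → (|σ| ^ 12)⁻¹ ≤ (L : ℝ) →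
      ∀ j : Fin d → ℤ, (∀ i, |ang L j i| ≤ M * (|σ| * Real.sqrt t)) →
      ‖(t : ℂ) * ff σ E t (mom d L j) - ((Dl (mJ d E).re (mS d E).re
        ((∑ i, ang L j i ^ 2) / (σ ^ 2 * t)) : ℝ) : ℂ)‖ ≤ ε := by
  have hd1 : 1 ≤ d := by omega
  obtain ⟨e', he'⟩ : ∃ e', e' = ε / 2 := ⟨_, rfl⟩
  have he0 : 0 < e' := by rw [he']; positivity
  obtain ⟨s1, hs1, hs1', H⟩ := z_lim d hd κ hκ0 hκ1 a c0 hc0 hJ hS M hM (e' ^ 2) (by positivity)
  obtain ⟨s2, hs2, hs2'⟩ : ∃ s2 : ℝ, 0 < s2 ∧ s2 * (17 * d + 13 * d * (M + 1) + 17 * d / e') ≤ 1 := by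
    have h0 : 0 < 17 * d + 13 * d * (M + 1) + 17 * d / e' := by positivity
    exact ⟨(17 * d + 13 * d * (M + 1) + 17 * d / e')⁻¹, by positivity, by
      rw [inv_mul_cancel₀ h0.ne']⟩
  refine ⟨min s1 s2, by positivity, (min_le_left _ _).trans hs1', ?_⟩
  intro σ E t L _ hσ hσs hE htl htu hL j hj
  obtain ⟨x, hx⟩ : ∃ x, x = |σ| := ⟨_, rfl⟩
  have hσx : σ ^ 2 = x ^ 2 := by rw [hx, sq_abs]
  rw [← hx] at hσ hσs htl hL hj
  have hx1 : x ≤ s1 := hσs.trans (min_le_left _ _)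
  have hx2 : x ≤ s2 := hσs.trans (min_le_right _ _)
  have hx15 : x ≤ 1 / 5 := hx1.trans hs1'
  have ht : 0 < t := (Real.rpow_pos_of_pos hσ _).trans_le htl
  have hσ0 : 0 < σ ^ 2 := by rw [hσx]; positivity
  have htu1 : t ≤ s1 * σ ^ 2 :=
    htu.trans (mul_le_mul_of_nonneg_right (min_le_left _ _) hσ0.le)
  have ht1 : t ≤ 1 := by
    refine htu1.trans ?_
    have h1 : σ ^ 2 ≤ 1 := by
      rw [hσx]
      exact pow_le_one₀ hσ.le (by linarith)
    have h2 : s1 ≤ 1 := hs1'.trans (by norm_num)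
    nlinarith
  have hxK : x * (17 * d + 13 * d * (M + 1) + 17 * d / e') ≤ 1 :=
    (mul_le_mul_of_nonneg_right hx2 (by positivity)).trans hs2'
  have hA : x * (17 * d + 13 * d * (M + 1)) ≤ 1 := by
    refine le_trans (mul_le_mul_of_nonneg_left ?_ hσ.le) hxK
    have : 0 ≤ 17 * d / e' := by positivity
    linarith
  have hB : 17 * d * x ≤ e' := by
    have h1 : x * (17 * d / e') ≤ 1 := by
      refine le_trans (mul_le_mul_of_nonneg_left ?_ hσ.le) hxK
      have : 0 ≤ 17 * d + 13 * d * (M + 1) := by positivity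
      linarith
    have h2 : x * (17 * d / e') = 17 * d * x / e' := by ring
    rw [h2, div_le_one he0] at h1
    exact h1
  obtain ⟨_, _, _, c4, _, _⟩ := scales (d := d) (κ := κ) (M := M) hκ1 hσ hx15 hA hM htl ht1
  -- the Green functions
  have hex : ∀ ω : Zd d → ℝ, ∃ u, IsGreen d σ ((E : ℂ) + (t : ℂ) * Complex.I) ω u := fun ω =>
    green_exists ht ω
  choose G hG using hex
  have hst : 0 < x * Real.sqrt t := by
    have := Real.sqrt_pos.2 ht
    positivity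
  obtain ⟨P, hP⟩ : ∃ P : Fin d → ℝ, P = fun i => ang L j i / (x * Real.sqrt t) := ⟨_, rfl⟩
  have hPM : ∀ i, |P i| ≤ M := by
    intro i
    rw [hP]
    simp only
    rw [abs_div, abs_of_pos hst, div_le_iff₀ hst]
    exact hj i
  obtain ⟨_, hint, hle⟩ := H σ E t (by rw [← hx]; exact hσ) (by rw [← hx]; exact hx1) hE
    (by rw [← hx]; exact htl) htu1 P hPM G hG
  have hθ : (fun i => |σ| * Real.sqrt t * P i) = ang L j := by
    funext i
    rw [hP, ← hx]
    simp only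
    field_simp
  rw [hθ] at hint hle
  have hq : ∑ i, P i ^ 2 = (∑ i, ang L j i ^ 2) / (σ ^ 2 * t) := by
    rw [Finset.sum_div]
    refine Finset.sum_congr rfl fun i _ => ?_
    rw [hP]
    simp only
    rw [div_pow, mul_pow, Real.sq_sqrt ht.le, hσx]
  rw [hq] at hint hle
  obtain ⟨D, hD⟩ : ∃ D, D = Dl (mJ d E).re (mS d E).re ((∑ i, ang L j i ^ 2) / (σ ^ 2 * t)) :=
    ⟨_, rfl⟩
  rw [← hD] at hint hle
  rw [← hD]
  have hpt : ∀ ω : Zd d → ℝ, ‖(t : ℂ) * Fm σ E t (mom d L j) (fun y => ω (lf y)) 0 0 - (D : ℂ)‖ ≤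
      3 * e' / 2 + 1 / (2 * e') * ‖(t : ℂ) * Qz (ang L j) (G ω) - (D : ℂ)‖ ^ 2 := by
    intro ω
    have h6 : x ^ 6 ≤ 1 / 10 := by
      calc x ^ 6 ≤ (1 / 5) ^ 6 := pow_le_pow_left₀ hσ.le hx15 6
        _ ≤ 1 / 10 := by norm_num
    have h7 : 10 ≤ (x ^ 6)⁻¹ := by
      rw [le_inv_comm₀ (by norm_num) (by positivity)]
      linarith
    have h8 : (x ^ 12)⁻¹ = (x ^ 6)⁻¹ ^ 2 := by
      rw [← inv_pow, ← inv_pow, ← pow_mul]
    have h1 := trans (L := L) hd1 ht (ℓ := (x ^ 6)⁻¹) (by positivity) (by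
      refine lt_of_lt_of_le ?_ hL
      rw [h8]
      nlinarith) (hG ω) (ang L j) j 0 (fun i => by rw [sub_self, abs_zero])
    have h2 : ‖(t : ℂ) * (Qz (ang L j) (G ω) -
        Fm σ E t (mom d L j) (fun y => ω (lf y)) 0 0)‖ ≤ e' := by
      rw [norm_mul, Complex.norm_real, Real.norm_of_nonneg ht.le]
      refine (mul_le_mul_of_nonneg_left h1 ht.le).trans (le_trans ?_ (c4.trans hB))
      apply mul_le_mul_of_nonneg_left _ ht.le
      have : 0 ≤ 2 * d * (Real.pi * x ^ 12) * (x ^ 6)⁻¹ / t ^ 2 := by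
        have := Real.pi_pos
        positivity
      rw [mul_zero, zero_mul, zero_div]
      linarith
    obtain ⟨X, hX⟩ : ∃ X, X = ‖(t : ℂ) * Qz (ang L j) (G ω) - (D : ℂ)‖ := ⟨_, rfl⟩
    have h3 : ‖(t : ℂ) * Fm σ E t (mom d L j) (fun y => ω (lf y)) 0 0 - (D : ℂ)‖ ≤ e' + X := by
      have e1 : (t : ℂ) * Fm σ E t (mom d L j) (fun y => ω (lf y)) 0 0 - (D : ℂ) =
          -((t : ℂ) * (Qz (ang L j) (G ω) - Fm σ E t (mom d L j) (fun y => ω (lf y)) 0 0)) +
          ((t : ℂ) * Qz (ang L j) (G ω) - (D : ℂ)) := by ring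
      rw [e1, hX]
      refine (norm_add_le _ _).trans ?_
      rw [norm_neg]
      linarith
    rw [← hX]
    have h4 : X ≤ e' / 2 + 1 / (2 * e') * X ^ 2 := by
      have e1 : e' / 2 + 1 / (2 * e') * X ^ 2 - X = 1 / (2 * e') * (X - e') ^ 2 := by
        field_simp
        ring
      have e2 : 0 ≤ 1 / (2 * e') * (X - e') ^ 2 := by positivity
      linarith
    linarith
  have hff : (t : ℂ) * ff σ E t (mom d L j) - (D : ℂ) =
      ∫ V, ((t : ℂ) * Fm σ E t (mom d L j) V 0 0 - (D : ℂ)) ∂(Γ (T d L)) := by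
    obtain ⟨c1, C, hC⟩ := Pool.Agent.Run7.h47.F_BC (σ := σ) (E := E) ht (mom d L j) 0 0
    rw [integral_sub ((Integrable.of_bound c1.aestronglyMeasurable C
      (Filter.Eventually.of_forall hC)).const_mul _) (integrable_const _), integral_const_mul,
      integral_const, probReal_univ, one_smul]
    rfl
  rw [hff]
  refine (norm_integral_le_integral_norm _).trans ?_
  have hcont : Continuous fun V : T d L → ℝ =>
      ‖(t : ℂ) * Fm σ E t (mom d L j) V 0 0 - (D : ℂ)‖ :=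
    ((continuous_const.mul (F_BC ht _ 0 0).1).sub continuous_const).norm
  rw [← law_tor hcont.measurable]
  have hRi : Integrable (fun ω => 3 * e' / 2 + 1 / (2 * e') *
      ‖(t : ℂ) * Qz (ang L j) (G ω) - (D : ℂ)‖ ^ 2)
      (Measure.infinitePi fun _ : Zd d => Law.μ) :=
    (integrable_const _).add (hint.const_mul _)
  have hLi : Integrable (fun ω : Zd d → ℝ =>
      ‖(t : ℂ) * Fm σ E t (mom d L j) (fun y => ω (lf y)) 0 0 - (D : ℂ)‖)
      (Measure.infinitePi fun _ : Zd d => Law.μ) := by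
    refine Integrable.mono' hRi ?_ (Filter.Eventually.of_forall fun ω => ?_)
    · exact (hcont.measurable.comp (g := fun V : T d L → ℝ =>
        ‖(t : ℂ) * Fm σ E t (mom d L j) V 0 0 - (D : ℂ)‖)
        (f := fun (ω : Zd d → ℝ) (y : T d L) => ω (lf y))
        (measurable_pi_iff.2 fun y => measurable_pi_apply _)).aestronglyMeasurable
    · rw [norm_norm]
      exact hpt ω
  refine (integral_mono hLi hRi hpt).trans ?_
  rw [integral_add (integrable_const _) (hint.const_mul _), integral_const,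
    integral_const_mul, probReal_univ, one_smul]
  have h9 : 1 / (2 * e') * ∫ ω, ‖(t : ℂ) * Qz (ang L j) (G ω) - (D : ℂ)‖ ^ 2
      ∂(Measure.infinitePi fun _ : Zd d => Law.μ) ≤ 1 / (2 * e') * e' ^ 2 := by
    gcongr
  have h10 : 1 / (2 * e') * e' ^ 2 = e' / 2 := by
    field_simp
  rw [h10] at h9
  rw [he'] at h9 ⊢
  linarith

end Run7.h108.GL
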