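import Pool.Agent.Run7.h108.GL.Zm
import Pool.Agent.Run7.h47.Fin1

/-! Quantum diffusion, assembled. -/

set_option autoImplicit false
set_option linter.unusedSectionVars false

open scoped BigOperators Topology
open MeasureTheory ProbabilityTheory Filter

namespace Run7.h108.GL

open Pool.Agent.Run7.h47 hiding Hyp good
open Pool.Agent.H4R2.LO (Zd)

variable [Law]

/-- **quantum diffusion** -/
theorem qdiff (d : ℕ) (hd : 3 ≤ d) (a : ℝ) (ha : a < 2 * d) (κ : ℝ) (hκ0 : 0 < κ)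
    (hκ : κ < 4 / 35) :
    ∃ ρ w : ℝ → ℝ,
      (∀ E : ℝ, |E| ≤ a → 0 < ρ E ∧ 0 < w E ∧
        Tendsto (fun η : ℝ => Real.pi⁻¹ * ((2 * Real.pi) ^ d)⁻¹ *
          ∫ k in Set.Icc (0 : Fin d → ℝ) (fun _ => 2 * Real.pi),
            η / ((∑ i, 2 * Real.cos (k i) - E) ^ 2 + η ^ 2)) (𝓝[>] 0) (𝓝 (ρ E)) ∧
        Tendsto (fun η : ℝ => Real.pi⁻¹ * ((2 * Real.pi) ^ d)⁻¹ *
          ∫ k in Set.Icc (0 : Fin d → ℝ) (fun _ => 2 * Real.pi),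
            ((∑ i, (2 * Real.sin (k i)) ^ 2) / d) *
            (η / ((∑ i, 2 * Real.cos (k i) - E) ^ 2 + η ^ 2))) (𝓝[>] 0) (𝓝 (w E))) ∧
      ∀ M ε : ℝ, 0 ≤ M → 0 < ε → ∃ s : ℝ, 0 < s ∧ ∀ σ E t : ℝ, 0 < |σ| → |σ| ≤ s → |E| ≤ a →
        |σ| ^ (2 + κ) ≤ t → t ≤ s * σ ^ 2 → ∀ P : Fin d → ℝ, (∀ i, |P i| ≤ M) →
        ∀ G : (Zd d → ℝ) → Zd d → ℂ,
        (∀ ω, IsGreen d σ ((E : ℂ) + (t : ℂ) * Complex.I) ω (G ω)) →
        Integrable (fun ω => ‖(t : ℂ) * (∑' x : Zd d,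
          Complex.exp (Complex.I * ((∑ i, |σ| * Real.sqrt t * P i * x i : ℝ) : ℂ)) *
            ((‖G ω x‖ ^ 2 : ℝ) : ℂ)) -
          ((Real.pi * ρ E / (1 + (∑ i, P i ^ 2) * (w E / (4 * Real.pi * ρ E ^ 2))) : ℝ) : ℂ)‖ ^ 2)
          (Measure.infinitePi fun _ : Zd d => Law.μ) ∧
        ∫ ω, ‖(t : ℂ) * (∑' x : Zd d,
          Complex.exp (Complex.I * ((∑ i, |σ| * Real.sqrt t * P i * x i : ℝ) : ℂ)) *
            ((‖G ω x‖ ^ 2 : ℝ) : ℂ)) -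
          ((Real.pi * ρ E / (1 + (∑ i, P i ^ 2) * (w E / (4 * Real.pi * ρ E ^ 2))) : ℝ) : ℂ)‖ ^ 2
          ∂(Measure.infinitePi fun _ : Zd d => Law.μ) ≤ ε := by
  have hpi := Real.pi_pos
  obtain ⟨c0, hc0, hJ⟩ := mJ_unif hd a ha
  have hS : ∀ E : ℝ, |E| ≤ a → 0 < (mS d E).re := fun E hE => mS_pos hd E (hE.trans_lt ha)
  refine ⟨fun E => (mJ d E).re / Real.pi, fun E => (mS d E).re / Real.pi, ?_, ?_⟩
  · intro E hE
    exact ⟨div_pos (hc0.trans_le (hJ E hE)) hpi, div_pos (hS E hE) hpi, rho_lim hd E, w_lim hd E⟩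
  · intro M ε hM hε
    obtain ⟨s, hs, _, H⟩ := z_lim d hd κ hκ0 hκ a c0 hc0 hJ (fun E hE => (hS E hE).le) M hM ε hε
    refine ⟨s, hs, ?_⟩
    intro σ E t hσ hσs hE htl htu P hP G hG
    obtain ⟨_, h1, h2⟩ := H σ E t hσ hσs hE htl htu P hP G hG
    have hJ0 : 0 < (mJ d E).re := hc0.trans_le (hJ E hE)
    have hS0 := hS E hE
    have e1 : Real.pi * ((mJ d E).re / Real.pi) / (1 + (∑ i, P i ^ 2) *
        ((mS d E).re / Real.pi / (4 * Real.pi * ((mJ d E).re / Real.pi) ^ 2))) =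
        Dl (mJ d E).re (mS d E).re (∑ i, P i ^ 2) := by
      have hq : 0 ≤ ∑ i, P i ^ 2 := by positivity
      unfold Dl
      have h3 : 1 / (mJ d E).re + (∑ i, P i ^ 2) * (mS d E).re / (4 * (mJ d E).re ^ 3) =
          (1 + (∑ i, P i ^ 2) * ((mS d E).re / Real.pi /
            (4 * Real.pi * ((mJ d E).re / Real.pi) ^ 2))) / (mJ d E).re := by
        field_simp
      rw [h3, one_div_div]
      congr 1
      field_simp
    rw [e1]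
    exact ⟨h1, h2⟩

end Run7.h108.GL
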