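import Pool.Agent.Run7.h108.GL.Contr
import Pool.Agent.W788.MFP.Form

/-! The law of the disorder, and the form bound for the random potential. -/

set_option autoImplicit false
set_option linter.unusedSectionVars false

open scoped BigOperators Matrix
open MeasureTheory ProbabilityTheory

namespace Run7.h108.GL

/-- a bounded law with mean zero and variance one -/
class Law where
  /-- the law -/
  μ : Measure ℝ
  /-- it is a probability measure -/
  pr : IsProbabilityMeasure μ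
  /-- the bound -/
  b : ℝ
  hb : 0 < b
  bd : ∀ᵐ s ∂μ, |s| ≤ b
  mean : ∫ s, s ∂μ = 0
  var : ∫ s, s ^ 2 ∂μ = 1

instance [Law] : IsProbabilityMeasure Law.μ := Law.pr

/-- the law of the field -/
noncomputable abbrev Γ (κ : Type) [Fintype κ] [Law] : Measure (κ → ℝ) :=
  Measure.pi fun _ : κ => Law.μ

section mat

open scoped Matrix.Norms.L2Operator
open Pool.Agent.W788.MFP.Nck

variable {ι : Type} [Fintype ι] [DecidableEq ι]

theorem orth_norm (U : Matrix ι ι ℝ) (h : Uᵀ * U = 1) : ‖U‖ ≤ 1 := by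
  have h1 := Matrix.l2_opNorm_conjTranspose_mul_self U
  rw [Matrix.conjTranspose_eq_transpose_of_trivial, h] at h1
  have h2 : ‖(1 : Matrix ι ι ℝ)‖ ≤ 1 := by
    rw [← Matrix.diagonal_one, Matrix.l2_opNorm_diagonal]
    refine (pi_norm_le_iff_of_nonneg zero_le_one).2 fun i => ?_
    simp
  have h3 := norm_nonneg U
  nlinarith

theorem norm_trace (X : Matrix ι ι ℝ) (hX : X.IsHermitian) (p : ℕ) (hp : p ≠ 0) :
    ‖X‖ ^ (2 * p) ≤ (X ^ (2 * p)).trace := by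
  obtain ⟨U, l, h1, h2, rfl⟩ := spec X hX
  rw [pow_spec U l h2 h1]
  have h3 : (U * Matrix.diagonal (fun i => l i ^ (2 * p)) * Uᵀ).trace = ∑ i, l i ^ (2 * p) := by
    rw [Matrix.trace_mul_comm, ← Matrix.mul_assoc, h2, Matrix.one_mul, Matrix.trace_diagonal]
  rw [h3]
  have hU := orth_norm U h2
  have hU' : ‖Uᵀ‖ ≤ 1 := by
    apply orth_norm
    rw [Matrix.transpose_transpose]
    exact h1
  have hn : ‖U * Matrix.diagonal l * Uᵀ‖ ≤ ‖l‖ := by
    refine (Matrix.l2_opNorm_mul _ _).trans ?_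
    have h4 := Matrix.l2_opNorm_mul U (Matrix.diagonal l)
    rw [Matrix.l2_opNorm_diagonal] at h4
    calc ‖U * Matrix.diagonal l‖ * ‖Uᵀ‖ ≤ (‖U‖ * ‖l‖) * 1 :=
          mul_le_mul h4 hU' (norm_nonneg _) (by positivity)
      _ ≤ (1 * ‖l‖) * 1 := by gcongr
      _ = ‖l‖ := by ring
  refine (pow_le_pow_left₀ (norm_nonneg _) hn _).trans ?_
  rcases isEmpty_or_nonempty ι with hE | hE
  · have h5 : ‖l‖ ≤ 0 := (pi_norm_le_iff_of_nonneg le_rfl).2 fun i => hE.elim i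
    have h6 : ‖l‖ = 0 := le_antisymm h5 (norm_nonneg _)
    rw [h6, zero_pow (by omega)]
    simp
  · obtain ⟨i, _, hi⟩ := Finset.exists_max_image Finset.univ (fun i => |l i|)
      Finset.univ_nonempty
    have h5 : ‖l‖ ≤ |l i| := (pi_norm_le_iff_of_nonneg (abs_nonneg _)).2 fun j =>
      hi j (Finset.mem_univ j)
    calc ‖l‖ ^ (2 * p) ≤ |l i| ^ (2 * p) := pow_le_pow_left₀ (norm_nonneg _) h5 _
      _ = l i ^ (2 * p) := Even.pow_abs (even_two_mul p) _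
      _ ≤ ∑ i, l i ^ (2 * p) :=
        Finset.single_le_sum (f := fun i => l i ^ (2 * p))
          (fun j _ => by rw [pow_mul]; positivity) (Finset.mem_univ i)

theorem form_norm (X : Matrix ι ι ℝ) (v : ι → ℝ) :
    |v ⬝ᵥ (X *ᵥ v)| ≤ ‖X‖ * ∑ i, v i ^ 2 := by
  have h1 := Matrix.l2_opNorm_mulVec X (WithLp.toLp 2 v)
  have h2 : |v ⬝ᵥ (X *ᵥ v)| ^ 2 ≤ (∑ i, v i ^ 2) * ∑ i, (X *ᵥ v) i ^ 2 := by
    rw [sq_abs]
    exact Finset.sum_mul_sq_le_sq_mul_sq _ _ _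
  have h3 : ‖(WithLp.toLp 2 v : EuclideanSpace ℝ ι)‖ ^ 2 = ∑ i, v i ^ 2 := by
    rw [EuclideanSpace.norm_sq_eq]
    simp
  have h4 : ∑ i, (X *ᵥ v) i ^ 2 ≤ ‖X‖ ^ 2 * ∑ i, v i ^ 2 := by
    have h5 := pow_le_pow_left₀ (norm_nonneg _) h1 2
    rw [mul_pow, h3, EuclideanSpace.norm_sq_eq] at h5
    simpa using h5
  have h0 : 0 ≤ ∑ i, v i ^ 2 := Finset.sum_nonneg fun _ _ => sq_nonneg _
  refine abs_le_of_sq_le_sq' ?_ (by positivity) |>.2
  calc |v ⬝ᵥ (X *ᵥ v)| ^ 2 ≤ (∑ i, v i ^ 2) * (‖X‖ ^ 2 * ∑ i, v i ^ 2) :=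
        h2.trans (mul_le_mul_of_nonneg_left h4 h0)
    _ = (‖X‖ * ∑ i, v i ^ 2) ^ 2 := by ring

/-- the tail bound -/
theorem tail [Law] {κ : Type} [Fintype κ] [DecidableEq κ] (w : κ → ι → ℝ) (a b t : ℝ)
    (ha0 : 0 ≤ a) (hb0 : 0 ≤ b) (ht : 0 < t) (ha : ∀ x, ∑ i, w x i ^ 2 ≤ a)
    (hb : ∀ f : ι → ℝ, ∑ x, (∑ i, w x i * f i) ^ 2 ≤ b * ∑ i, f i ^ 2) (p : ℕ) (hp : p ≠ 0) :
    ∃ G : Set (κ → ℝ), MeasurableSet G ∧
      (Γ κ).real Gᶜ ≤ ((Law.b / m1) ^ 2 * (2 * p * a * b) / t ^ 2) ^ p * Fintype.card ι ∧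
      ∀ ξ ∈ G, ∀ f : ι → ℝ, |∑ x, ξ x * (∑ i, w x i * f i) ^ 2| ≤ t * ∑ i, f i ^ 2 := by
  obtain ⟨g1, g2⟩ := moment w a b ha0 hb0 ha hb p
  have hcs : CompleteSpace (Matrix ι ι ℝ) := FiniteDimensional.complete ℝ _
  have hli : ∀ ξ : κ → ℝ, li (fun x => Matrix.vecMulVec (w x) (w x)) ξ = XM w ξ := by
    intro ξ
    rw [XM_eq]
    rfl
  have hcmp := compare (κ := κ) (μ := Law.μ) Law.hb Law.bd Law.mean
    (fun x => Matrix.vecMulVec (w x) (w x)) (2 * p)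
  simp only [hli] at hcmp
  have hcont : Continuous fun ξ : κ → ℝ => ‖XM w ξ‖ := by
    have h1 := (li_cont (fun x : κ => Matrix.vecMulVec (w x) (w x))).norm
    simpa only [hli] using h1
  have hint : Integrable (fun ξ : κ → ℝ => ‖XM w ξ‖ ^ (2 * p)) (Γ κ) := by
    refine Integrable.of_bound (C := (∑ x, Law.b * ‖Matrix.vecMulVec (w x) (w x)‖) ^ (2 * p))
      (hcont.pow _).aestronglyMeasurable ?_
    filter_upwards [ae_bd (κ := κ) (μ := Law.μ) Law.bd] with V hV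
    rw [Real.norm_of_nonneg (by positivity), ← hli]
    refine pow_le_pow_left₀ (norm_nonneg _) ((li_bd _ _).trans ?_) _
    exact Finset.sum_le_sum fun x _ => mul_le_mul_of_nonneg_right (hV x) (norm_nonneg _)
  have hE : ∫ ξ, ‖XM w ξ‖ ^ (2 * p) ∂(Γ κ) ≤
      ((Law.b / m1) ^ 2 * (2 * p * a * b)) ^ p * Fintype.card ι := by
    refine hcmp.trans ?_
    have h1 : ∫ g, ‖XM w g‖ ^ (2 * p) ∂(Pool.Agent.W788.MFP.Gm.Γ κ) ≤
        (2 * p * a * b) ^ p * Fintype.card ι := by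
      refine le_trans (integral_mono_of_nonneg
        (Filter.Eventually.of_forall fun _ => by positivity) g1
        (Filter.Eventually.of_forall fun g => norm_trace _ (XM_herm w g) p hp)) g2
    have h2 : (Law.b / m1) ^ (2 * p) = ((Law.b / m1) ^ 2) ^ p := by rw [← pow_mul]
    rw [h2, mul_pow, mul_assoc]
    exact mul_le_mul_of_nonneg_left h1 (by positivity)
  refine ⟨{ξ | ‖XM w ξ‖ ≤ t}, measurableSet_le hcont.measurable measurable_const, ?_, ?_⟩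
  · have h3 := mul_meas_ge_le_integral_of_nonneg
      (Filter.Eventually.of_forall fun ξ : κ → ℝ => by positivity) hint (t ^ (2 * p))
    have h4 : (Γ κ).real {ξ | ‖XM w ξ‖ ≤ t}ᶜ ≤
        (Γ κ).real {ξ | t ^ (2 * p) ≤ ‖XM w ξ‖ ^ (2 * p)} := by
      refine measureReal_mono ?_ (measure_ne_top _ _)
      intro ξ hξ
      have h6 : ¬ ‖XM w ξ‖ ≤ t := hξ
      exact pow_le_pow_left₀ ht.le (not_le.1 h6).le _
    have h5 : 0 < t ^ (2 * p) := by positivity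
    refine h4.trans ?_
    rw [div_pow, ← pow_mul, div_mul_eq_mul_div, le_div_iff₀ h5, mul_comm]
    exact h3.trans hE
  · intro ξ hξ f
    have h3 := form_norm (XM w ξ) f
    have h4 : f ⬝ᵥ (XM w ξ *ᵥ f) = ∑ x, ξ x * (∑ i, w x i * f i) ^ 2 := by
      rw [XM_eq, Matrix.sum_mulVec, dotProduct_sum]
      refine Finset.sum_congr rfl fun x _ => ?_
      rw [Matrix.smul_mulVec, Matrix.vecMulVec_mulVec]
      have e1 : w x ⬝ᵥ f = ∑ i, w x i * f i := rfl
      have e2 : f ⬝ᵥ w x = ∑ i, w x i * f i := by rw [dotProduct_comm]; rfl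
      simp only [dotProduct_smul, MulOpposite.smul_eq_mul_unop, MulOpposite.unop_op, smul_eq_mul,
        e1, e2]
      ring
    rw [h4] at h3
    exact h3.trans (mul_le_mul_of_nonneg_right hξ (Finset.sum_nonneg fun _ _ => sq_nonneg _))

end mat

section form

open Pool.Agent.W788.MFP.Four Pool.Agent.W788.MFP.Dos Pool.Agent.W788.MFP.Form

variable {d L : ℕ} [NeZero L]

/-- the form bound for one energy -/
theorem form1 [Law] (hd : 3 ≤ d) (E δ : ℝ) (hδ : 1 / (L : ℝ) ≤ δ) (hδ1 : δ ≤ 1 / 2) (t : ℝ)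
    (ht : 0 < t) (p : ℕ) (hp : p ≠ 0) :
    ∃ G : Set (T d L → ℝ), MeasurableSet G ∧
      (Γ (T d L)).real Gᶜ ≤
        ((Law.b / m1) ^ 2 * (2 * p * gg δ * δ⁻¹) / t ^ 2) ^ p * NN d L ∧
      ∀ ξ ∈ G, ∀ v : T d L → ℝ, |∑ x, ξ x * v x ^ 2| ≤ t * q (J E δ) v := by
  have hL : (0 : ℝ) < L := by exact_mod_cast Nat.pos_of_ne_zero (NeZero.ne L)
  have hδ0 : 0 < δ := lt_of_lt_of_le (by positivity) hδ
  set ω : T d L → ℝ := fun k => (Real.sqrt (J E δ k))⁻¹ with hω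
  have hωe : ∀ k, ω (-k) = ω k := fun k => by simp only [hω, J_neg]
  have hω2 : ∀ k, ω k ^ 2 = (J E δ k)⁻¹ := fun k => by
    simp only [hω, inv_pow]
    rw [Real.sq_sqrt (J_pos E δ hδ0 k).le]
  set r : T d L → ℝ := fun k => Real.sqrt (J E δ k) with hr
  have hre : ∀ k, r (-k) = r k := fun k => by simp only [hr, J_neg]
  have hr2 : ∀ k, r k ^ 2 = J E δ k := fun k => Real.sq_sqrt (J_pos E δ hδ0 k).le
  have hωr : (fun k => ω k * r k) = fun _ => 1 := by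
    funext k
    simp only [hω, hr]
    exact inv_mul_cancel₀ (Real.sqrt_pos.2 (J_pos E δ hδ0 k)).ne'
  set w : T d L → T d L → ℝ := fun x y => K ω (x - y) with hw
  obtain ⟨G, hG, hP, hb⟩ := tail w (gg δ) δ⁻¹ t (gg_pos δ hδ0 hδ1).le
    (inv_nonneg.2 hδ0.le) ht (fun x => by
      rw [K_sq ω hωe x]
      simp only [hω2]
      exact green d hd E δ hδ hδ1) (fun f => by
      have h1 : ∑ x, (∑ y, w x y * f y) ^ 2 = ∑ x, Op ω f x * Op ω f x :=
        Finset.sum_congr rfl fun x _ => by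
          rw [sq]
          rfl
      rw [h1, sum_Op ω ω f hωe hωe, sum_sq, ← q_const]
      apply q_mono
      intro k
      rw [← sq, hω2, mul_one]
      exact inv_anti₀ hδ0 (J_ge E δ hδ0 k)) p hp
  refine ⟨G, hG, ?_, fun ξ hξ v => ?_⟩
  · rw [card_T] at hP
    exact hP
  · have h1 := hb ξ hξ (Op r v)
    have h2 : ∀ x, ∑ y, w x y * Op r v y = v x := by
      intro x
      have h3 := Op_Op ω r v hωe hre
      rw [hωr, Op_one] at h3
      exact congrFun h3 x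
    simp only [h2] at h1
    rw [sum_sq, q_Op _ r v hre] at h1
    simp only [one_mul, hr2] at h1
    exact h1

end form

end Run7.h108.GL
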