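import Pool.Agent.Run7.h108.GL.Apr
import Pool.Agent.Run7.h47.Lim

/-! The limit of the ladder on the torus. -/

set_option autoImplicit false
set_option linter.unusedSectionVars false

open scoped BigOperators Matrix
open MeasureTheory

namespace Run7.h108.GL

open Pool.Agent.Run7.h47 hiding Hyp good
open Pool.Agent.W788.MFP.Four Pool.Agent.W788.BK
open Pool.Agent.W788.MFP.Form hiding form1
open Pool.Agent.W788.MFP.Dos

variable {d L : ℕ} [NeZero L] {σ E t : ℝ} [Law]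

/-- the ladder identity in normalized form -/
theorem tf_eq (ht : 0 < t) (hσ : 0 < σ ^ 2) (p : T d L)
    (hB : (1 - σ ^ 2 * kap σ E t p) / ((t / σ ^ 2 : ℝ) : ℂ) ≠ 0) :
    t * ff σ E t p = (σ ^ 2 * kap σ E t p + σ ^ 4 * (eA σ E t p + eB σ E t p)) /
      ((1 - σ ^ 2 * kap σ E t p) / ((t / σ ^ 2 : ℝ) : ℂ)) := by
  have h := teq (σ := σ) (E := E) ht p
  have hσ' : (σ : ℂ) ^ 2 ≠ 0 := by exact_mod_cast hσ.ne'
  have ht' : (t : ℂ) ≠ 0 := by exact_mod_cast ht.ne'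
  rw [eq_div_iff hB]
  push_cast
  field_simp
  linear_combination ((σ : ℂ) ^ 2) * h

/-- the error terms -/
theorem err_le (ht : 0 < t) (hσ : 0 < σ ^ 2) (p : T d L) {ε' : ℝ} (hε' : 0 ≤ ε')
    (hmf : (mf d L σ E t).im ≤ C0) (hX0 : 0 ≤ (mm d L σ E t).im)
    (hV1 : V1 d L σ E t ≤ ε' * (t / σ ^ 2) ^ 3)
    (hV2 : t ^ 2 * V2 σ E t p ≤ ε' * (t / σ ^ 2) ^ 3) :
    ‖(σ : ℂ) ^ 4 * (eA σ E t p + eB σ E t p)‖ ≤ 2 * Real.sqrt (C0 * ε') := by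
  have hC0 := C0_ge
  have hζ0 := ze_pos (d := d) (L := L) (σ := σ) (E := E) ht
  have hmf0 : 0 ≤ (mf d L σ E t).im := GG_im_nonneg hζ0
  have h1 : g2 d L σ E t * (mm d L σ E t).im ≤ C0 / σ ^ 2 := by
    unfold g2
    have h2 : σ ^ 2 * (mm d L σ E t).im ≤ (ze d L σ E t).im := by
      rw [ze_im]
      linarith
    rw [div_mul_eq_mul_div, div_le_div_iff₀ hζ0 hσ]
    calc (mf d L σ E t).im * (mm d L σ E t).im * σ ^ 2 =
        (mf d L σ E t).im * (σ ^ 2 * (mm d L σ E t).im) := by ring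
      _ ≤ C0 * (ze d L σ E t).im := mul_le_mul hmf h2 (by positivity) (by linarith)
  have h5 : 0 ≤ g2 d L σ E t * (mm d L σ E t).im := mul_nonneg (g2_nonneg ht) hX0
  have hσ0 : σ ≠ 0 := fun h => by rw [h] at hσ; norm_num at hσ
  have hA : (σ ^ 4 * ‖eA σ E t p‖) ^ 2 ≤ C0 * ε' := by
    have h2 := eA_le (σ := σ) (E := E) ht p
    calc (σ ^ 4 * ‖eA σ E t p‖) ^ 2 = σ ^ 8 * ‖eA σ E t p‖ ^ 2 := by ring
      _ ≤ σ ^ 8 * ((g2 d L σ E t * V1 d L σ E t) * ((t ^ 2)⁻¹ * ((mm d L σ E t).im / t))) := by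
          gcongr
      _ = σ ^ 8 / t ^ 3 * V1 d L σ E t * (g2 d L σ E t * (mm d L σ E t).im) := by
          field_simp
      _ ≤ σ ^ 8 / t ^ 3 * (ε' * (t / σ ^ 2) ^ 3) * (C0 / σ ^ 2) := by gcongr
      _ = C0 * ε' := by field_simp
  have hB : (σ ^ 4 * ‖eB σ E t p‖) ^ 2 ≤ C0 * ε' := by
    have h2 := eB_le (σ := σ) (E := E) ht p
    have hV0 := V2_nonneg (σ := σ) (E := E) (t := t) p
    calc (σ ^ 4 * ‖eB σ E t p‖) ^ 2 = σ ^ 8 * ‖eB σ E t p‖ ^ 2 := by ring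
      _ ≤ σ ^ 8 * ((g2 d L σ E t * V2 σ E t p) * ((mm d L σ E t).im / t)) := by
          gcongr
      _ = σ ^ 8 / t ^ 3 * (t ^ 2 * V2 σ E t p) * (g2 d L σ E t * (mm d L σ E t).im) := by
          field_simp
      _ ≤ σ ^ 8 / t ^ 3 * (ε' * (t / σ ^ 2) ^ 3) * (C0 / σ ^ 2) := by gcongr
      _ = C0 * ε' := by field_simp
  have hA' := Real.le_sqrt_of_sq_le hA
  have hB' := Real.le_sqrt_of_sq_le hB
  rw [norm_mul, norm_pow, Complex.norm_real, Real.norm_eq_abs, ← abs_pow,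
    abs_of_nonneg (by positivity)]
  calc σ ^ 4 * ‖eA σ E t p + eB σ E t p‖ ≤ σ ^ 4 * (‖eA σ E t p‖ + ‖eB σ E t p‖) := by
        gcongr
        exact norm_add_le _ _
    _ ≤ _ := by linarith

/-- the error of the ladder kernel -/
theorem kap_le (ht : 0 < t) (hσ : 0 < σ ^ 2) (p : T d L) {ε' c0 : ℝ} (hε' : 0 ≤ ε') (hc0 : 0 < c0)
    (hmf : (mf d L σ E t).im ≤ C0) (hX0 : 0 ≤ (mm d L σ E t).im)
    (hη : c0 / 2 * σ ^ 2 ≤ (ze d L σ E t).im)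
    (hV1 : V1 d L σ E t ≤ ε' * (t / σ ^ 2) ^ 3) :
    ‖(σ : ℂ) ^ 2 * (kap σ E t p - Kp (ze d L σ E t) p)‖ ≤
      2 * Real.sqrt (C0 * ε') / c0 * (t / σ ^ 2) := by
  have hC0 := C0_ge
  have hζ0 := ze_pos (d := d) (L := L) (σ := σ) (E := E) ht
  have hmf0 : 0 ≤ (mf d L σ E t).im := GG_im_nonneg hζ0
  have h1 : g2 d L σ E t * (mm d L σ E t).im ≤ C0 / σ ^ 2 := by
    unfold g2
    have h2 : σ ^ 2 * (mm d L σ E t).im ≤ (ze d L σ E t).im := by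
      rw [ze_im]
      linarith
    rw [div_mul_eq_mul_div, div_le_div_iff₀ hζ0 hσ]
    calc (mf d L σ E t).im * (mm d L σ E t).im * σ ^ 2 =
        (mf d L σ E t).im * (σ ^ 2 * (mm d L σ E t).im) := by ring
      _ ≤ C0 * (ze d L σ E t).im := mul_le_mul hmf h2 (by positivity) (by linarith)
  have h5 : 0 ≤ g2 d L σ E t * (mm d L σ E t).im := mul_nonneg (g2_nonneg ht) hX0
  have hσ0 : σ ≠ 0 := fun h => by rw [h] at hσ; norm_num at hσ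
  have hη' : ((ze d L σ E t).im)⁻¹ ≤ 2 / (c0 * σ ^ 2) := by
    rw [inv_eq_one_div, div_le_div_iff₀ hζ0 (by positivity)]
    linarith
  have h2 := kap_sub (σ := σ) (E := E) ht p
  have hs : (σ ^ 2 * ‖kap σ E t p - Kp (ze d L σ E t) p‖) ^ 2 ≤
      (2 * Real.sqrt (C0 * ε') / c0 * (t / σ ^ 2)) ^ 2 := by
    have h0 : 0 ≤ ((ze d L σ E t).im)⁻¹ := by positivity
    calc (σ ^ 2 * ‖kap σ E t p - Kp (ze d L σ E t) p‖) ^ 2 =
        σ ^ 4 * ‖kap σ E t p - Kp (ze d L σ E t) p‖ ^ 2 := by ring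
      _ ≤ σ ^ 4 * (σ ^ 4 * (g2 d L σ E t * V1 d L σ E t) *
          (t⁻¹ * ((ze d L σ E t).im)⁻¹ ^ 2 * (mm d L σ E t).im)) := by gcongr
      _ = σ ^ 8 / t * V1 d L σ E t * (g2 d L σ E t * (mm d L σ E t).im) *
          ((ze d L σ E t).im)⁻¹ ^ 2 := by
          rw [div_eq_mul_inv]
          ring
      _ ≤ σ ^ 8 / t * (ε' * (t / σ ^ 2) ^ 3) * (C0 / σ ^ 2) * (2 / (c0 * σ ^ 2)) ^ 2 := by
          gcongr
      _ = 4 * (C0 * ε') / c0 ^ 2 * (t / σ ^ 2) ^ 2 := by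
          field_simp
          norm_num
      _ = 4 * Real.sqrt (C0 * ε') ^ 2 / c0 ^ 2 * (t / σ ^ 2) ^ 2 := by
          rw [Real.sq_sqrt (by positivity)]
      _ = _ := by ring
  rw [norm_mul, norm_pow, Complex.norm_real, Real.norm_eq_abs, sq_abs]
  exact (abs_le_of_sq_le_sq' hs (by positivity)).2

end Run7.h108.GL
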