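import Pool.Agent.Run7.h108.GL.Cal

/-! Rank one formulas for one variable of the field. -/

set_option autoImplicit false
set_option linter.unusedSectionVars false

open scoped BigOperators Matrix ComplexConjugate
open MeasureTheory

namespace Run7.h108.GL

open Pool.Agent.Run7.h47
open Pool.Agent.W788.MFP.Four Pool.Agent.W788.BK

variable {d L : ℕ} [NeZero L] [Law] {σ E t : ℝ}

/-- the diagonal of the resolvent with one variable switched off -/
noncomputable def a0 (σ E t : ℝ) (x : T d L) (V : T d L → ℝ) : ℂ :=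
  R σ E t (Function.update V x 0) x x

/-- the factor `1 + σ V_x a0` -/
noncomputable def ww (σ E t : ℝ) (x : T d L) (V : T d L → ℝ) : ℂ :=
  1 + σ * V x * a0 σ E t x V

theorem r1 (ht : 0 < t) (V : T d L → ℝ) (x a b : T d L) :
    R σ E t (Function.update V x 0) a b = R σ E t V a b +
      σ * V x * (R σ E t (Function.update V x 0) a x * R σ E t V x b) := by
  rw [R_res ht V x 0 a b]
  push_cast
  ring

theorem r2 (ht : 0 < t) (V : T d L → ℝ) (x a b : T d L) :
    R σ E t (Function.update V x 0) a b = R σ E t V a b +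
      σ * V x * (R σ E t V a x * R σ E t (Function.update V x 0) x b) := by
  have h := r1 (σ := σ) (E := E) ht V x b a
  rw [R_symm σ E t _ b a, R_symm σ E t V b a] at h
  rw [h, R_symm σ E t _ b x, R_symm σ E t V x a]
  ring

theorem r3 (ht : 0 < t) (V : T d L → ℝ) (x b : T d L) :
    R σ E t (Function.update V x 0) x b = ww σ E t x V * R σ E t V x b := by
  rw [r1 ht V x x b]
  unfold ww a0
  ring

theorem r4 (ht : 0 < t) (V : T d L → ℝ) (x a : T d L) :
    R σ E t (Function.update V x 0) a x = ww σ E t x V * R σ E t V a x := by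
  rw [r2 ht V x a x]
  unfold ww a0
  ring

theorem a0_eq (ht : 0 < t) (V : T d L → ℝ) (x : T d L) :
    a0 σ E t x V = ww σ E t x V * R σ E t V x x := r3 ht V x x

theorem f1 (ht : 0 < t) (p : T d L) (V : T d L → ℝ) (x : T d L) :
    Fm σ E t p (Function.update V x 0) x x =
      ww σ E t x V * conj (ww σ E t x V) * Fm σ E t p V x x := by
  unfold Fm
  rw [Finset.mul_sum]
  refine Finset.sum_congr rfl fun w _ => ?_
  rw [r3 ht, map_mul]
  ring

theorem f2 (ht : 0 < t) (p : T d L) (V : T d L → ℝ) (x b : T d L) :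
    Fm σ E t p (Function.update V x 0) x b = ww σ E t x V * (Fm σ E t p V x b +
      σ * V x * conj (ww σ E t x V) * (conj (R σ E t V b x) * Fm σ E t p V x x)) := by
  unfold Fm
  rw [Finset.mul_sum, Finset.mul_sum, ← Finset.sum_add_distrib, Finset.mul_sum]
  refine Finset.sum_congr rfl fun w _ => ?_
  rw [r3 ht, r1 ht V x b w, r4 ht, map_add, map_mul, map_mul, map_mul, map_mul,
    Complex.conj_ofReal, Complex.conj_ofReal]
  ring

theorem f3 (p : T d L) (V : T d L → ℝ) (a b : T d L) :
    Fm σ E t p V a b = conj (Fm σ E t (-p) V b a) := F_swap p V a b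

/-- the difference of the diagonal of `F` -/
theorem f4 (ht : 0 < t) (p : T d L) (V : T d L → ℝ) (x : T d L) :
    Fm σ E t p V 0 0 - Fm σ E t p (Function.update V x 0) 0 0 =
      -(σ * V x * (ww σ E t x V * (R σ E t V 0 x * Fm σ E t p V x 0))) -
      σ * V x * (conj (ww σ E t x V) * (conj (R σ E t V 0 x) * (Fm σ E t p V 0 x +
        σ * V x * ww σ E t x V * (R σ E t V 0 x * Fm σ E t p V x x)))) := by
  have h1 : ∀ w, R σ E t (Function.update V x 0) 0 w = R σ E t V 0 w +
      σ * V x * (ww σ E t x V * (R σ E t V 0 x * R σ E t V x w)) := by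
    intro w
    rw [r1 ht V x 0 w, r4 ht]
    ring
  unfold Fm
  simp only [h1, map_add, map_mul, Complex.conj_ofReal]
  simp only [Finset.mul_sum]
  rw [← Finset.sum_add_distrib, Finset.mul_sum, Finset.mul_sum, Finset.mul_sum,
    ← Finset.sum_neg_distrib, ← Finset.sum_sub_distrib, ← Finset.sum_sub_distrib]
  refine Finset.sum_congr rfl fun w _ => ?_
  ring

/-- the first third order coefficient -/
noncomputable def rA (σ E t : ℝ) (x : T d L) (V : T d L → ℝ) : ℂ :=
  (V x : ℂ) ^ 3 * a0 σ E t x V ^ 2 -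
    R σ E t V x x * (2 * V x * a0 σ E t x V + σ * (V x : ℂ) ^ 2 * a0 σ E t x V ^ 2)

/-- the second third order coefficient -/
noncomputable def rB (σ E t : ℝ) (x : T d L) (V : T d L → ℝ) : ℂ :=
  (V x : ℂ) ^ 3 * (ww σ E t x V * conj (ww σ E t x V)) *
      (a0 σ E t x V + conj (a0 σ E t x V)) -
    (V x * R σ E t V x x * ww σ E t x V * (ww σ E t x V * conj (ww σ E t x V)) +
      V x * (2 * conj (a0 σ E t x V) + a0 σ E t x V) +
      σ * (V x : ℂ) ^ 2 * (conj (a0 σ E t x V) ^ 2 + 2 * (a0 σ E t x V * conj (a0 σ E t x V))) +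
      σ ^ 2 * (V x : ℂ) ^ 3 * (a0 σ E t x V * conj (a0 σ E t x V) ^ 2))

/-- algebra for the resolvent -/
theorem alg1 (v s a A r : ℂ) (hA : A = (1 + s * v * A) * a) :
    v * r = v * ((1 + s * v * A) * r) - s * (v ^ 2 * (A * ((1 + s * v * A) * r))) +
      s ^ 2 * (v ^ 3 * A ^ 2 * r) ∧
    A * ((1 + s * v * A) * r) = a * r + s * (a * (2 * v * A + s * v ^ 2 * A ^ 2) * r) := by
  constructor
  · ring
  · linear_combination (1 + s * v * A) * r * hA

/-- algebra for `F` -/
theorem alg2 (v s a A A' c f F : ℂ) (hA : A = (1 + s * v * A) * a) :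
    v * F = v * ((1 + s * v * A) * (F + s * v * (1 + s * v * A') * (c * f))) -
      s * (v ^ 2 * (A * ((1 + s * v * A) * (F + s * v * (1 + s * v * A') * (c * f))) +
        ((1 + s * v * A') * c) * ((1 + s * v * A) * (1 + s * v * A') * f))) +
      s ^ 2 * (v ^ 3 * A ^ 2 * F + v ^ 3 * ((1 + s * v * A) * (1 + s * v * A')) * (A + A') *
        (c * f)) ∧
    A * ((1 + s * v * A) * (F + s * v * (1 + s * v * A') * (c * f))) +
        ((1 + s * v * A') * c) * ((1 + s * v * A) * (1 + s * v * A') * f) =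
      a * F + c * f + s * (a * (2 * v * A + s * v ^ 2 * A ^ 2) * F +
        (v * a * (1 + s * v * A) * ((1 + s * v * A) * (1 + s * v * A')) +
          v * (2 * A' + A) + s * v ^ 2 * (A' ^ 2 + 2 * (A * A')) +
          s ^ 2 * v ^ 3 * (A * A' ^ 2)) * (c * f)) := by
  constructor
  · ring
  · linear_combination (1 + s * v * A) * (F + s * v * (1 + s * v * A') * (c * f)) * hA

end Run7.h108.GL
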