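import Pool.Agent.Run7.h108.GL.Teq
import Pool.Agent.Run7.h47.Bil

/-! Point evaluations and the diagonal of the resolvent on a good event. -/

set_option autoImplicit false
set_option linter.unusedSectionVars false

open scoped BigOperators Matrix
open MeasureTheory

namespace Run7.h108.GL

open Pool.Agent.Run7.h47
open Pool.Agent.W788.MFP.Four Pool.Agent.W788.BK
open Pool.Agent.W788.MFP.Form

variable {d L : ℕ} [NeZero L]

/-- the Green function at a point -/
noncomputable def gz (d L : ℕ) [NeZero L] (E δ : ℝ) : ℝ :=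
  (NN d L)⁻¹ * ∑ k : T d L, (J E δ k)⁻¹

theorem gz_nonneg (E δ : ℝ) (hδ : 0 < δ) : 0 ≤ gz d L E δ :=
  mul_nonneg (inv_nonneg.2 NN_pos.le)
    (Finset.sum_nonneg fun k _ => (inv_pos.2 (J_pos E δ hδ k)).le)

theorem q_single (E δ s : ℝ) (y : T d L) :
    q (fun k => (J E δ k)⁻¹) (fun x => if x = y then s else 0) = s ^ 2 * gz d L E δ := by
  unfold q gz
  have h1 : ∀ k : T d L, ‖ft (fun x => if x = y then s else 0) k‖ ^ 2 = s ^ 2 := by
    intro k
    unfold ft
    rw [Finset.sum_eq_single y]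
    · simp only [if_true]
      rw [norm_mul, Complex.norm_real, norm_e, mul_one, Real.norm_eq_abs, sq_abs]
    · intro x _ hx
      simp [hx]
    · intro hcon
      exact absurd (Finset.mem_univ _) hcon
  simp only [h1]
  rw [← Finset.sum_mul]
  ring

/-- the value of a function at a point -/
theorem pt (E δ : ℝ) (hδ : 0 < δ) (γ : ℝ) (hγ : 0 < γ) (hg : gz d L E δ ≤ γ)
    (w : T d L → ℝ) (y : T d L) : w y ^ 2 ≤ γ * q (J E δ) w := by
  have h1 := young (d := d) (L := L) E δ hδ w (fun x => if x = y then w y / (2 * γ) else 0)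
  rw [q_single] at h1
  have h2 : ∑ x, w x * (if x = y then w y / (2 * γ) else 0) = w y ^ 2 / (2 * γ) := by
    rw [Finset.sum_eq_single y]
    · rw [if_pos rfl]
      ring
    · intro x _ hx
      rw [if_neg hx, mul_zero]
    · intro hcon
      exact absurd (Finset.mem_univ _) hcon
  rw [h2] at h1
  have h3 : (w y / (2 * γ)) ^ 2 * gz d L E δ ≤ (w y / (2 * γ)) ^ 2 * γ :=
    mul_le_mul_of_nonneg_left hg (sq_nonneg _)
  have h4 : (w y / (2 * γ)) ^ 2 * γ = w y ^ 2 / (2 * γ) / 2 := by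
    field_simp
  have h5 : w y ^ 2 / (2 * γ) ≤ 1 / 2 * q (J E δ) w := by linarith
  rw [div_le_iff₀ (by positivity)] at h5
  linarith

theorem ptc (E δ : ℝ) (hδ : 0 < δ) (γ : ℝ) (hγ : 0 < γ) (hg : gz d L E δ ≤ γ)
    (u : T d L → ℂ) (y : T d L) : ‖u y‖ ^ 2 ≤ γ * qc (J E δ) u := by
  have h1 := pt E δ hδ γ hγ hg (fun x => (u x).re) y
  have h2 := pt E δ hδ γ hγ hg (fun x => (u x).im) y
  rw [← Complex.normSq_eq_norm_sq, Complex.normSq_apply]
  unfold qc
  nlinarith

theorem qc_single (E δ : ℝ) (y : T d L) :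
    qc (fun k => (J E δ k)⁻¹) (Pi.single y 1) = gz d L E δ := by
  unfold qc
  have e1 : (fun x => ((Pi.single y (1 : ℂ) : T d L → ℂ) x).re) =
      fun x => if x = y then (1 : ℝ) else 0 := by
    funext x
    by_cases hx : x = y
    · subst hx
      simp
    · simp [hx]
  have e2 : (fun x => ((Pi.single y (1 : ℂ) : T d L → ℂ) x).im) =
      fun x => if x = y then (0 : ℝ) else 0 := by
    funext x
    by_cases hx : x = y
    · subst hx
      simp
    · simp [hx]
  rw [e1, e2, q_single, q_single]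
  ring

/-- the diagonal of the resolvent -/
theorem diag {σ E t δ τ γ : ℝ} (ht : 0 < t) (htδ : t ≤ δ) (hτ : 0 ≤ τ)
    (hστ : |σ| * τ ≤ 1 / 2) (hγ : 0 < γ) (hg : gz d L E δ ≤ γ) (V : T d L → ℝ)
    (hf : ∀ w : T d L → ℝ, |∑ x, V x * w x ^ 2| ≤ τ * q (J E δ) w) (y : T d L) :
    ‖R σ E t V y y‖ ≤ 6 * γ * δ / t := by
  have hδ : 0 < δ := ht.trans_le htδ
  set u : T d L → ℂ := R σ E t V *ᵥ Pi.single y 1 with hu
  have hux : ∀ x, R σ E t V y x = u x := by
    intro x
    rw [hu, Matrix.mulVec_single_one, R_symm]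
    rfl
  have hun : nsq u = (R σ E t V y y).im / t := by
    rw [← R_ward ht]
    unfold nsq
    exact Finset.sum_congr rfl fun x _ => by rw [hux]
  have h1 : HZ σ E t V *ᵥ u = Pi.single y 1 := by
    rw [hu, Matrix.mulVec_mulVec, HZ_mul ht, Matrix.one_mulVec]
  have h3 := off σ E t δ τ hδ hτ hστ V hf u _ h1
  rw [qc_single, hun] at h3
  have h4 := ptc E δ hδ γ hγ hg u y
  rw [← hux] at h4
  set r := ‖R σ E t V y y‖ with hr
  have hr0 : 0 ≤ r := norm_nonneg _
  have h5 : (R σ E t V y y).im ≤ r := (le_abs_self _).trans (Complex.abs_im_le_norm _)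
  have h6 : r ^ 2 ≤ γ * (4 * δ * (r / t) + 4 * γ) := by
    refine h4.trans (mul_le_mul_of_nonneg_left ?_ hγ.le)
    have h7 : 4 * δ * ((R σ E t V y y).im / t) ≤ 4 * δ * (r / t) := by gcongr
    linarith
  have h8 : 1 ≤ δ / t := by rwa [le_div_iff₀ ht, one_mul]
  have e1 : 6 * γ * δ / t = 6 * (γ * (δ / t)) := by ring
  rw [e1]
  set B := γ * (δ / t) with hB
  have hBγ : γ ≤ B := by
    rw [hB]
    nlinarith
  have h9 : γ * (4 * δ * (r / t) + 4 * γ) = 4 * B * r + 4 * γ ^ 2 := by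
    rw [hB]
    ring
  rw [h9] at h6
  by_contra hcon
  push Not at hcon
  nlinarith

/-- the form bound with one variable switched off -/
theorem upd_form {E δ τ γ b : ℝ} (hδ : 0 < δ) (hγ : 0 < γ) (hg : gz d L E δ ≤ γ)
    (V : T d L → ℝ) (hV : ∀ x, |V x| ≤ b)
    (hf : ∀ w : T d L → ℝ, |∑ x, V x * w x ^ 2| ≤ τ * q (J E δ) w) (y : T d L)
    (w : T d L → ℝ) :
    |∑ x, Function.update V y 0 x * w x ^ 2| ≤ (τ + b * γ) * q (J E δ) w := by
  have h1 : ∑ x, Function.update V y 0 x * w x ^ 2 = ∑ x, V x * w x ^ 2 - V y * w y ^ 2 := by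
    have h2 : ∀ x, Function.update V y 0 x * w x ^ 2 = V x * w x ^ 2 -
        (if x = y then V y * w y ^ 2 else 0) := by
      intro x
      by_cases hx : x = y
      · subst hx
        simp
      · simp [hx]
    simp only [h2]
    rw [Finset.sum_sub_distrib, Finset.sum_ite_eq' Finset.univ y]
    simp
  rw [h1]
  have h3 := hf w
  have h4 := pt E δ hδ γ hγ hg w y
  have h5 : |V y * w y ^ 2| ≤ b * (γ * q (J E δ) w) := by
    rw [abs_mul, abs_of_nonneg (sq_nonneg (w y))]
    exact mul_le_mul (hV y) h4 (sq_nonneg _) ((abs_nonneg _).trans (hV y))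
  calc |∑ x, V x * w x ^ 2 - V y * w y ^ 2| ≤ |∑ x, V x * w x ^ 2| + |V y * w y ^ 2| :=
        abs_sub _ _
    _ ≤ τ * q (J E δ) w + b * (γ * q (J E δ) w) := add_le_add h3 h5
    _ = _ := by ring

end Run7.h108.GL
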