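import Pool.Agent.Run7.h108.GL.Lim3
import Pool.Agent.Run7.h108.GL.Eig5
import Pool.Agent.Run7.h47.QE3

/-! Quantum ergodicity: one momentum. -/

set_option autoImplicit false
set_option linter.unusedSectionVars false

open scoped BigOperators Matrix Topology
open MeasureTheory ProbabilityTheory

namespace Run7.h108.GL.Q

open Pool.Agent.Run7.h47 hiding Hyp good free0 free1 free1_im free2 inst lad
  par tor_lim cc_re ex ex_norm
open Pool.Agent.Run7.h47.Q
open Pool.Agent.W788.MFP.Four Pool.Agent.W788.BK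

variable {d L : ℕ} [NeZero L] [Law]

theorem ff_cont {σ a b t : ℝ} (hσ : σ ≠ 0) (ht : 0 < t) (p : T d L) :
    Continuous (Function.uncurry fun (V : T d L → ℝ) (E : ℝ) =>
      cut a b E * (Hp p fun x y => ‖R σ E t V x y‖ ^ 2).re) := by
  have h1 : ∀ x y, Continuous fun q : (T d L → ℝ) × ℝ => ‖R σ q.2 t q.1 x y‖ ^ 2 :=
    fun x y => ((R_cont2 hσ ht x y).norm).pow 2
  unfold Function.uncurry Hp
  refine ((cut_cont a b).comp continuous_snd).mul (Complex.continuous_re.comp ?_)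
  refine continuous_finsetSum _ fun x _ => continuous_finsetSum _ fun y _ => ?_
  exact continuous_const.mul (Complex.continuous_ofReal.comp (h1 x y))

theorem YY_int {σ a b t : ℝ} (hab : a < b) (hσ : σ ≠ 0) (ht : 0 < t) (p : T d L) :
    Integrable (Function.uncurry fun (V : T d L → ℝ) (E : ℝ) =>
      cut a b E * (Hp p fun x y => ‖R σ E t V x y‖ ^ 2).re) ((Γ (T d L)).prod volume) := by
  obtain ⟨C, hC⟩ : ∃ C : ℝ, C = ∑ _x : T d L, ∑ _y : T d L, (t⁻¹) ^ 2 := ⟨_, rfl⟩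
  have h1 : Integrable (fun E => cut a b E * C) := cut_int hab continuous_const
  refine Integrable.mono' (h1.comp_snd (Γ (T d L))) (ff_cont hσ ht p).aestronglyMeasurable
    (Filter.Eventually.of_forall fun q => ?_)
  unfold Function.uncurry
  rw [norm_mul, Real.norm_of_nonneg (cut_nonneg a b _), Real.norm_eq_abs, hC]
  exact mul_le_mul_of_nonneg_left (Hp_le ht p _) (cut_nonneg a b _)

theorem YY_mean {σ a b t δ : ℝ} (hab : a < b) (hb : 0 < b) (hσ : σ ≠ 0) (ht : 0 < t) (p : T d L)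
    (hδ : 0 ≤ δ) (hff : ∀ E : ℝ, |E| ≤ b → t * ‖ff σ E t p‖ ≤ δ) :
    ∫ V, YY σ a b t p V ∂(Γ (T d L)) ≤ 2 * b * (NN d L * (δ / t)) := by
  have hN := NN_pos (d := d) (L := L)
  unfold YY
  rw [integral_integral_swap (YY_int hab hσ ht p)]
  have hHc : ∀ E, Integrable (fun V : T d L → ℝ => Hp p (fun x y => ‖R σ E t V x y‖ ^ 2))
      (Γ (T d L)) := by
    intro E
    refine Integrable.of_bound (C := ∑ _x : T d L, ∑ _y : T d L, (t⁻¹) ^ 2)
      (Continuous.aestronglyMeasurable ?_) (Filter.Eventually.of_forall fun V => ?_)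
    · unfold Hp
      refine continuous_finsetSum _ fun x _ => continuous_finsetSum _ fun y _ => ?_
      exact continuous_const.mul (Complex.continuous_ofReal.comp (R2_cont ht x y))
    · unfold Hp
      refine (norm_sum_le _ _).trans (Finset.sum_le_sum fun x _ => ?_)
      refine (norm_sum_le _ _).trans (Finset.sum_le_sum fun y _ => ?_)
      rw [norm_mul, norm_e, one_mul, Complex.norm_real, Real.norm_of_nonneg (sq_nonneg _)]
      exact pow_le_pow_left₀ (norm_nonneg _) (R_bd ht V x y) 2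
  have hre : ∀ E, |E| ≤ b → ∫ V, (Hp p (fun x y => ‖R σ E t V x y‖ ^ 2)).re ∂(Γ (T d L)) ≤
      NN d L * (δ / t) := by
    intro E hE
    have h2 := Complex.reCLM.integral_comp_comm (hHc E)
    simp only [Complex.reCLM_apply] at h2
    rw [h2, Hp_mean ht, Complex.re_ofReal_mul]
    refine mul_le_mul_of_nonneg_left ?_ hN.le
    refine ((le_abs_self _).trans (Complex.abs_re_le_norm _)).trans ?_
    rw [le_div_iff₀ ht, mul_comm]
    exact hff E hE
  have hle : ∀ E, ∫ V, cut a b E * (Hp p (fun x y => ‖R σ E t V x y‖ ^ 2)).re ∂(Γ (T d L)) ≤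
      (Set.Icc (-b) b).indicator (fun _ => NN d L * (δ / t)) E := by
    intro E
    rw [integral_const_mul]
    by_cases h : E ∈ Set.Icc (-b) b
    · rw [Set.indicator_of_mem h]
      have h1 := hre E (abs_le.2 h)
      have h2 := cut_nonneg a b E
      have h3 := cut_le a b E
      calc cut a b E * ∫ V, (Hp p (fun x y => ‖R σ E t V x y‖ ^ 2)).re ∂(Γ (T d L)) ≤
          cut a b E * (NN d L * (δ / t)) := by gcongr
        _ ≤ 1 * (NN d L * (δ / t)) := by gcongr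
        _ = _ := one_mul _
    · rw [Set.indicator_of_notMem h, cut_zero hab, zero_mul]
      by_contra h1
      push Not at h1
      exact h (abs_le.1 h1)
  have hint := (YY_int (σ := σ) (a := a) (b := b) hab hσ ht p).integral_prod_right
  have h3 := integral_mono hint
    ((integrable_indicator_iff measurableSet_Icc).2 continuousOn_const.integrableOn_Icc) hle
  refine h3.trans (le_of_eq ?_)
  rw [integral_indicator measurableSet_Icc, setIntegral_const,
    Real.volume_real_Icc_of_le (by linarith), smul_eq_mul]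
  ring

theorem YY_integrable {σ a b t : ℝ} (hab : a < b) (hσ : σ ≠ 0) (ht : 0 < t) (p : T d L) :
    Integrable (fun V : T d L → ℝ => YY σ a b t p V) (Γ (T d L)) :=
  (YY_int (σ := σ) (a := a) (b := b) hab hσ ht p).integral_prod_left

/-- **one momentum** -/
theorem one_mom (d : ℕ) (hd : 3 ≤ d) (a : ℝ) (ha0 : 0 ≤ a) (ha : a < 2 * d) (b1 b2 : ℝ)
    (hb1 : 2 < b1) (hb2 : b2 < 72 / 35) (ε : ℝ) (hε : 0 < ε) (j : Fin d → ℤ) (hj : j ≠ 0) :
    ∃ s : ℝ, 0 < s ∧ ∀ σ : ℝ, 0 < |σ| → |σ| ≤ s → ∀ (L : ℕ) [NeZero L],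
      |σ| ^ (-b1) ≤ (L : ℝ) → (L : ℝ) ≤ |σ| ^ (-b2) →
      ∃ S : Set (T d L → ℝ), MeasurableSet S ∧ 1 - ε ≤ (Γ (T d L)).real S ∧
        ∀ V ∈ S, ∀ (ι : Type) [Fintype ι]
          (u : OrthonormalBasis ι ℂ (EuclideanSpace ℂ (T d L))) (lam : ι → ℝ),
          (∀ k, IsEig σ (lam k) V (u k)) →
          ∑ k, (if |lam k| ≤ a then ‖∑ x, e (mom d L j) x * ((‖u k x‖ ^ 2 : ℝ) : ℂ)‖ ^ 2 else 0) ≤
            ε * (L : ℝ) ^ d := by
  have hC0 := C0_ge
  have hd0 : (0 : ℝ) < d := by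
    have : 0 < d := by omega
    exact_mod_cast this
  obtain ⟨κ, hκ0, hκ1, hκb⟩ := kap_ex hb2
  obtain ⟨b, hb⟩ : ∃ b, b = (a + 2 * d) / 2 := ⟨_, rfl⟩
  have hab : a < b := by rw [hb]; linarith
  have hb2d : b < 2 * d := by rw [hb]; linarith
  have hb0 : 0 < b := by linarith
  have hba : 0 < b - a := by linarith
  obtain ⟨c0, hc0, hJ⟩ := mJ_unif hd b hb2d
  obtain ⟨s0, hs0, hS⟩ := mS_unif hd b hb2d
  obtain ⟨δ, hδ⟩ : ∃ δ, δ = ε ^ 2 / (4 * b) := ⟨_, rfl⟩
  have hδ0 : 0 < δ := by rw [hδ]; positivity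
  obtain ⟨M0, hM0⟩ : ∃ M0, M0 = 8 * C0 ^ 3 / (s0 * δ) + 1 := ⟨_, rfl⟩
  have hM01 : 1 ≤ M0 := by
    rw [hM0]
    have : 0 ≤ 8 * C0 ^ 3 / (s0 * δ) := by positivity
    linarith
  have hM00 : 0 < M0 := by linarith
  have hMδ : 4 * C0 ^ 3 / (s0 * M0 ^ 2) ≤ δ / 2 := by
    have h1 : 8 * C0 ^ 3 / (s0 * δ) ≤ M0 ^ 2 := by
      have h2 : M0 ≤ M0 ^ 2 := by
        rw [sq]
        exact le_mul_of_one_le_left (by linarith) hM01
      refine le_trans ?_ h2
      rw [hM0]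
      linarith
    rw [div_le_iff₀ (by positivity)] at h1 ⊢
    linarith
  obtain ⟨Kj, hKj⟩ : ∃ Kj : ℝ, Kj = ∑ i, |(j i : ℝ)| := ⟨_, rfl⟩
  have hKj0 : 0 ≤ Kj := by rw [hKj]; exact Finset.sum_nonneg fun _ _ => abs_nonneg _
  obtain ⟨i0, hi0⟩ : ∃ i, j i ≠ 0 := by
    by_contra h
    push Not at h
    exact hj (funext h)
  obtain ⟨s1, hs1, hs1', H⟩ := tor_lim d hd κ hκ0 hκ1 b c0 hc0 hJ
    (fun E hE => hs0.le.trans (hS E hE)) (Kj * M0) (by positivity) b1 hb1 (δ / 2) (by positivity)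
  have hpi := Real.pi_pos
  obtain ⟨W, hW⟩ : ∃ W, W = (2 * Real.pi / M0) ^ 2 := ⟨_, rfl⟩
  have hW0 : 0 < W := by rw [hW]; positivity
  obtain ⟨s2, hs2, H2⟩ := small_pow W (2 * b1 - 4) s1 (by linarith) hs1
  obtain ⟨s3, hs3, H3⟩ := small_pow W⁻¹ (4 + κ - 2 * b2) 1 (by linarith) one_pos
  obtain ⟨s4, hs4, H4⟩ := small_pow (2 / (b - a) * (4 * b + 4)) 1 (ε ^ 2 / 2) one_pos
    (by positivity)
  obtain ⟨s5, hs5, H5⟩ := small_pow 1 1 ((b - a) / 2) one_pos (by positivity)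
  refine ⟨min (min s1 s2) (min s3 (min s4 s5)), by positivity, ?_⟩
  intro σ hσ hσs L _ hL1 hL2
  obtain ⟨x, hx⟩ : ∃ x, x = |σ| := ⟨_, rfl⟩
  have hσx : σ ^ 2 = x ^ 2 := by rw [hx, sq_abs]
  have hσ0 : σ ≠ 0 := abs_pos.1 hσ
  rw [← hx] at hσ hσs hL1 hL2
  have hx1 : x ≤ s1 := hσs.trans ((min_le_left _ _).trans (min_le_left _ _))
  have hx2 : x ≤ s2 := hσs.trans ((min_le_left _ _).trans (min_le_right _ _))
  have hx3 : x ≤ s3 := hσs.trans ((min_le_right _ _).trans (min_le_left _ _))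
  have hx4 : x ≤ s4 := hσs.trans ((min_le_right _ _).trans ((min_le_right _ _).trans
    (min_le_left _ _)))
  have hx5 : x ≤ s5 := hσs.trans ((min_le_right _ _).trans ((min_le_right _ _).trans
    (min_le_right _ _)))
  have hx15 : x ≤ 1 / 5 := hx1.trans hs1'
  have hxle1 : x ≤ 1 := by linarith
  have hLR : (0 : ℝ) < L := by exact_mod_cast Nat.pos_of_ne_zero (NeZero.ne L)
  have hN := NN_pos (d := d) (L := L)
  obtain ⟨t, ht⟩ : ∃ t, t = (2 * Real.pi / (L * x * M0)) ^ 2 := ⟨_, rfl⟩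
  have ht0 : 0 < t := by rw [ht]; positivity
  have hsq : Real.sqrt t = 2 * Real.pi / (L * x * M0) := by
    rw [ht, Real.sqrt_sq (by positivity)]
  have hst : x * Real.sqrt t = 2 * Real.pi / (L * M0) := by
    rw [hsq]
    field_simp
  have htW : t = W * ((L : ℝ)⁻¹ ^ 2 * (x ^ 2)⁻¹) := by
    rw [ht, hW]
    field_simp
  have hLi1 : (L : ℝ)⁻¹ ≤ x ^ b1 := by
    rw [inv_le_comm₀ hLR (by positivity), ← Real.rpow_neg hσ.le]
    exact hL1
  have hLi2 : x ^ b2 ≤ (L : ℝ)⁻¹ := by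
    rw [le_inv_comm₀ (by positivity) hLR, ← Real.rpow_neg hσ.le]
    exact hL2
  have htu : t ≤ s1 * σ ^ 2 := by
    rw [htW, hσx]
    have h1 := H2 x hσ hx2
    have h2 : x ^ (2 * b1 - 4) = (x ^ b1) ^ 2 * (x ^ 4)⁻¹ := by
      rw [← Real.rpow_natCast (x ^ b1), ← Real.rpow_mul hσ.le, ← Real.rpow_natCast x 4,
        ← Real.rpow_neg hσ.le, ← Real.rpow_add hσ]
      congr 1
      push_cast
      ring
    have h3 : (x ^ 2)⁻¹ = (x ^ 4)⁻¹ * x ^ 2 := by field_simp
    calc W * ((L : ℝ)⁻¹ ^ 2 * (x ^ 2)⁻¹) ≤ W * ((x ^ b1) ^ 2 * (x ^ 2)⁻¹) := by gcongr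
      _ = (W * x ^ (2 * b1 - 4)) * x ^ 2 := by
          rw [h2, h3]
          ring
      _ ≤ s1 * x ^ 2 := by gcongr
  have htl : x ^ (2 + κ) ≤ t := by
    rw [htW]
    have h1 := H3 x hσ hx3
    have h2 : x ^ (2 + κ) = x ^ (4 + κ - 2 * b2) * ((x ^ b2) ^ 2 * (x ^ 2)⁻¹) := by
      rw [← Real.rpow_natCast (x ^ b2), ← Real.rpow_mul hσ.le, ← Real.rpow_natCast x 2,
        ← Real.rpow_neg hσ.le, ← Real.rpow_add hσ, ← Real.rpow_add hσ]
      congr 1
      push_cast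
      ring
    have h3 : x ^ (4 + κ - 2 * b2) ≤ W := by
      have h4 := mul_le_mul_of_nonneg_left h1 hW0.le
      rw [← mul_assoc, mul_inv_cancel₀ hW0.ne', one_mul, mul_one] at h4
      exact h4
    rw [h2]
    gcongr
  have ht1 : t ≤ x ^ 2 := by
    refine htu.trans ?_
    rw [hσx]
    have : s1 ≤ 1 := hs1'.trans (by norm_num)
    calc s1 * x ^ 2 ≤ 1 * x ^ 2 := by gcongr
      _ = x ^ 2 := one_mul _
  have hst1 : Real.sqrt t ≤ x := by
    rw [Real.sqrt_le_left hσ.le]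
    exact ht1
  have htba : t ≤ (b - a) / 2 := by
    have h1 := H5 x hσ hx5
    rw [one_mul, Real.rpow_one] at h1
    refine ht1.trans (le_trans ?_ h1)
    rw [sq]
    exact mul_le_of_le_one_left hσ.le hxle1
  have hL12 : (L : ℝ) ≤ 2 * (x ^ 12)⁻¹ := by
    have h1 : x ^ (-b2) ≤ (x ^ 12)⁻¹ := by
      rw [← Real.rpow_natCast, ← Real.rpow_neg hσ.le]
      exact Real.rpow_le_rpow_of_exponent_ge hσ hxle1 (by push_cast; linarith)
    have h2 : 0 < (x ^ 12)⁻¹ := by positivity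
    linarith
  -- the ladder at this momentum
  have hff : ∀ E : ℝ, |E| ≤ b → t * ‖ff σ E t (mom d L j)‖ ≤ δ := by
    intro E hE
    have hang : ∀ i, ang L j i = (j i : ℝ) * (2 * Real.pi / L) := by
      intro i
      unfold ang
      ring
    have h1 := H σ E t L (by rw [← hx]; exact hσ) (by rw [← hx]; exact hx1) hE
      (by rw [← hx]; exact htl) htu (by rw [← hx]; exact hL1) (by rw [← hx]; exact hL12) j (by
        rw [← hx, hst]
        unfold sz
        simp only [hang, abs_mul]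
        rw [← Finset.sum_mul, ← hKj, abs_of_pos (by positivity : 0 < 2 * Real.pi / (L : ℝ))]
        apply le_of_eq
        field_simp)
    have hq : M0 ^ 2 ≤ (∑ i, ang L j i ^ 2) / (σ ^ 2 * t) := by
      have hσt : 0 < σ ^ 2 * t := by
        rw [hσx]
        positivity
      rw [le_div_iff₀ hσt]
      have h2 : M0 ^ 2 * (σ ^ 2 * t) = (2 * Real.pi / L) ^ 2 := by
        rw [hσx, ht]
        field_simp
      rw [h2]
      have h3 : ang L j i0 ^ 2 ≤ ∑ i, ang L j i ^ 2 :=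
        Finset.single_le_sum (f := fun i => ang L j i ^ 2) (fun _ _ => sq_nonneg _)
          (Finset.mem_univ i0)
      refine le_trans ?_ h3
      rw [hang, mul_pow]
      have h4 : (1 : ℝ) ≤ (j i0 : ℝ) ^ 2 := by
        have h5 : (1 : ℤ) ≤ (j i0) ^ 2 := by
          have := Int.one_le_abs hi0
          rw [← sq_abs]
          exact one_le_pow₀ this
        exact_mod_cast h5
      exact le_mul_of_one_le_left (sq_nonneg _) h4
    have hJC : (mJ d E).re ≤ C0 := by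
      have h6 := mJ_bd hd E
      have h7 := (le_abs_self _).trans (Complex.abs_re_le_norm (mJ d E))
      unfold C0
      linarith
    obtain ⟨k1, k2⟩ := Dl_le (q := (∑ i', ang L j i' ^ 2) / (σ ^ 2 * t)) hc0 (hJ E hE) hJC hs0
      (hS E hE) hM00 hq
    have h4 := norm_sub_norm_le ((t : ℂ) * ff σ E t (mom d L j))
      ((Dl (mJ d E).re (mS d E).re ((∑ i, ang L j i ^ 2) / (σ ^ 2 * t)) : ℝ) : ℂ)
    rw [norm_mul, Complex.norm_real, Complex.norm_real, Real.norm_of_nonneg ht0.le,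
      Real.norm_of_nonneg k1] at h4
    have h5 : ‖(t : ℂ) * ff σ E t (mom d L j) -
      ((Dl (mJ d E).re (mS d E).re ((∑ i, ang L j i ^ 2) / (σ ^ 2 * t)) : ℝ) : ℂ)‖ ≤ δ / 2 := h1
    linarith
  -- Markov
  obtain ⟨Λ, hΛ⟩ : ∃ Λ, Λ = 2 / (b - a) * (4 * b + 4) * (Real.sqrt t)⁻¹ := ⟨_, rfl⟩
  have hs0' : 0 < Real.sqrt t := Real.sqrt_pos.2 ht0
  have hΛt : t * Λ ≤ ε ^ 2 / 2 := by
    have h1 : t * Λ = 2 / (b - a) * (4 * b + 4) * Real.sqrt t := by
      have h2 : t = Real.sqrt t * Real.sqrt t := (Real.mul_self_sqrt ht0.le).symm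
      rw [hΛ]
      nth_rewrite 1 [h2]
      field_simp
    rw [h1]
    have h2 := H4 x hσ hx4
    rw [Real.rpow_one] at h2
    refine le_trans ?_ h2
    gcongr
  obtain ⟨X, hX⟩ : ∃ X : (T d L → ℝ) → ℝ, X = fun V =>
    t * (YY σ a b t (mom d L j) V + Λ * NN d L) := ⟨_, rfl⟩
  have hge : ∀ V : T d L → ℝ, ∀ (ι : Type) [Fintype ι]
      (u : OrthonormalBasis ι ℂ (EuclideanSpace ℂ (T d L))) (lam : ι → ℝ),
      (∀ k, IsEig σ (lam k) V (u k)) →
      ∑ k, (if |lam k| ≤ a then ‖∑ x, e (mom d L j) x * ((‖u k x‖ ^ 2 : ℝ) : ℂ)‖ ^ 2 else 0) ≤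
        X V := by
    intro V ι _ u lam h
    rw [hX, hΛ]
    exact YY_ge hab hb0 ht0 htba (mom d L j) V u h
  have hX0 : ∀ V, 0 ≤ X V := by
    intro V
    obtain ⟨u, lam, h⟩ := eig_ex σ V
    refine le_trans ?_ (hge V _ u lam h)
    exact Finset.sum_nonneg fun k _ => by
      split_ifs
      · positivity
      · exact le_rfl
  have hXm : Measurable X := by
    rw [hX]
    exact ((YY_meas hσ0 ht0 _).add_const _).const_mul _
  have hXi : Integrable X (Γ (T d L)) := by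
    rw [hX]
    exact ((YY_integrable hab hσ0 ht0 _).add (integrable_const _)).const_mul _
  have hmean : ∫ V, X V ∂(Γ (T d L)) ≤ ε ^ 2 * NN d L := by
    rw [hX]
    rw [integral_const_mul, integral_add (YY_integrable hab hσ0 ht0 _) (integrable_const _),
      integral_const, probReal_univ, one_smul]
    have h1 := YY_mean (d := d) (L := L) (σ := σ) hab hb0 hσ0 ht0 (mom d L j) hδ0.le hff
    calc t * (∫ V, YY σ a b t (mom d L j) V ∂(Γ (T d L)) + Λ * NN d L) ≤
        t * (2 * b * (NN d L * (δ / t)) + Λ * NN d L) := by gcongr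
      _ = (2 * b * δ + t * Λ) * NN d L := by
          field_simp
      _ ≤ (ε ^ 2 / 2 + ε ^ 2 / 2) * NN d L := by
          gcongr
          rw [hδ]
          apply le_of_eq
          field_simp
          norm_num
      _ = _ := by ring
  obtain ⟨θ0, hθ0d⟩ : ∃ θ0, θ0 = ε * NN d L := ⟨_, rfl⟩
  have hθ00 : 0 < θ0 := by rw [hθ0d]; positivity
  refine ⟨{V | X V < θ0}, measurableSet_lt hXm measurable_const, ?_, ?_⟩
  · have h1 := mul_meas_ge_le_integral_of_nonneg (μ := Γ (T d L))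
      (f := X) (Filter.Eventually.of_forall hX0) hXi θ0
    have h2 : (Γ (T d L)).real {V | X V < θ0} =
        1 - (Γ (T d L)).real {V | θ0 ≤ X V} := by
      have h3 := probReal_add_probReal_compl (μ := Γ (T d L))
        (measurableSet_le (measurable_const (a := θ0)) hXm)
      have h4 : {V : T d L → ℝ | θ0 ≤ X V}ᶜ = {V | X V < θ0} := by
        ext V
        simp
      rw [h4] at h3
      linarith
    have h3 : (Γ (T d L)).real {V | θ0 ≤ X V} ≤ ε := by
      have h4 : θ0 * (Γ (T d L)).real {V | θ0 ≤ X V} ≤ ε ^ 2 * NN d L := h1.trans hmean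
      have h5 : ε ^ 2 * NN d L = θ0 * ε := by
        rw [hθ0d]
        ring
      rw [h5] at h4
      exact le_of_mul_le_mul_left h4 hθ00
    rw [h2]
    linarith
  · intro V hV ι _ u lam h
    have h1 : X V < θ0 := hV
    refine (hge V ι u lam h).trans (h1.le.trans (le_of_eq ?_))
    rw [hθ0d]
    rfl

end Run7.h108.GL.Q
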