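import Pool.Agent.Run7.h108.GL.QE3
import Pool.Agent.Run7.h47.QE4

/-! Quantum ergodicity: continuous test functions. -/

set_option autoImplicit false
set_option linter.unusedSectionVars false

open scoped BigOperators Matrix Topology
open MeasureTheory ProbabilityTheory

namespace Run7.h108.GL.Q

open Pool.Agent.Run7.h47 hiding Hyp good free0 free1 free1_im free2 inst lad
  par tor_lim cc_re ex ex_norm
open Pool.Agent.Run7.h47.Q
open Pool.Agent.W788.MFP.Four Pool.Agent.W788.BK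

variable [Law]

/-- **quantum ergodicity on tori of side between `|σ|^(-b1)` and `|σ|^(-b2)`** -/
theorem qerg (d : ℕ) (hd : 3 ≤ d) (a : ℝ) (ha0 : 0 ≤ a) (ha : a < 2 * d) (b1 b2 : ℝ)
    (hb1 : 2 < b1) (hb2 : b2 < 72 / 35) (φ : (Fin d → ℝ) → ℝ) (hφ : Continuous φ)
    (hper : ∀ (y : Fin d → ℝ) (n : Fin d → ℤ), φ (fun i => y i + n i) = φ y)
    (ε : ℝ) (hε : 0 < ε) :
    ∃ s : ℝ, 0 < s ∧ ∀ σ : ℝ, 0 < |σ| → |σ| ≤ s → ∀ (L : ℕ) [NeZero L],
      |σ| ^ (-b1) ≤ (L : ℝ) → (L : ℝ) ≤ |σ| ^ (-b2) →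
      ∃ S : Set (T d L → ℝ), MeasurableSet S ∧ 1 - ε ≤ (Γ (T d L)).real S ∧
        ∀ V ∈ S, ∀ (ι : Type) [Fintype ι]
          (u : OrthonormalBasis ι ℂ (EuclideanSpace ℂ (T d L))) (lam : ι → ℝ),
          (∀ k, IsEig σ (lam k) V (u k)) →
          (Nat.card {k // |lam k| ≤ a ∧
            ε ≤ |∑ x, φ (ps x) * ‖u k x‖ ^ 2 - ∫ y in Set.Icc (0 : Fin d → ℝ) 1, φ y|} : ℝ) ≤
            ε * (L : ℝ) ^ d := by
  classical
  obtain ⟨s, c, hs⟩ := trig_ap φ hφ hper (ε := ε / 4) (by positivity)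
  obtain ⟨C, hC⟩ : ∃ C : ℝ, C = ∑ n ∈ s, ‖c n‖ + 1 := ⟨_, rfl⟩
  have hC0 : 0 < C := by
    have : 0 ≤ ∑ n ∈ s, ‖c n‖ := Finset.sum_nonneg fun _ _ => norm_nonneg _
    linarith
  obtain ⟨q, hq⟩ : ∃ q : ℝ, q = (ε / (2 * C)) ^ 2 := ⟨_, rfl⟩
  have hq0 : 0 < q := by rw [hq]; positivity
  obtain ⟨m, hm⟩ : ∃ m : ℝ, m = ((s.erase 0).card : ℝ) + 1 := ⟨_, rfl⟩
  have hm0 : 0 < m := by rw [hm]; positivity
  obtain ⟨ε', hε'⟩ : ∃ ε', ε' = min ε (ε * q) / m := ⟨_, rfl⟩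
  have hε'0 : 0 < ε' := by rw [hε']; positivity
  have hA : m * ε' ≤ ε := by
    rw [hε', mul_div_cancel₀ _ hm0.ne']
    exact min_le_left _ _
  have hB : m * ε' ≤ ε * q := by
    rw [hε', mul_div_cancel₀ _ hm0.ne']
    exact min_le_right _ _
  have hchoose : ∀ n : Fin d → ℤ, ∃ s1 : ℝ, 0 < s1 ∧ (n ≠ 0 → ∀ σ : ℝ, 0 < |σ| → |σ| ≤ s1 →
      ∀ (L : ℕ) [NeZero L], |σ| ^ (-b1) ≤ (L : ℝ) → (L : ℝ) ≤ |σ| ^ (-b2) →
      ∃ S : Set (T d L → ℝ), MeasurableSet S ∧ 1 - ε' ≤ (Γ (T d L)).real S ∧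
        ∀ V ∈ S, ∀ (ι : Type) [Fintype ι]
          (u : OrthonormalBasis ι ℂ (EuclideanSpace ℂ (T d L))) (lam : ι → ℝ),
          (∀ k, IsEig σ (lam k) V (u k)) →
          ∑ k, (if |lam k| ≤ a then ‖∑ x, e (mom d L n) x * ((‖u k x‖ ^ 2 : ℝ) : ℂ)‖ ^ 2 else 0) ≤
            ε' * (L : ℝ) ^ d) := by
    intro n
    by_cases hn : n = 0
    · exact ⟨1, one_pos, fun h => absurd hn h⟩
    · obtain ⟨s1, hs1, H⟩ := one_mom d hd a ha0 ha b1 b2 hb1 hb2 ε' hε'0 n hn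
      exact ⟨s1, hs1, fun _ => H⟩
  choose s1 hs1 H using hchoose
  obtain ⟨s2, hs2, hs2'⟩ : ∃ s2 : ℝ, 0 < s2 ∧ ∀ n ∈ s.erase 0, s2 ≤ s1 n := by
    by_cases he : (s.erase 0).Nonempty
    · refine ⟨(s.erase 0).inf' he s1, ?_, fun n hn => Finset.inf'_le _ hn⟩
      rw [Finset.lt_inf'_iff]
      exact fun n _ => hs1 n
    · rw [Finset.not_nonempty_iff_eq_empty] at he
      rw [he]
      exact ⟨1, one_pos, fun n hn => absurd hn (Finset.notMem_empty _)⟩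
  refine ⟨s2, hs2, fun σ hσ hσs L _ hL1 hL2 => ?_⟩
  have hLR : (0 : ℝ) < L := by exact_mod_cast Nat.pos_of_ne_zero (NeZero.ne L)
  have hex : ∀ n : Fin d → ℤ, ∃ S : Set (T d L → ℝ), n ∈ s.erase 0 →
      (MeasurableSet S ∧ 1 - ε' ≤ (Γ (T d L)).real S ∧
        ∀ V ∈ S, ∀ (ι : Type) [Fintype ι]
          (u : OrthonormalBasis ι ℂ (EuclideanSpace ℂ (T d L))) (lam : ι → ℝ),
          (∀ k, IsEig σ (lam k) V (u k)) →
          ∑ k, (if |lam k| ≤ a then ‖∑ x, e (mom d L n) x * ((‖u k x‖ ^ 2 : ℝ) : ℂ)‖ ^ 2 else 0) ≤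
            ε' * (L : ℝ) ^ d) := by
    intro n
    by_cases hn : n ∈ s.erase 0
    · obtain ⟨S, h1⟩ := H n (Finset.ne_of_mem_erase hn) σ hσ (hσs.trans (hs2' n hn)) L hL1 hL2
      exact ⟨S, fun _ => h1⟩
    · exact ⟨∅, fun h => absurd h hn⟩
  choose S hS using hex
  refine ⟨⋂ n ∈ s.erase 0, S n, Finset.measurableSet_biInter _ fun n hn => (hS n hn).1, ?_, ?_⟩
  · have h1 : (Γ (T d L)).real (⋂ n ∈ s.erase 0, S n)ᶜ ≤ ∑ n ∈ s.erase 0, ε' := by
      rw [Set.compl_iInter₂]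
      refine (measureReal_biUnion_finset_le _ _).trans (Finset.sum_le_sum fun n hn => ?_)
      have h2 := probReal_add_probReal_compl (μ := Γ (T d L)) (hS n hn).1
      have h3 := (hS n hn).2.1
      linarith
    have h2 := probReal_add_probReal_compl (μ := Γ (T d L))
      (Finset.measurableSet_biInter (s.erase 0) fun n hn => (hS n hn).1)
    rw [Finset.sum_const, nsmul_eq_mul] at h1
    have h3 : ((s.erase 0).card : ℝ) * ε' ≤ m * ε' := by
      rw [hm]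
      gcongr
      linarith
    linarith
  · intro V hV ι _ u lam hE
    have hV' : ∀ n ∈ s.erase 0, V ∈ S n := by
      intro n hn
      exact Set.mem_iInter₂.1 hV n hn
    obtain ⟨B, hB'⟩ : ∃ B : Finset ι, B = Finset.univ.filter fun k => |lam k| ≤ a ∧
      ε ≤ |∑ x, φ (ps x) * ‖u k x‖ ^ 2 - ∫ y in Set.Icc (0 : Fin d → ℝ) 1, φ y| := ⟨_, rfl⟩
    have hcard : (Nat.card {k // |lam k| ≤ a ∧
        ε ≤ |∑ x, φ (ps x) * ‖u k x‖ ^ 2 - ∫ y in Set.Icc (0 : Fin d → ℝ) 1, φ y|} : ℝ) =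
        B.card := by
      rw [hB', Nat.card_eq_fintype_card, Fintype.card_subtype]
    rw [hcard]
    obtain ⟨A, hAd⟩ : ∃ A : (Fin d → ℤ) → ι → ℝ, A = fun n k =>
      ‖∑ x, e (mom d L n) x * ((‖u k x‖ ^ 2 : ℝ) : ℂ)‖ := ⟨_, rfl⟩
    have hAs : ∀ n ∈ s.erase 0, ∑ k, (if |lam k| ≤ a then A n k ^ 2 else 0) ≤
        ε' * (L : ℝ) ^ d := by
      intro n hn
      rw [hAd]
      exact (hS n hn).2.2 V (hV' n hn) ι u lam hE
    have hun : ∀ k, ∑ x, ‖u k x‖ ^ 2 = 1 := by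
      intro k
      rw [← EuclideanSpace.norm_sq_eq, u.orthonormal.1 k, one_pow]
    have hlow : ∀ k ∈ B, q ≤ ∑ n ∈ s.erase 0, (if |lam k| ≤ a then A n k ^ 2 else 0) := by
      intro k hk
      rw [hB', Finset.mem_filter] at hk
      have h1 := dev_le φ hφ s c hs (fun x => ‖u k x‖ ^ 2) (fun x => sq_nonneg _) (hun k)
      have h2 : ε / 2 ≤ ∑ n ∈ s.erase 0, ‖c n‖ * A n k := by
        have h3 := hk.2.2.trans h1
        rw [hAd]
        linarith
      obtain ⟨n, hn, hn2⟩ : ∃ n ∈ s.erase 0, ε / (2 * C) ≤ A n k := by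
        by_contra hcon
        push Not at hcon
        have h4 : ∑ n ∈ s.erase 0, ‖c n‖ * A n k ≤ ∑ n ∈ s.erase 0, ‖c n‖ * (ε / (2 * C)) :=
          Finset.sum_le_sum fun n hn => mul_le_mul_of_nonneg_left (hcon n hn).le (norm_nonneg _)
        have h5 : ∑ n ∈ s.erase 0, ‖c n‖ * (ε / (2 * C)) < C * (ε / (2 * C)) := by
          rw [← Finset.sum_mul]
          refine mul_lt_mul_of_pos_right ?_ (by positivity)
          have h6 : ∑ n ∈ s.erase 0, ‖c n‖ ≤ ∑ n ∈ s, ‖c n‖ :=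
            Finset.sum_le_sum_of_subset_of_nonneg (Finset.erase_subset _ _)
              fun _ _ _ => norm_nonneg _
          rw [hC]
          linarith
        have h7 : C * (ε / (2 * C)) = ε / 2 := by field_simp
        linarith
      have h8 : q ≤ (if |lam k| ≤ a then A n k ^ 2 else 0) := by
        rw [if_pos hk.2.1, hq]
        exact pow_le_pow_left₀ (by positivity) hn2 2
      refine h8.trans (Finset.single_le_sum (f := fun n => if |lam k| ≤ a then A n k ^ 2 else 0)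
        (fun n _ => ?_) hn)
      show (0 : ℝ) ≤ if |lam k| ≤ a then A n k ^ 2 else 0
      split_ifs
      · exact sq_nonneg _
      · exact le_rfl
    have h1 : (B.card : ℝ) * q ≤ m * ε' * (L : ℝ) ^ d := by
      calc (B.card : ℝ) * q = ∑ _k ∈ B, q := by rw [Finset.sum_const, nsmul_eq_mul]
        _ ≤ ∑ k ∈ B, ∑ n ∈ s.erase 0, (if |lam k| ≤ a then A n k ^ 2 else 0) :=
            Finset.sum_le_sum hlow
        _ ≤ ∑ k, ∑ n ∈ s.erase 0, (if |lam k| ≤ a then A n k ^ 2 else 0) := by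
            refine Finset.sum_le_sum_of_subset_of_nonneg (Finset.subset_univ _) fun k _ _ => ?_
            refine Finset.sum_nonneg fun n _ => ?_
            split_ifs
            · exact sq_nonneg _
            · exact le_rfl
        _ = ∑ n ∈ s.erase 0, ∑ k, (if |lam k| ≤ a then A n k ^ 2 else 0) := Finset.sum_comm
        _ ≤ ∑ _n ∈ s.erase 0, ε' * (L : ℝ) ^ d := Finset.sum_le_sum hAs
        _ = (s.erase 0).card * (ε' * (L : ℝ) ^ d) := by rw [Finset.sum_const, nsmul_eq_mul]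
        _ ≤ m * (ε' * (L : ℝ) ^ d) := by
            rw [hm]
            gcongr
            linarith
        _ = _ := by ring
    have h2 : (B.card : ℝ) * q ≤ (ε * (L : ℝ) ^ d) * q := by
      refine h1.trans ?_
      calc m * ε' * (L : ℝ) ^ d ≤ ε * q * (L : ℝ) ^ d := by gcongr
        _ = _ := by ring
    exact le_of_mul_le_mul_right h2 hq0

end Run7.h108.GL.Q
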