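import Pool.Agent.Run7.h108.GL.One

/-! The `T`-equation for the Anderson model on the torus, general laws. -/

set_option autoImplicit false
set_option linter.unusedSectionVars false

open scoped BigOperators Matrix
open MeasureTheory

namespace Run7.h108.GL

open Pool.Agent.Run7.h47
open Pool.Agent.W788.MFP.Four Pool.Agent.W788.BK

variable {d L : ℕ} [NeZero L] [Law]

/-- invariance of the law under shifts -/
theorem mp_shift (a : T d L) :
    MeasurePreserving (fun V : T d L → ℝ => fun z => V (z + a)) (Γ (T d L)) (Γ (T d L)) := by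
  have h := measurePreserving_piCongrLeft (fun _ : T d L => Law.μ)
    (Equiv.addRight (-a))
  have h2 : (MeasurableEquiv.piCongrLeft (fun _ : T d L => ℝ) (Equiv.addRight (-a)) :
      (T d L → ℝ) → (T d L → ℝ)) = fun V z => V (z + a) := by
    funext V z
    have h3 : z = Equiv.addRight (-a) (z + a) := by simp
    conv_lhs => rw [h3]
    exact MeasurableEquiv.piCongrLeft_apply_apply _ _ _
  rw [← h2]
  exact h

/-- the mean of the diagonal of the resolvent -/
noncomputable def mm (d L : ℕ) [NeZero L] (σ E t : ℝ) : ℂ :=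
  ∫ V, R σ E t V (0 : T d L) 0 ∂(Γ (T d L))

/-- the renormalized energy -/
noncomputable def ze (d L : ℕ) [NeZero L] (σ E t : ℝ) : ℂ :=
  (E : ℂ) + (t : ℂ) * Complex.I + (σ : ℂ) ^ 2 * mm d L σ E t

variable {σ E t : ℝ}

theorem R_BC (ht : 0 < t) (a b : T d L) : BC fun V : T d L → ℝ => R σ E t V a b :=
  BC.of47 (Pool.Agent.Run7.h47.R_BC ht a b)

theorem F_BC (ht : 0 < t) (p a b : T d L) : BC fun V : T d L → ℝ => Fm σ E t p V a b :=
  BC.of47 (Pool.Agent.Run7.h47.F_BC ht p a b)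

theorem a0_BC (ht : 0 < t) (x : T d L) : BC fun V : T d L → ℝ => a0 σ E t x V :=
  (R_BC ht x x).upd x

theorem ww_BC (ht : 0 < t) (x : T d L) : BC fun V : T d L → ℝ => ww σ E t x V :=
  (BC.const 1).add (((BC.const (σ : ℂ)).mul (BC.co x)).mul (a0_BC ht x))

theorem rA_BC (ht : 0 < t) (x : T d L) : BC fun V : T d L → ℝ => rA σ E t x V :=
  (((BC.co x).powC 3).mul ((a0_BC ht x).powC 2)).sub
    ((R_BC ht x x).mul ((((BC.const 2).mul (BC.co x)).mul (a0_BC ht x)).add
      (((BC.const (σ : ℂ)).mul ((BC.co x).powC 2)).mul ((a0_BC ht x).powC 2))))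

theorem rB_BC (ht : 0 < t) (x : T d L) : BC fun V : T d L → ℝ => rB σ E t x V := by
  have hw := (ww_BC (σ := σ) (E := E) ht x).mul (ww_BC (σ := σ) (E := E) ht x).conj
  have ha := a0_BC (σ := σ) (E := E) ht x
  refine ((((BC.co x).powC 3).mul hw).mul (ha.add ha.conj)).sub ?_
  refine BC.add (BC.add (BC.add ?_ ?_) ?_) ?_
  · exact (((BC.co x).mul (R_BC ht x x)).mul (ww_BC ht x)).mul hw
  · exact (BC.co x).mul (((BC.const 2).mul ha.conj).add ha)
  · exact ((BC.const (σ : ℂ)).mul ((BC.co x).powC 2)).mul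
      ((ha.conj.powC 2).add ((BC.const 2).mul (ha.mul ha.conj)))
  · exact ((BC.const ((σ : ℂ) ^ 2)).mul ((BC.co x).powC 3)).mul (ha.mul (ha.conj.powC 2))

/-- integration by parts up to third order, resolvent -/
theorem ibpR (ht : 0 < t) (x y : T d L) :
    ∫ V, (V x : ℂ) * R σ E t V x y ∂(Γ (T d L)) =
      -σ * ∫ V, R σ E t V x x * R σ E t V x y ∂(Γ (T d L)) +
        σ ^ 2 * ∫ V, rA σ E t x V * R σ E t V x y ∂(Γ (T d L)) := by
  have hA := fun V : T d L → ℝ => a0_eq (σ := σ) (E := E) ht V x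
  have e1 : ∀ V : T d L → ℝ, (V x : ℂ) * R σ E t V x y =
      (V x : ℂ) * R σ E t (Function.update V x 0) x y -
        σ * ((V x : ℂ) ^ 2 * (R σ E t (Function.update V x 0) x x *
          R σ E t (Function.update V x 0) x y)) +
        σ ^ 2 * ((V x : ℂ) ^ 3 * a0 σ E t x V ^ 2 * R σ E t V x y) := by
    intro V
    rw [r3 ht V x y]
    exact (alg1 (V x : ℂ) σ (R σ E t V x x) (a0 σ E t x V) (R σ E t V x y) (hA V)).1
  have e2 : ∀ V : T d L → ℝ, R σ E t (Function.update V x 0) x x *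
      R σ E t (Function.update V x 0) x y = R σ E t V x x * R σ E t V x y +
        σ * (R σ E t V x x * (2 * V x * a0 σ E t x V + σ * (V x : ℂ) ^ 2 * a0 σ E t x V ^ 2) *
          R σ E t V x y) := by
    intro V
    rw [r3 ht V x y]
    exact (alg1 (V x : ℂ) σ (R σ E t V x x) (a0 σ E t x V) (R σ E t V x y) (hA V)).2
  have b1 := (BC.co x).mul ((R_BC (σ := σ) (E := E) ht x y).upd x)
  have b2 := ((BC.co x).powC 2).mul (((R_BC (σ := σ) (E := E) ht x x).mul
    (R_BC (σ := σ) (E := E) ht x y)).upd x)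
  have b3 := (((BC.co x).powC 3).mul ((a0_BC (σ := σ) (E := E) ht x).powC 2)).mul
    (R_BC (σ := σ) (E := E) ht x y)
  have b4 := (R_BC (σ := σ) (E := E) ht x x).mul (R_BC (σ := σ) (E := E) ht x y)
  have ha := a0_BC (σ := σ) (E := E) ht x
  have b5 := ((R_BC (σ := σ) (E := E) ht x x).mul ((((BC.const 2).mul (BC.co x)).mul
    ha).add (((BC.const (σ : ℂ)).mul ((BC.co x).powC 2)).mul
      (ha.powC 2)))).mul (R_BC (σ := σ) (E := E) ht x y)
  have g1 := fac1 x (R_BC (σ := σ) (E := E) ht x y).1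
  have g2 := fac2 x ((R_BC (σ := σ) (E := E) ht x x).mul (R_BC (σ := σ) (E := E) ht x y)).1
  have e3 : ∀ V : T d L → ℝ, rA σ E t x V * R σ E t V x y =
      (V x : ℂ) ^ 3 * a0 σ E t x V ^ 2 * R σ E t V x y -
      R σ E t V x x * (2 * V x * a0 σ E t x V + σ * (V x : ℂ) ^ 2 * a0 σ E t x V ^ 2) *
          R σ E t V x y := by
    intro V
    unfold rA
    ring
  simp only [e1, e3]
  rw [(b1.sub (b2.cmul _)).iadd (b3.cmul _), b1.isub (b2.cmul _), integral_const_mul,
    integral_const_mul, g1, g2, b3.isub b5]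
  simp only [e2]
  rw [b4.iadd (b5.cmul _), integral_const_mul]
  ring

/-- integration by parts up to third order, `F` -/
theorem ibpF (ht : 0 < t) (p x b : T d L) :
    ∫ V, (V x : ℂ) * Fm σ E t p V x b ∂(Γ (T d L)) =
      -σ * (∫ V, R σ E t V x x * Fm σ E t p V x b ∂(Γ (T d L)) +
        ∫ V, Fm σ E t p V x x * (starRingEnd ℂ) (R σ E t V b x) ∂(Γ (T d L))) +
        σ ^ 2 * (∫ V, rA σ E t x V * Fm σ E t p V x b ∂(Γ (T d L)) +
          ∫ V, rB σ E t x V * Fm σ E t p V x x * (starRingEnd ℂ) (R σ E t V b x)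
            ∂(Γ (T d L))) := by
  have hA := fun V : T d L → ℝ => a0_eq (σ := σ) (E := E) ht V x
  have hw' : ∀ V : T d L → ℝ, (starRingEnd ℂ) (ww σ E t x V) =
      1 + σ * V x * (starRingEnd ℂ) (a0 σ E t x V) := by
    intro V
    unfold ww
    rw [map_add, map_one, map_mul, map_mul, Complex.conj_ofReal, Complex.conj_ofReal]
  have e1 : ∀ V : T d L → ℝ, (V x : ℂ) * Fm σ E t p V x b =
      (V x : ℂ) * Fm σ E t p (Function.update V x 0) x b -
        σ * ((V x : ℂ) ^ 2 * (R σ E t (Function.update V x 0) x x *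
          Fm σ E t p (Function.update V x 0) x b +
          (starRingEnd ℂ) (R σ E t (Function.update V x 0) b x) *
            Fm σ E t p (Function.update V x 0) x x)) +
        σ ^ 2 * ((V x : ℂ) ^ 3 * a0 σ E t x V ^ 2 * Fm σ E t p V x b +
          (V x : ℂ) ^ 3 * (ww σ E t x V * (starRingEnd ℂ) (ww σ E t x V)) *
            (a0 σ E t x V + (starRingEnd ℂ) (a0 σ E t x V)) *
            ((starRingEnd ℂ) (R σ E t V b x) * Fm σ E t p V x x)) := by
    intro V
    rw [f2 ht p V x b, f1 ht p V x, r4 ht V x b, map_mul, hw']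
    exact (alg2 (V x : ℂ) σ (R σ E t V x x) (a0 σ E t x V) ((starRingEnd ℂ) (a0 σ E t x V))
      ((starRingEnd ℂ) (R σ E t V b x)) (Fm σ E t p V x x) (Fm σ E t p V x b) (hA V)).1
  have e2 : ∀ V : T d L → ℝ, R σ E t (Function.update V x 0) x x *
          Fm σ E t p (Function.update V x 0) x b +
          (starRingEnd ℂ) (R σ E t (Function.update V x 0) b x) *
            Fm σ E t p (Function.update V x 0) x x =
      R σ E t V x x * Fm σ E t p V x b +
        (starRingEnd ℂ) (R σ E t V b x) * Fm σ E t p V x x +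
        σ * (R σ E t V x x * (2 * V x * a0 σ E t x V + σ * (V x : ℂ) ^ 2 * a0 σ E t x V ^ 2) *
          Fm σ E t p V x b +
        (V x * R σ E t V x x * ww σ E t x V * (ww σ E t x V * (starRingEnd ℂ) (ww σ E t x V)) +
          V x * (2 * (starRingEnd ℂ) (a0 σ E t x V) + a0 σ E t x V) +
          σ * (V x : ℂ) ^ 2 * ((starRingEnd ℂ) (a0 σ E t x V) ^ 2 +
            2 * (a0 σ E t x V * (starRingEnd ℂ) (a0 σ E t x V))) +
          σ ^ 2 * (V x : ℂ) ^ 3 * (a0 σ E t x V * (starRingEnd ℂ) (a0 σ E t x V) ^ 2)) *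
          ((starRingEnd ℂ) (R σ E t V b x) * Fm σ E t p V x x)) := by
    intro V
    rw [f2 ht p V x b, f1 ht p V x, r4 ht V x b, map_mul, hw']
    exact (alg2 (V x : ℂ) σ (R σ E t V x x) (a0 σ E t x V) ((starRingEnd ℂ) (a0 σ E t x V))
      ((starRingEnd ℂ) (R σ E t V b x)) (Fm σ E t p V x x) (Fm σ E t p V x b) (hA V)).2
  have hR := R_BC (σ := σ) (E := E) ht x x
  have hc := (R_BC (σ := σ) (E := E) ht b x).conj
  have hF := F_BC (σ := σ) (E := E) ht p x b
  have hf := F_BC (σ := σ) (E := E) ht p x x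
  have ha := a0_BC (σ := σ) (E := E) ht x
  have hw := (ww_BC (σ := σ) (E := E) ht x).mul (ww_BC (σ := σ) (E := E) ht x).conj
  have hB0 : BC fun V : T d L → ℝ =>
      (V x * R σ E t V x x * ww σ E t x V * (ww σ E t x V * (starRingEnd ℂ) (ww σ E t x V)) +
          V x * (2 * (starRingEnd ℂ) (a0 σ E t x V) + a0 σ E t x V) +
          σ * (V x : ℂ) ^ 2 * ((starRingEnd ℂ) (a0 σ E t x V) ^ 2 +
            2 * (a0 σ E t x V * (starRingEnd ℂ) (a0 σ E t x V))) +
          σ ^ 2 * (V x : ℂ) ^ 3 * (a0 σ E t x V * (starRingEnd ℂ) (a0 σ E t x V) ^ 2)) := by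
    refine BC.add (BC.add (BC.add ?_ ?_) ?_) ?_
    · exact (((BC.co x).mul hR).mul (ww_BC ht x)).mul hw
    · exact (BC.co x).mul (((BC.const 2).mul ha.conj).add ha)
    · exact ((BC.const (σ : ℂ)).mul ((BC.co x).powC 2)).mul
        ((ha.conj.powC 2).add ((BC.const 2).mul (ha.mul ha.conj)))
    · exact ((BC.const ((σ : ℂ) ^ 2)).mul ((BC.co x).powC 3)).mul (ha.mul (ha.conj.powC 2))
  have b1 := (BC.co x).mul (hF.upd x)
  have b2 := ((BC.co x).powC 2).mul (((hR.mul hF).add (hc.mul hf)).upd x)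
  have b3 := (((BC.co x).powC 3).mul (ha.powC 2)).mul hF
  have b3' := ((((BC.co x).powC 3).mul hw).mul (ha.add ha.conj)).mul (hc.mul hf)
  have b4 := hR.mul hF
  have b4' := hc.mul hf
  have b5 := (hR.mul ((((BC.const 2).mul (BC.co x)).mul
    ha).add (((BC.const (σ : ℂ)).mul ((BC.co x).powC 2)).mul
      (ha.powC 2)))).mul hF
  have b5' := hB0.mul (hc.mul hf)
  have g1 := fac1 x hF.1
  have g2 := fac2 x ((hR.mul hF).add (hc.mul hf)).1
  have e3 : ∀ V : T d L → ℝ, rA σ E t x V * Fm σ E t p V x b =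
      (V x : ℂ) ^ 3 * a0 σ E t x V ^ 2 * Fm σ E t p V x b -
      R σ E t V x x * (2 * V x * a0 σ E t x V + σ * (V x : ℂ) ^ 2 * a0 σ E t x V ^ 2) *
          Fm σ E t p V x b := by
    intro V
    unfold rA
    ring
  have e4 : ∀ V : T d L → ℝ, rB σ E t x V * Fm σ E t p V x x *
      (starRingEnd ℂ) (R σ E t V b x) =
      (V x : ℂ) ^ 3 * (ww σ E t x V * (starRingEnd ℂ) (ww σ E t x V)) *
            (a0 σ E t x V + (starRingEnd ℂ) (a0 σ E t x V)) *
            ((starRingEnd ℂ) (R σ E t V b x) * Fm σ E t p V x x) -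
      (V x * R σ E t V x x * ww σ E t x V * (ww σ E t x V * (starRingEnd ℂ) (ww σ E t x V)) +
          V x * (2 * (starRingEnd ℂ) (a0 σ E t x V) + a0 σ E t x V) +
          σ * (V x : ℂ) ^ 2 * ((starRingEnd ℂ) (a0 σ E t x V) ^ 2 +
            2 * (a0 σ E t x V * (starRingEnd ℂ) (a0 σ E t x V))) +
          σ ^ 2 * (V x : ℂ) ^ 3 * (a0 σ E t x V * (starRingEnd ℂ) (a0 σ E t x V) ^ 2)) *
          ((starRingEnd ℂ) (R σ E t V b x) * Fm σ E t p V x x) := by
    intro V
    unfold rB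
    ring
  have e5 : ∀ V : T d L → ℝ, Fm σ E t p V x x * (starRingEnd ℂ) (R σ E t V b x) =
      (starRingEnd ℂ) (R σ E t V b x) * Fm σ E t p V x x := fun V => mul_comm _ _
  simp only [e1, e3, e4, e5]
  rw [(b1.sub (b2.cmul _)).iadd ((b3.add b3').cmul _), b1.isub (b2.cmul _),
    integral_const_mul, integral_const_mul, g1, g2, b3.iadd b3', b3.isub b5, b3'.isub b5']
  simp only [e2]
  rw [(b4.add b4').iadd ((b5.add b5').cmul _), b4.iadd b4', integral_const_mul, b5.iadd b5']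
  ring


end Run7.h108.GL
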