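import Pool.Agent.Run7.h108.GL.Pt
import Pool.Agent.Run7.h47.Var

/-! The variances of the diagonal of `R` and of `R A R*`, general laws: pathwise bounds. -/

set_option autoImplicit false
set_option linter.unusedSectionVars false

open scoped BigOperators Matrix
open MeasureTheory

namespace Run7.h108.GL

open Pool.Agent.Run7.h47 hiding Hyp good
open Pool.Agent.W788.MFP.Four Pool.Agent.W788.BK
open Pool.Agent.W788.MFP.Form

variable {d L : ℕ} [NeZero L] [Law]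

/-- the hypotheses for the variance bounds -/
structure Hyp (d L : ℕ) [NeZero L] [Law] (σ E t δ θ τ Q γ pb : ℝ)
    (G : Set (T d L → ℝ)) : Prop where
  ht : 0 < t
  ht1 : t ≤ 1
  hs1 : |σ| ≤ 1
  htδ : t ≤ δ
  hτ : 0 ≤ τ
  hστ : |σ| * (τ + Law.b * γ) ≤ 1 / 2
  hu : |σ| * (Law.b * (6 * γ * δ / t)) ≤ 1 / 2
  hQ0 : 0 ≤ Q
  hγ : 0 < γ
  hQ : ∀ P : T d L, ¬ Low θ P → ∑ k : T d L, (J E δ k * J E δ (k + P))⁻¹ ≤ Q * NN d L
  hg : gz d L E δ ≤ γ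
  hG : MeasurableSet G
  hP : (Γ (T d L)).real Gᶜ ≤ pb
  hf : ∀ V ∈ G, ∀ w : T d L → ℝ, |∑ x, V x * w x ^ 2| ≤ τ * q (J E δ) w
  hc : ∀ V ∈ G, ∀ x, |V x| ≤ Law.b

/-- the main term -/
noncomputable def Z0 (σ E t δ θ Q γ : ℝ) (V : T d L → ℝ) : ℝ :=
  (48 * Q * δ ^ 2 + lw d L θ) * ((R σ E t V 0 0).im / t) ^ 2 + 32 * Q * γ ^ 2

theorem Z0_nonneg {σ E t δ θ Q γ : ℝ} (hQ : 0 ≤ Q) (V : T d L → ℝ) :
    0 ≤ Z0 σ E t δ θ Q γ V := by
  have hlw := lw_nonneg (d := d) (L := L) θ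
  unfold Z0
  positivity

/-- the bound on the good event -/
theorem good {σ E t δ θ τ Q γ pb : ℝ} {G : Set (T d L → ℝ)}
    (H : Hyp d L σ E t δ θ τ Q γ pb G) (V : T d L → ℝ) (hV : V ∈ G) (h : T d L → ℂ)
    (hh : nsq h = (R σ E t V 0 0).im / t) :
    ∑ x, ‖R σ E t V 0 x‖ ^ 2 * ‖R σ E t V 0 x‖ ^ 2 ≤ Z0 σ E t δ θ Q γ V ∧
    ∑ x, ‖R σ E t V 0 x‖ ^ 2 * ‖(R σ E t V *ᵥ h) x‖ ^ 2 ≤
      (t ^ 2)⁻¹ * Z0 σ E t δ θ Q γ V := by
  obtain ⟨ht, ht1, hs1, htδ, hτ, hστ, hu, hQ0, hγ, hQ, hg, hG, hP, hf, hc⟩ := H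
  have hb := (Law.hb (self := ‹Law›)).le
  have hστ' : |σ| * τ ≤ 1 / 2 := by
    refine le_trans (mul_le_mul_of_nonneg_left ?_ (abs_nonneg σ)) hστ
    have : 0 ≤ Law.b * γ := mul_nonneg hb hγ.le
    linarith
  have hδ : 0 < δ := ht.trans_le htδ
  set U := (R σ E t V 0 0).im / t with hU
  have hU0 : 0 ≤ U := div_nonneg (R_im_nonneg ht V 0) ht.le
  set u : T d L → ℂ := R σ E t V *ᵥ Pi.single 0 1 with hu
  set w : T d L → ℂ := R σ E t V *ᵥ h with hw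
  have hux : ∀ x, R σ E t V 0 x = u x := by
    intro x
    rw [hu, Matrix.mulVec_single_one, R_symm]
    rfl
  have hun : nsq u = U := R_col_nsq ht V
  have hwn : nsq w ≤ (t ^ 2)⁻¹ * U := by
    rw [← hh]
    exact R_mul_nsq ht V h
  have h1 : HZ σ E t V *ᵥ u = Pi.single 0 1 := by
    rw [hu, Matrix.mulVec_mulVec, HZ_mul ht, Matrix.one_mulVec]
  have h2 : HZ σ E t V *ᵥ w = h := by
    rw [hw, Matrix.mulVec_mulVec, HZ_mul ht, Matrix.one_mulVec]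
  have hJn : ∀ v : T d L → ℂ, 0 ≤ qc (J E δ) v := fun v => qc_nonneg _ _ fun k =>
    (J_pos E δ hδ k).le
  have q1 : qc (J E δ) u ≤ 4 * δ * U + 4 * γ := by
    have h3 := off σ E t δ τ hδ hτ hστ' V (hf V hV) u _ h1
    rw [qc_single, hun] at h3
    linarith
  have q2 : qc (J E δ) w ≤ 8 * δ * ((t ^ 2)⁻¹ * U) := by
    have h3 := off σ E t δ τ hδ hτ hστ' V (hf V hV) w _ h2
    have h4 := qc_inv_le (d := d) (L := L) E δ hδ h
    rw [hh] at h4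
    have h5 : δ⁻¹ * U ≤ δ * ((t ^ 2)⁻¹ * U) := by
      rw [← mul_assoc]
      refine mul_le_mul_of_nonneg_right ?_ hU0
      rw [← div_eq_mul_inv, le_div_iff₀ (by positivity), inv_mul_le_iff₀ hδ]
      nlinarith
    have h6 : 4 * δ * nsq w ≤ 4 * δ * ((t ^ 2)⁻¹ * U) := by gcongr
    linarith
  have b1 := bil E δ θ Q hδ hQ0 hQ u u
  have b2 := bil E δ θ Q hδ hQ0 hQ u w
  have hlw := lw_nonneg (d := d) (L := L) θ
  unfold Z0
  constructor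
  · simp only [hux]
    refine b1.trans ?_
    rw [hun]
    have h7 : qc (J E δ) u * qc (J E δ) u ≤ (4 * δ * U + 4 * γ) * (4 * δ * U + 4 * γ) :=
      mul_le_mul q1 q1 (hJn u) ((hJn u).trans q1)
    have h8 := mul_le_mul_of_nonneg_left h7 hQ0
    have h9 : 0 ≤ Q * (δ * U - γ) ^ 2 := by positivity
    have h10 : 0 ≤ Q * (δ * U) ^ 2 := by positivity
    rw [← hux, ← hU]
    nlinarith
  · simp only [hux]
    refine b2.trans ?_
    rw [hun]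
    have h7 : qc (J E δ) u * qc (J E δ) w ≤
        (4 * δ * U + 4 * γ) * (8 * δ * ((t ^ 2)⁻¹ * U)) :=
      mul_le_mul q1 q2 (hJn w) ((hJn u).trans q1)
    have h8 := mul_le_mul_of_nonneg_left h7 hQ0
    have h9 : lw d L θ * (U * nsq w) ≤ lw d L θ * (U * ((t ^ 2)⁻¹ * U)) := by gcongr
    have h10 : Q * ((4 * δ * U + 4 * γ) * (8 * δ * ((t ^ 2)⁻¹ * U))) ≤
        (t ^ 2)⁻¹ * (48 * Q * δ ^ 2 * U ^ 2 + 32 * Q * γ ^ 2) := by
      have e1 : Q * ((4 * δ * U + 4 * γ) * (8 * δ * ((t ^ 2)⁻¹ * U))) =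
          (t ^ 2)⁻¹ * (Q * (32 * δ ^ 2 * U ^ 2 + 32 * δ * γ * U)) := by ring
      rw [e1]
      refine mul_le_mul_of_nonneg_left ?_ (by positivity)
      have h11 : 0 ≤ Q * (δ * U - γ) ^ 2 := by positivity
      have h12 : 0 ≤ Q * γ ^ 2 := by positivity
      nlinarith
    rw [← hux, ← hU]
    calc _ ≤ (t ^ 2)⁻¹ * (48 * Q * δ ^ 2 * U ^ 2 + 32 * Q * γ ^ 2) +
        lw d L θ * (U * ((t ^ 2)⁻¹ * U)) := by linarith
      _ = _ := by ring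

/-- the diagonal with one variable switched off, on the good event -/
theorem a0_good {σ E t δ θ τ Q γ pb : ℝ} {G : Set (T d L → ℝ)}
    (H : Hyp d L σ E t δ θ τ Q γ pb G) (V : T d L → ℝ) (hV : V ∈ G) (x : T d L) :
    ‖a0 σ E t x V‖ ≤ 6 * γ * δ / t := by
  have hδ : 0 < δ := H.ht.trans_le H.htδ
  have hb := (Law.hb (self := ‹Law›)).le
  refine diag H.ht H.htδ (add_nonneg H.hτ (mul_nonneg hb H.hγ.le)) H.hστ H.hγ H.hg _
    (fun w => ?_) x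
  exact upd_form hδ H.hγ H.hg V (H.hc V hV) (H.hf V hV) x w

theorem R_good {σ E t δ θ τ Q γ pb : ℝ} {G : Set (T d L → ℝ)}
    (H : Hyp d L σ E t δ θ τ Q γ pb G) (V : T d L → ℝ) (hV : V ∈ G) (x : T d L) :
    ‖R σ E t V x x‖ ≤ 6 * γ * δ / t := by
  have hb := (Law.hb (self := ‹Law›)).le
  have hστ' : |σ| * τ ≤ 1 / 2 := by
    refine le_trans (mul_le_mul_of_nonneg_left ?_ (abs_nonneg σ)) H.hστ
    have : 0 ≤ Law.b * γ := mul_nonneg hb H.hγ.le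
    linarith
  exact diag H.ht H.htδ H.hτ hστ' H.hγ H.hg _ (H.hf V hV) x

theorem sva {σ E t δ θ τ Q γ pb : ℝ} {G : Set (T d L → ℝ)}
    (H : Hyp d L σ E t δ θ τ Q γ pb G) (V : T d L → ℝ) (hV : V ∈ G) (x : T d L) :
    ‖(σ : ℂ) * V x * a0 σ E t x V‖ ≤ 1 / 2 := by
  rw [norm_mul, norm_mul, Complex.norm_real, Complex.norm_real, Real.norm_eq_abs,
    Real.norm_eq_abs, mul_assoc]
  refine le_trans (mul_le_mul_of_nonneg_left ?_ (abs_nonneg σ)) H.hu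
  exact mul_le_mul (H.hc V hV x) (a0_good H V hV x) (norm_nonneg _)
    ((abs_nonneg _).trans (H.hc V hV x))

theorem ww_good {σ E t δ θ τ Q γ pb : ℝ} {G : Set (T d L → ℝ)}
    (H : Hyp d L σ E t δ θ τ Q γ pb G) (V : T d L → ℝ) (hV : V ∈ G) (x : T d L) :
    ‖ww σ E t x V‖ ≤ 3 / 2 := by
  unfold ww
  refine (norm_add_le _ _).trans ?_
  rw [norm_one]
  linarith [sva H V hV x]

theorem F_diag_le {σ E t : ℝ} (ht : 0 < t) (p : T d L) (V : T d L → ℝ) (x : T d L) :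
    ‖Fm σ E t p V x x‖ ≤ (R σ E t V x x).im / t := by
  rw [← R_ward ht]
  unfold Fm
  refine (norm_sum_le _ _).trans (le_of_eq ?_)
  refine Finset.sum_congr rfl fun w _ => ?_
  rw [norm_mul, norm_mul, RCLike.norm_conj, norm_e, mul_one, sq]

theorem aux1 {s b v w r c : ℝ} (hs : 0 ≤ s) (hb : 0 ≤ b) (hv : v ≤ b)
    (hw0 : 0 ≤ w) (hw : w ≤ 3 / 2) (hr : 0 ≤ r) (hrc : r ≤ c) :
    s * v * (w * r) ≤ s * b * (3 / 2 * c) := by
  have h1 : s * v ≤ s * b := mul_le_mul_of_nonneg_left hv hs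
  have h2 : w * r ≤ 3 / 2 * c := mul_le_mul hw hrc hr (by norm_num)
  exact mul_le_mul h1 h2 (mul_nonneg hw0 hr) (mul_nonneg hs hb)

theorem aux2 (s b r f g t : ℝ) :
    (s * b * (3 / 2 * (r * f)) + s * b * (3 / 2 * (r * (g + 1 / 2 * t⁻¹ * r)))) ^ 2 ≤
      12 * (s ^ 2 * b ^ 2) * (r ^ 2 * f ^ 2 + r ^ 2 * g ^ 2 +
        (t ^ 2)⁻¹ * (r ^ 2 * r ^ 2)) := by
  rw [← inv_pow]
  set u := t⁻¹
  have h3 : (s * b * (3 / 2 * (r * f)) + s * b * (3 / 2 * (r * (g + 1 / 2 * u * r)))) ^ 2 =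
      9 / 4 * ((s * b) ^ 2 * (r * f + r * g + 1 / 2 * (u * (r * r))) ^ 2) := by ring
  have h4 : (r * f + r * g + 1 / 2 * (u * (r * r))) ^ 2 ≤
      3 * (r ^ 2 * f ^ 2 + r ^ 2 * g ^ 2 + u ^ 2 * (r ^ 2 * r ^ 2)) := by
    have h5 : u ^ 2 * (r ^ 2 * r ^ 2) = (u * (r * r)) ^ 2 := by ring
    rw [h5]
    nlinarith [sq_nonneg (r * f - r * g), sq_nonneg (r * f - 1 / 2 * (u * (r * r))),
      sq_nonneg (r * g - 1 / 2 * (u * (r * r))), sq_nonneg (u * (r * r))]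
  have h5 := mul_le_mul_of_nonneg_left h4 (sq_nonneg (s * b))
  have h6 : 0 ≤ (s * b) ^ 2 * (r ^ 2 * f ^ 2 + r ^ 2 * g ^ 2 + u ^ 2 * (r ^ 2 * r ^ 2)) :=
    mul_nonneg (sq_nonneg _) (by positivity)
  rw [h3]
  nlinarith

/-- one term of the Efron-Stein sum, resolvent -/
theorem dR_good {σ E t δ θ τ Q γ pb : ℝ} {G : Set (T d L → ℝ)}
    (H : Hyp d L σ E t δ θ τ Q γ pb G) (V : T d L → ℝ) (hV : V ∈ G) (x : T d L) :
    ‖R σ E t V 0 0 - R σ E t (Function.update V x 0) 0 0‖ ^ 2 ≤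
      36 * (σ ^ 2 * Law.b ^ 2) * (‖R σ E t V 0 x‖ ^ 2 * ‖R σ E t V 0 x‖ ^ 2) := by
  have h1 : R σ E t V 0 0 - R σ E t (Function.update V x 0) 0 0 =
      -(σ * V x * (ww σ E t x V * (R σ E t V 0 x * R σ E t V 0 x))) := by
    rw [r1 H.ht V x 0 0, r4 H.ht, R_symm σ E t V x 0]
    ring
  rw [h1, norm_neg, norm_mul, norm_mul, norm_mul, norm_mul, Complex.norm_real,
    Complex.norm_real, Real.norm_eq_abs, Real.norm_eq_abs]
  have hw := ww_good H V hV x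
  have hc := H.hc V hV x
  set r := ‖R σ E t V 0 x‖ with hr
  have hr0 : 0 ≤ r := norm_nonneg _
  have h2 : |σ| * |V x| * (‖ww σ E t x V‖ * (r * r)) ≤ |σ| * Law.b * (3 / 2 * (r * r)) :=
    aux1 (abs_nonneg _) (Law.hb (self := ‹Law›)).le hc (norm_nonneg _) hw
      (mul_nonneg hr0 hr0) le_rfl
  refine (pow_le_pow_left₀ (by positivity) h2 2).trans ?_
  have h3 : (|σ| * Law.b * (3 / 2 * (r * r))) ^ 2 =
      9 / 4 * (σ ^ 2 * Law.b ^ 2) * (r ^ 2 * r ^ 2) := by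
    rw [← sq_abs σ]
    ring
  rw [h3]
  have h4 : 0 ≤ (σ ^ 2 * Law.b ^ 2) * (r ^ 2 * r ^ 2) := by positivity
  nlinarith

/-- one term of the Efron-Stein sum, `F` -/
theorem dF_good {σ E t δ θ τ Q γ pb : ℝ} {G : Set (T d L → ℝ)}
    (H : Hyp d L σ E t δ θ τ Q γ pb G) (V : T d L → ℝ) (hV : V ∈ G) (p x : T d L) :
    ‖Fm σ E t p V 0 0 - Fm σ E t p (Function.update V x 0) 0 0‖ ^ 2 ≤
      12 * (σ ^ 2 * Law.b ^ 2) * (‖R σ E t V 0 x‖ ^ 2 * ‖Fm σ E t p V x 0‖ ^ 2 +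
        ‖R σ E t V 0 x‖ ^ 2 * ‖Fm σ E t p V 0 x‖ ^ 2 +
        (t ^ 2)⁻¹ * (‖R σ E t V 0 x‖ ^ 2 * ‖R σ E t V 0 x‖ ^ 2)) := by
  have ht := H.ht
  have hw := ww_good H V hV x
  have hc := H.hc V hV x
  have hb := (Law.hb (self := ‹Law›)).le
  have h0 : ‖(σ : ℂ) * V x * ww σ E t x V * (R σ E t V 0 x * Fm σ E t p V x x)‖ ≤
      1 / 2 * t⁻¹ * ‖R σ E t V 0 x‖ := by
    have h1 : ‖(σ : ℂ) * V x * ww σ E t x V * (R σ E t V 0 x * Fm σ E t p V x x)‖ =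
        ‖(σ : ℂ) * V x‖ * ‖ww σ E t x V‖ * ‖Fm σ E t p V x x‖ * ‖R σ E t V 0 x‖ := by
      rw [norm_mul, norm_mul ((σ : ℂ) * V x), norm_mul (R σ E t V 0 x)]
      ring
    rw [h1]
    refine mul_le_mul_of_nonneg_right ?_ (norm_nonneg _)
    have h2 : ‖Fm σ E t p V x x‖ ≤ ‖R σ E t V x x‖ * t⁻¹ := by
      refine (F_diag_le ht p V x).trans ?_
      rw [div_eq_mul_inv]
      refine mul_le_mul_of_nonneg_right ?_ (by positivity)
      exact (le_abs_self _).trans (Complex.abs_im_le_norm _)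
    calc ‖(σ : ℂ) * V x‖ * ‖ww σ E t x V‖ * ‖Fm σ E t p V x x‖ ≤
        ‖(σ : ℂ) * V x‖ * ‖ww σ E t x V‖ * (‖R σ E t V x x‖ * t⁻¹) := by gcongr
      _ = ‖(σ : ℂ) * V x * a0 σ E t x V‖ * t⁻¹ := by
          rw [a0_eq ht, norm_mul ((σ : ℂ) * V x), norm_mul (ww σ E t x V)]
          ring
      _ ≤ 1 / 2 * t⁻¹ := mul_le_mul_of_nonneg_right (sva H V hV x) (by positivity)
  rw [f4 ht p V x]
  set r := ‖R σ E t V 0 x‖ with hr
  set f := ‖Fm σ E t p V x 0‖ with hf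
  set g := ‖Fm σ E t p V 0 x‖ with hg
  have hr0 : 0 ≤ r := norm_nonneg _
  have hf0 : 0 ≤ f := norm_nonneg _
  have hg0 : 0 ≤ g := norm_nonneg _
  have h1 : ‖-(σ * V x * (ww σ E t x V * (R σ E t V 0 x * Fm σ E t p V x 0))) -
      σ * V x * ((starRingEnd ℂ) (ww σ E t x V) * ((starRingEnd ℂ) (R σ E t V 0 x) *
        (Fm σ E t p V 0 x +
        σ * V x * ww σ E t x V * (R σ E t V 0 x * Fm σ E t p V x x))))‖ ≤
      |σ| * Law.b * (3 / 2 * (r * f)) + |σ| * Law.b * (3 / 2 * (r * (g + 1 / 2 * t⁻¹ * r))) := by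
    refine (norm_sub_le _ _).trans (add_le_add ?_ ?_)
    · rw [norm_neg, norm_mul, norm_mul, norm_mul, norm_mul, Complex.norm_real,
        Complex.norm_real, Real.norm_eq_abs, Real.norm_eq_abs]
      exact aux1 (abs_nonneg _) hb hc (norm_nonneg _) hw (mul_nonneg hr0 hf0) le_rfl
    · rw [norm_mul, norm_mul, norm_mul, norm_mul, Complex.norm_real,
        Complex.norm_real, Real.norm_eq_abs, Real.norm_eq_abs, RCLike.norm_conj,
        RCLike.norm_conj]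
      have h2 : ‖Fm σ E t p V 0 x + σ * V x * ww σ E t x V *
          (R σ E t V 0 x * Fm σ E t p V x x)‖ ≤ g + 1 / 2 * t⁻¹ * r :=
        (norm_add_le _ _).trans (add_le_add le_rfl h0)
      exact aux1 (abs_nonneg _) hb hc (norm_nonneg _) hw (mul_nonneg hr0 (norm_nonneg _))
        (mul_le_mul_of_nonneg_left h2 hr0)
  refine (pow_le_pow_left₀ (norm_nonneg _) h1 2).trans ?_
  rw [← sq_abs σ]
  exact aux2 _ _ _ _ _ _

end Run7.h108.GL
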