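import Pool.Agent.Run7.h108.GL.Var

/-! The variances of the diagonal of `R` and of `R A R*`, general laws: integrated bounds. -/

set_option autoImplicit false
set_option linter.unusedSectionVars false

open scoped BigOperators Matrix
open MeasureTheory

namespace Run7.h108.GL

open Pool.Agent.Run7.h47 hiding Hyp good
open Pool.Agent.W788.MFP.Four Pool.Agent.W788.BK
open Pool.Agent.W788.MFP.Form

variable {d L : ℕ} [NeZero L] [Law]

theorem card_T : (Fintype.card (T d L) : ℝ) = NN d L := by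
  unfold NN
  rw [Fintype.card_fun, ZMod.card, Fintype.card_fin]
  push_cast
  rfl

/-- the pathwise bound -/
noncomputable def ZZ (σ E t δ θ Q γ : ℝ) (G : Set (T d L → ℝ)) (V : T d L → ℝ) : ℝ :=
  36 * (σ ^ 2 * Law.b ^ 2) * Z0 σ E t δ θ Q γ V +
    Set.indicator Gᶜ (fun _ => 4 * NN d L * (t ^ 2)⁻¹) V

/-- the variance of the diagonal -/
noncomputable def W1 (d L : ℕ) [NeZero L] (σ E t : ℝ) : ℝ :=
  ∫ V, ‖R σ E t V (0 : T d L) 0 - mm d L σ E t‖ ^ 2 ∂(Γ (T d L))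

theorem W1_nonneg (σ E t : ℝ) : 0 ≤ W1 d L σ E t := integral_nonneg fun _ => by positivity

theorem F_bd {σ E t : ℝ} (ht : 0 < t) (p : T d L) (V : T d L → ℝ) (x : T d L) :
    ‖Fm σ E t p V x x‖ ≤ (t ^ 2)⁻¹ := by
  refine (F_diag_le ht p V x).trans ?_
  rw [← R_ward ht]
  exact R_sum_le ht V x

section
variable {σ E t δ θ τ Q γ pb : ℝ} {G : Set (T d L → ℝ)}

theorem sumR (H : Hyp d L σ E t δ θ τ Q γ pb G) (V : T d L → ℝ) :
    ∑ y, ‖R σ E t V 0 0 - R σ E t (Function.update V y 0) 0 0‖ ^ 2 ≤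
      ZZ σ E t δ θ Q γ G V := by
  have ht := H.ht
  unfold ZZ
  have hsb : 0 ≤ σ ^ 2 * Law.b ^ 2 := mul_nonneg (sq_nonneg _) (sq_nonneg _)
  by_cases hV : V ∈ G
  · rw [Set.indicator_of_notMem (by simpa using hV), add_zero]
    have hn0 : nsq (fun x => (starRingEnd ℂ) (R σ E t V 0 x)) = (R σ E t V 0 0).im / t := by
      unfold nsq
      simp only [RCLike.norm_conj]
      exact R_ward ht V 0
    have h1 := (good H V hV _ hn0).1
    calc ∑ y, ‖R σ E t V 0 0 - R σ E t (Function.update V y 0) 0 0‖ ^ 2 ≤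
        ∑ y, 36 * (σ ^ 2 * Law.b ^ 2) * (‖R σ E t V 0 y‖ ^ 2 * ‖R σ E t V 0 y‖ ^ 2) :=
          Finset.sum_le_sum fun y _ => dR_good H V hV y
      _ = 36 * (σ ^ 2 * Law.b ^ 2) * ∑ y, ‖R σ E t V 0 y‖ ^ 2 * ‖R σ E t V 0 y‖ ^ 2 := by
          rw [Finset.mul_sum]
      _ ≤ _ := mul_le_mul_of_nonneg_left h1 (by positivity)
  · rw [Set.indicator_of_mem (by simpa using hV)]
    have h1 : ∀ y : T d L, ‖R σ E t V 0 0 - R σ E t (Function.update V y 0) 0 0‖ ^ 2 ≤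
        4 * (t ^ 2)⁻¹ := by
      intro y
      have h2 : ‖R σ E t V 0 0 - R σ E t (Function.update V y 0) 0 0‖ ≤ t⁻¹ + t⁻¹ :=
        (norm_sub_le _ _).trans (add_le_add (R_bd ht _ _ _) (R_bd ht _ _ _))
      refine (pow_le_pow_left₀ (norm_nonneg _) h2 2).trans (le_of_eq ?_)
      rw [← inv_pow]
      ring
    have h2 : ∑ y, ‖R σ E t V 0 0 - R σ E t (Function.update V y 0) 0 0‖ ^ 2 ≤
        4 * NN d L * (t ^ 2)⁻¹ := by
      refine (Finset.sum_le_sum fun y _ => h1 y).trans (le_of_eq ?_)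
      rw [Finset.sum_const, Finset.card_univ, nsmul_eq_mul, card_T]
      ring
    have h3 := Z0_nonneg (σ := σ) (E := E) (t := t) (δ := δ) (θ := θ) (γ := γ) H.hQ0 V
    have h4 : 0 ≤ 36 * (σ ^ 2 * Law.b ^ 2) * Z0 σ E t δ θ Q γ V := by positivity
    linarith

theorem sumF (H : Hyp d L σ E t δ θ τ Q γ pb G) (p : T d L) (V : T d L → ℝ) :
    ∑ y, ‖Fm σ E t p V 0 0 - Fm σ E t p (Function.update V y 0) 0 0‖ ^ 2 ≤
      (t ^ 2)⁻¹ * ZZ σ E t δ θ Q γ G V := by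
  have ht := H.ht
  unfold ZZ
  have hsb : 0 ≤ σ ^ 2 * Law.b ^ 2 := mul_nonneg (sq_nonneg _) (sq_nonneg _)
  by_cases hV : V ∈ G
  · rw [Set.indicator_of_notMem (by simpa using hV), add_zero]
    have hn0 : nsq (fun x => (starRingEnd ℂ) (R σ E t V 0 x)) = (R σ E t V 0 0).im / t := by
      unfold nsq
      simp only [RCLike.norm_conj]
      exact R_ward ht V 0
    obtain ⟨h, hh⟩ : ∃ h : T d L → ℂ, h = fun w => e p w * (starRingEnd ℂ) (R σ E t V 0 w) :=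
      ⟨_, rfl⟩
    obtain ⟨h', hh'⟩ : ∃ h : T d L → ℂ, h = fun w => (starRingEnd ℂ) (R σ E t V 0 w * e p w) :=
      ⟨_, rfl⟩
    have n1 : nsq h = (R σ E t V 0 0).im / t := by
      rw [← hn0]
      unfold nsq
      refine Finset.sum_congr rfl fun w _ => ?_
      rw [hh]
      simp only [norm_mul, norm_e, one_mul]
    have n2 : nsq h' = (R σ E t V 0 0).im / t := by
      rw [← hn0]
      unfold nsq
      refine Finset.sum_congr rfl fun w _ => ?_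
      rw [hh']
      simp only [norm_mul, RCLike.norm_conj, norm_e, mul_one]
    have f1 : ∀ y, Fm σ E t p V y 0 = (R σ E t V *ᵥ h) y := by
      intro y
      unfold Fm Matrix.mulVec dotProduct
      exact Finset.sum_congr rfl fun w _ => by rw [hh]; ring
    have f2 : ∀ y, ‖Fm σ E t p V 0 y‖ = ‖(R σ E t V *ᵥ h') y‖ := by
      intro y
      rw [← RCLike.norm_conj]
      congr 1
      unfold Fm Matrix.mulVec dotProduct
      rw [map_sum]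
      refine Finset.sum_congr rfl fun w _ => ?_
      rw [hh', map_mul, Complex.conj_conj]
      ring
    have g1 := (good H V hV h n1).2
    have g2 := (good H V hV h' n2).2
    have g3 := (good H V hV h n1).1
    simp only [← f1] at g1
    simp only [← f2] at g2
    have ht2 : 0 ≤ (t ^ 2)⁻¹ := by positivity
    have g4 := mul_le_mul_of_nonneg_left g3 ht2
    calc ∑ y, ‖Fm σ E t p V 0 0 - Fm σ E t p (Function.update V y 0) 0 0‖ ^ 2 ≤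
        ∑ y, 12 * (σ ^ 2 * Law.b ^ 2) * (‖R σ E t V 0 y‖ ^ 2 * ‖Fm σ E t p V y 0‖ ^ 2 +
          ‖R σ E t V 0 y‖ ^ 2 * ‖Fm σ E t p V 0 y‖ ^ 2 +
          (t ^ 2)⁻¹ * (‖R σ E t V 0 y‖ ^ 2 * ‖R σ E t V 0 y‖ ^ 2)) :=
          Finset.sum_le_sum fun y _ => dF_good H V hV p y
      _ = 12 * (σ ^ 2 * Law.b ^ 2) * (∑ y, ‖R σ E t V 0 y‖ ^ 2 * ‖Fm σ E t p V y 0‖ ^ 2 +
          ∑ y, ‖R σ E t V 0 y‖ ^ 2 * ‖Fm σ E t p V 0 y‖ ^ 2 +
          (t ^ 2)⁻¹ * ∑ y, (‖R σ E t V 0 y‖ ^ 2 * ‖R σ E t V 0 y‖ ^ 2)) := by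
          rw [← Finset.mul_sum, Finset.sum_add_distrib, Finset.sum_add_distrib,
            Finset.mul_sum Finset.univ _ ((t ^ 2)⁻¹)]
      _ ≤ 12 * (σ ^ 2 * Law.b ^ 2) * ((t ^ 2)⁻¹ * Z0 σ E t δ θ Q γ V +
          (t ^ 2)⁻¹ * Z0 σ E t δ θ Q γ V + (t ^ 2)⁻¹ * Z0 σ E t δ θ Q γ V) :=
          mul_le_mul_of_nonneg_left (add_le_add (add_le_add g1 g2) g4) (by positivity)
      _ = _ := by ring
  · rw [Set.indicator_of_mem (by simpa using hV)]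
    have h1 : ∀ y : T d L, ‖Fm σ E t p V 0 0 - Fm σ E t p (Function.update V y 0) 0 0‖ ^ 2 ≤
        4 * ((t ^ 2)⁻¹ * (t ^ 2)⁻¹) := by
      intro y
      have h2 : ‖Fm σ E t p V 0 0 - Fm σ E t p (Function.update V y 0) 0 0‖ ≤
          (t ^ 2)⁻¹ + (t ^ 2)⁻¹ :=
        (norm_sub_le _ _).trans (add_le_add (F_bd ht _ _ _) (F_bd ht _ _ _))
      refine (pow_le_pow_left₀ (norm_nonneg _) h2 2).trans (le_of_eq ?_)
      ring
    have h2 : ∑ y, ‖Fm σ E t p V 0 0 - Fm σ E t p (Function.update V y 0) 0 0‖ ^ 2 ≤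
        (t ^ 2)⁻¹ * (4 * NN d L * (t ^ 2)⁻¹) := by
      refine (Finset.sum_le_sum fun y _ => h1 y).trans (le_of_eq ?_)
      rw [Finset.sum_const, Finset.card_univ, nsmul_eq_mul, card_T]
      ring
    have h3 := Z0_nonneg (σ := σ) (E := E) (t := t) (δ := δ) (θ := θ) (γ := γ) H.hQ0 V
    have h4 : 0 ≤ (t ^ 2)⁻¹ * (36 * (σ ^ 2 * Law.b ^ 2) * Z0 σ E t δ θ Q γ V) := by positivity
    rw [mul_add]
    linarith

theorem im_sq (H : Hyp d L σ E t δ θ τ Q γ pb G) :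
    Integrable (fun V : T d L → ℝ => ((R σ E t V 0 0).im / t) ^ 2) (Γ (T d L)) ∧
    ∫ V, ((R σ E t V 0 0).im / t) ^ 2 ∂(Γ (T d L)) ≤ (t ^ 2)⁻¹ *
      (2 * W1 d L σ E t + 2 * (mm d L σ E t).im ^ 2) := by
  have ht := H.ht
  have b0 := R_BC (σ := σ) (E := E) ht (0 : T d L) 0
  have b1 : BC fun V : T d L → ℝ => ((R σ E t V 0 0).im / t) ^ 2 := by
    have : BC fun V : T d L → ℝ => ((R σ E t V 0 0).im * t⁻¹) ^ 2 :=
      (b0.im.mulR (BC.const t⁻¹)).powR 2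
    simpa only [div_eq_mul_inv] using this
  refine ⟨b1.intR, ?_⟩
  have e3 : ∀ V : T d L → ℝ, ((R σ E t V 0 0).im / t) ^ 2 ≤ (t ^ 2)⁻¹ *
      (2 * ‖R σ E t V 0 0 - mm d L σ E t‖ ^ 2 + 2 * (mm d L σ E t).im ^ 2) := by
    intro V
    rw [div_pow, div_eq_inv_mul]
    refine mul_le_mul_of_nonneg_left ?_ (by positivity)
    have h1 : ((R σ E t V 0 0).im - (mm d L σ E t).im) ^ 2 ≤
        ‖R σ E t V 0 0 - mm d L σ E t‖ ^ 2 := by
      rw [← sq_abs]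
      refine pow_le_pow_left₀ (abs_nonneg _) ?_ 2
      rw [← Complex.sub_im]
      exact Complex.abs_im_le_norm _
    nlinarith [sq_nonneg ((R σ E t V 0 0).im - 2 * (mm d L σ E t).im)]
  have b2 : BC fun V : T d L → ℝ => ‖R σ E t V 0 0 - mm d L σ E t‖ ^ 2 :=
    (b0.sub (BC.const _)).nsq
  refine (integral_mono b1.intR ?_ e3).trans (le_of_eq ?_)
  · exact ((b2.intR.const_mul 2).add (integrable_const _)).const_mul _
  · rw [integral_const_mul, integral_add (b2.intR.const_mul 2) (integrable_const _),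
      integral_const_mul]
    simp [W1]

theorem Z_int (H : Hyp d L σ E t δ θ τ Q γ pb G) :
    Integrable (ZZ σ E t δ θ Q γ G) (Γ (T d L)) ∧
    ∫ V, ZZ σ E t δ θ Q γ G V ∂(Γ (T d L)) ≤
      36 * (σ ^ 2 * Law.b ^ 2) * ((48 * Q * δ ^ 2 + lw d L θ) * ((t ^ 2)⁻¹ *
      (2 * W1 d L σ E t + 2 * (mm d L σ E t).im ^ 2)) + 32 * Q * γ ^ 2) +
      4 * NN d L * (t ^ 2)⁻¹ * pb := by
  have ht := H.ht
  have hQ0 := H.hQ0
  have hlw := lw_nonneg (d := d) (L := L) θ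
  obtain ⟨i0, hi0⟩ := im_sq H
  have i1 : Integrable (fun V : T d L → ℝ => (48 * Q * δ ^ 2 + lw d L θ) *
      ((R σ E t V 0 0).im / t) ^ 2) (Γ (T d L)) := i0.const_mul _
  have i2 : Integrable (fun V : T d L → ℝ => Z0 σ E t δ θ Q γ V) (Γ (T d L)) :=
    i1.add (integrable_const _)
  have i3 : Integrable (Set.indicator Gᶜ fun _ : T d L → ℝ => 4 * NN d L * (t ^ 2)⁻¹)
      (Γ (T d L)) := (integrable_const _).indicator H.hG.compl
  refine ⟨(i2.const_mul _).add i3, ?_⟩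
  have j1 : ∫ V, ZZ σ E t δ θ Q γ G V ∂(Γ (T d L)) =
      ∫ V, 36 * (σ ^ 2 * Law.b ^ 2) * Z0 σ E t δ θ Q γ V ∂(Γ (T d L)) +
      ∫ V, Set.indicator Gᶜ (fun _ : T d L → ℝ => 4 * NN d L * (t ^ 2)⁻¹) V ∂(Γ (T d L)) :=
    integral_add (i2.const_mul _) i3
  have j2 : ∫ V, Z0 σ E t δ θ Q γ V ∂(Γ (T d L)) = (48 * Q * δ ^ 2 + lw d L θ) *
      ∫ V, ((R σ E t V 0 0).im / t) ^ 2 ∂(Γ (T d L)) + 32 * Q * γ ^ 2 := by
    unfold Z0
    rw [integral_add i1 (integrable_const _), integral_const_mul]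
    simp
  rw [j1, integral_const_mul, j2, integral_indicator H.hG.compl, setIntegral_const, smul_eq_mul]
  have hN : 0 ≤ 4 * NN d L * (t ^ 2)⁻¹ := by
    have := NN_pos (d := d) (L := L)
    positivity
  have h3 := mul_le_mul_of_nonneg_left H.hP hN
  have h4 := mul_le_mul_of_nonneg_left hi0 (show 0 ≤ 48 * Q * δ ^ 2 + lw d L θ by positivity)
  have h5 := mul_le_mul_of_nonneg_left (add_le_add_left h4 (32 * Q * γ ^ 2))
    (show 0 ≤ 36 * (σ ^ 2 * Law.b ^ 2) by positivity)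
  linarith

/-- the variances without the third order correction -/
theorem var0 (H : Hyp d L σ E t δ θ τ Q γ pb G)
    (hα : 72 * (σ ^ 2 * Law.b ^ 2) * (48 * Q * δ ^ 2 + lw d L θ) * (t ^ 2)⁻¹ ≤ 1 / 2) :
    ∃ Λ : ℝ, 0 ≤ Λ ∧ W1 d L σ E t ≤ Λ ∧ (∀ p : T d L, W2 σ E t p ≤ (t ^ 2)⁻¹ * Λ) ∧
      Λ ≤ 2 * (72 * (σ ^ 2 * Law.b ^ 2) * (48 * Q * δ ^ 2 + lw d L θ) * (t ^ 2)⁻¹) *
        (mm d L σ E t).im ^ 2 +
        2 * (36 * (σ ^ 2 * Law.b ^ 2) * (32 * Q * γ ^ 2) + 4 * NN d L * (t ^ 2)⁻¹ * pb) := by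
  have ht := H.ht
  obtain ⟨iZ, hZ⟩ := Z_int H
  have c1 : W1 d L σ E t ≤ ∫ V, ZZ σ E t δ θ Q γ G V ∂(Γ (T d L)) := by
    refine (es (Pool.Agent.Run7.h47.R_BC (σ := σ) (E := E) ht (0 : T d L) 0)).trans ?_
    have bb : ∀ y : T d L, BC fun V : T d L → ℝ =>
        ‖R σ E t V 0 0 - R σ E t (Function.update V y 0) 0 0‖ ^ 2 := fun y =>
      ((R_BC ht 0 0).sub ((R_BC ht 0 0).upd y)).nsq
    rw [← integral_finsetSum _ fun y _ => (bb y).intR]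
    exact integral_mono (BC.sum _ fun y _ => bb y).intR iZ fun V => sumR H V
  have c2 : ∀ p : T d L, W2 σ E t p ≤ (t ^ 2)⁻¹ *
      ∫ V, ZZ σ E t δ θ Q γ G V ∂(Γ (T d L)) := by
    intro p
    refine (es (Pool.Agent.Run7.h47.F_BC (σ := σ) (E := E) ht p (0 : T d L) 0)).trans ?_
    have bb : ∀ y : T d L, BC fun V : T d L → ℝ =>
        ‖Fm σ E t p V 0 0 - Fm σ E t p (Function.update V y 0) 0 0‖ ^ 2 := fun y =>
      ((F_BC ht p 0 0).sub ((F_BC ht p 0 0).upd y)).nsq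
    rw [← integral_finsetSum _ fun y _ => (bb y).intR, ← integral_const_mul]
    exact integral_mono (BC.sum _ fun y _ => bb y).intR (iZ.const_mul _) fun V => sumF H p V
  have hZ0 : 0 ≤ ∫ V, ZZ σ E t δ θ Q γ G V ∂(Γ (T d L)) := (W1_nonneg σ E t).trans c1
  refine ⟨∫ V, ZZ σ E t δ θ Q γ G V ∂(Γ (T d L)), hZ0, c1, c2, ?_⟩
  obtain ⟨Z, hZd⟩ : ∃ Z, Z = ∫ V, ZZ σ E t δ θ Q γ G V ∂(Γ (T d L)) := ⟨_, rfl⟩
  rw [← hZd] at hZ hZ0 c1 ⊢
  obtain ⟨α, hαd⟩ : ∃ α, α = 72 * (σ ^ 2 * Law.b ^ 2) * (48 * Q * δ ^ 2 + lw d L θ) *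
    (t ^ 2)⁻¹ := ⟨_, rfl⟩
  rw [← hαd] at hα ⊢
  have e1 : 36 * (σ ^ 2 * Law.b ^ 2) * ((48 * Q * δ ^ 2 + lw d L θ) * ((t ^ 2)⁻¹ *
      (2 * W1 d L σ E t + 2 * (mm d L σ E t).im ^ 2)) + 32 * Q * γ ^ 2) +
      4 * NN d L * (t ^ 2)⁻¹ * pb = α * W1 d L σ E t + α * (mm d L σ E t).im ^ 2 +
      (36 * (σ ^ 2 * Law.b ^ 2) * (32 * Q * γ ^ 2) + 4 * NN d L * (t ^ 2)⁻¹ * pb) := by
    rw [hαd]
    ring
  rw [e1] at hZ
  have hα0 : 0 ≤ α := by
    have hlw := lw_nonneg (d := d) (L := L) θ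
    have hQ0 := H.hQ0
    rw [hαd]
    positivity
  have h3 : α * W1 d L σ E t ≤ 1 / 2 * Z := by
    calc α * W1 d L σ E t ≤ α * Z := mul_le_mul_of_nonneg_left c1 hα0
      _ ≤ 1 / 2 * Z := mul_le_mul_of_nonneg_right hα hZ0
  linarith

end

end Run7.h108.GL
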