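import Pool.Agent.Run7.h108.GL.Var2

/-! The variances with the third order correction. -/

set_option autoImplicit false
set_option linter.unusedSectionVars false

open scoped BigOperators Matrix
open MeasureTheory

namespace Run7.h108.GL

open Pool.Agent.Run7.h47 hiding Hyp good
open Pool.Agent.W788.MFP.Four Pool.Agent.W788.BK
open Pool.Agent.W788.MFP.Form

variable {d L : ℕ} [NeZero L] [Law]

theorem nA {σ v a r : ℂ} {b B : ℝ} (hb : 0 ≤ b) (hB : 0 ≤ B) (hv : ‖v‖ ≤ b) (ha : ‖a‖ ≤ B)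
    (hr : ‖r‖ ≤ B) (hs : ‖σ * v * a‖ ≤ 1 / 2) :
    ‖v ^ 3 * a ^ 2 - r * (2 * v * a + σ * v ^ 2 * a ^ 2)‖ ≤ (b ^ 3 + 3 * b) * B ^ 2 := by
  have h1 : ‖v ^ 3 * a ^ 2‖ ≤ b ^ 3 * B ^ 2 := by
    rw [norm_mul, norm_pow, norm_pow]
    gcongr
  have h2 : ‖v * a‖ ≤ b * B := by
    rw [norm_mul]
    gcongr
  have h3 : ‖2 * v * a + σ * v ^ 2 * a ^ 2‖ ≤ 5 / 2 * (b * B) := by
    have e1 : 2 * v * a + σ * v ^ 2 * a ^ 2 = 2 * (v * a) + (σ * v * a) * (v * a) := by ring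
    rw [e1]
    refine (norm_add_le _ _).trans ?_
    rw [norm_mul 2, norm_mul (σ * v * a), Complex.norm_ofNat]
    have h4 : ‖σ * v * a‖ * ‖v * a‖ ≤ 1 / 2 * (b * B) :=
      mul_le_mul hs h2 (norm_nonneg _) (by norm_num)
    linarith
  refine (norm_sub_le _ _).trans ?_
  rw [norm_mul r]
  have h4 : ‖r‖ * ‖2 * v * a + σ * v ^ 2 * a ^ 2‖ ≤ B * (5 / 2 * (b * B)) :=
    mul_le_mul hr h3 (norm_nonneg _) hB
  have h5 : 0 ≤ b * B ^ 2 := by positivity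
  nlinarith

theorem nB {σ v a r w a' w' : ℂ} {b B : ℝ} (hb : 0 ≤ b) (hB : 0 ≤ B) (hv : ‖v‖ ≤ b)
    (ha : ‖a‖ ≤ B) (ha' : ‖a'‖ = ‖a‖) (har : a = w * r) (hw : ‖w‖ ≤ 3 / 2)
    (hw' : ‖w'‖ = ‖w‖) (hs : ‖σ * v * a‖ ≤ 1 / 2) :
    ‖v ^ 3 * (w * w') * (a + a') - (v * r * w * (w * w') + v * (2 * a' + a) +
      σ * v ^ 2 * (a' ^ 2 + 2 * (a * a')) + σ ^ 2 * v ^ 3 * (a * a' ^ 2))‖ ≤
      (5 * b ^ 3 + 7 * b) * B := by
  have hww : ‖w * w'‖ ≤ 9 / 4 := by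
    rw [norm_mul, hw']
    nlinarith [norm_nonneg w]
  have hbB : 0 ≤ b * B := mul_nonneg hb hB
  have h2 : ‖v * a‖ ≤ b * B := by
    rw [norm_mul]
    gcongr
  have h2' : ‖v * a'‖ ≤ b * B := by
    rw [norm_mul, ha', ← norm_mul]
    exact h2
  have hs' : ‖σ * v * a'‖ ≤ 1 / 2 := by
    rw [norm_mul, ha', ← norm_mul]
    exact hs
  have t1 : ‖v ^ 3 * (w * w') * (a + a')‖ ≤ 9 / 2 * (b ^ 3 * B) := by
    have e1 : v ^ 3 * (w * w') * (a + a') = v ^ 2 * (w * w') * (v * a + v * a') := by ring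
    rw [e1, norm_mul, norm_mul, norm_pow]
    have h3 : ‖v * a + v * a'‖ ≤ 2 * (b * B) := by
      refine (norm_add_le _ _).trans ?_
      linarith
    have h4 : ‖v‖ ^ 2 ≤ b ^ 2 := pow_le_pow_left₀ (norm_nonneg _) hv 2
    calc ‖v‖ ^ 2 * ‖w * w'‖ * ‖v * a + v * a'‖ ≤ b ^ 2 * (9 / 4) * (2 * (b * B)) := by gcongr
      _ = _ := by ring
  have t2 : ‖v * r * w * (w * w')‖ ≤ 9 / 4 * (b * B) := by
    have e1 : v * r * w * (w * w') = (v * a) * (w * w') := by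
      rw [har]
      ring
    rw [e1, norm_mul]
    calc ‖v * a‖ * ‖w * w'‖ ≤ b * B * (9 / 4) := mul_le_mul h2 hww (norm_nonneg _) hbB
      _ = _ := by ring
  have t3 : ‖v * (2 * a' + a)‖ ≤ 3 * (b * B) := by
    have e1 : v * (2 * a' + a) = 2 * (v * a') + v * a := by ring
    rw [e1]
    refine (norm_add_le _ _).trans ?_
    rw [norm_mul, Complex.norm_ofNat]
    linarith
  have t4 : ‖σ * v ^ 2 * (a' ^ 2 + 2 * (a * a'))‖ ≤ 3 / 2 * (b * B) := by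
    have e1 : σ * v ^ 2 * (a' ^ 2 + 2 * (a * a')) =
        (σ * v * a') * (v * a' + 2 * (v * a)) := by ring
    rw [e1, norm_mul]
    have h3 : ‖v * a' + 2 * (v * a)‖ ≤ 3 * (b * B) := by
      refine (norm_add_le _ _).trans ?_
      rw [norm_mul 2, Complex.norm_ofNat]
      linarith
    calc ‖σ * v * a'‖ * ‖v * a' + 2 * (v * a)‖ ≤ 1 / 2 * (3 * (b * B)) :=
          mul_le_mul hs' h3 (norm_nonneg _) (by norm_num)
      _ = _ := by ring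
  have t5 : ‖σ ^ 2 * v ^ 3 * (a * a' ^ 2)‖ ≤ 1 / 4 * (b * B) := by
    have e1 : σ ^ 2 * v ^ 3 * (a * a' ^ 2) = (σ * v * a') * (σ * v * a') * (v * a) := by ring
    rw [e1, norm_mul, norm_mul]
    have h3 : ‖σ * v * a'‖ * ‖σ * v * a'‖ ≤ 1 / 2 * (1 / 2) :=
      mul_le_mul hs' hs' (norm_nonneg _) (by norm_num)
    calc ‖σ * v * a'‖ * ‖σ * v * a'‖ * ‖v * a‖ ≤ 1 / 2 * (1 / 2) * (b * B) :=
          mul_le_mul h3 h2 (norm_nonneg _) (by norm_num)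
      _ = _ := by ring
  have h6 : ‖v * r * w * (w * w') + v * (2 * a' + a) +
      σ * v ^ 2 * (a' ^ 2 + 2 * (a * a')) + σ ^ 2 * v ^ 3 * (a * a' ^ 2)‖ ≤
      9 / 4 * (b * B) + 3 * (b * B) + 3 / 2 * (b * B) + 1 / 4 * (b * B) :=
    (norm_add_le _ _).trans (add_le_add ((norm_add_le _ _).trans
      (add_le_add ((norm_add_le _ _).trans (add_le_add t2 t3)) t4)) t5)
  have h7 : 0 ≤ b ^ 3 * B := by positivity
  refine (norm_sub_le _ _).trans ?_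
  calc _ ≤ 9 / 2 * (b ^ 3 * B) +
      (9 / 4 * (b * B) + 3 * (b * B) + 3 / 2 * (b * B) + 1 / 4 * (b * B)) := add_le_add t1 h6
    _ ≤ _ := by linarith

/-- crude bound -/
theorem cA {σ v a r : ℂ} {b u : ℝ} (hb : 0 ≤ b) (hu : 1 ≤ u) (hσ : ‖σ‖ ≤ 1) (hv : ‖v‖ ≤ b)
    (ha : ‖a‖ ≤ u) (hr : ‖r‖ ≤ u) :
    ‖v ^ 3 * a ^ 2 - r * (2 * v * a + σ * v ^ 2 * a ^ 2)‖ ≤ 10 * (1 + b) ^ 5 * u ^ 4 := by
  have hu0 : 0 ≤ u := by linarith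
  have h1 : ‖v ^ 3 * a ^ 2‖ ≤ b ^ 3 * u ^ 2 := by
    rw [norm_mul, norm_pow, norm_pow]
    gcongr
  have h3 : ‖2 * v * a + σ * v ^ 2 * a ^ 2‖ ≤ 2 * b * u + 1 * b ^ 2 * u ^ 2 := by
    refine (norm_add_le _ _).trans ?_
    rw [norm_mul, norm_mul, norm_mul, norm_mul, norm_pow, norm_pow, Complex.norm_ofNat]
    gcongr
  refine (norm_sub_le _ _).trans ?_
  rw [norm_mul r]
  have h4 : ‖r‖ * ‖2 * v * a + σ * v ^ 2 * a ^ 2‖ ≤ u * (2 * b * u + 1 * b ^ 2 * u ^ 2) :=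
    mul_le_mul hr h3 (norm_nonneg _) hu0
  have p2 : u ^ 2 ≤ u ^ 4 := pow_le_pow_right₀ hu (by norm_num)
  have p3 : u ^ 3 ≤ u ^ 4 := pow_le_pow_right₀ hu (by norm_num)
  have h1b : 1 ≤ 1 + b := by linarith
  have q1 : b ≤ (1 + b) ^ 5 := by
    calc b ≤ (1 + b) ^ 1 := by linarith
      _ ≤ (1 + b) ^ 5 := pow_le_pow_right₀ h1b (by norm_num)
  have q2 : b ^ 2 ≤ (1 + b) ^ 5 := by
    calc b ^ 2 ≤ (1 + b) ^ 2 := pow_le_pow_left₀ hb (by linarith) 2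
      _ ≤ (1 + b) ^ 5 := pow_le_pow_right₀ h1b (by norm_num)
  have q3 : b ^ 3 ≤ (1 + b) ^ 5 := by
    calc b ^ 3 ≤ (1 + b) ^ 3 := pow_le_pow_left₀ hb (by linarith) 3
      _ ≤ (1 + b) ^ 5 := pow_le_pow_right₀ h1b (by norm_num)
  have K0 : 0 ≤ (1 + b) ^ 5 := by positivity
  calc _ ≤ b ^ 3 * u ^ 2 + u * (2 * b * u + 1 * b ^ 2 * u ^ 2) := add_le_add h1 h4
    _ = b ^ 3 * u ^ 2 + 2 * (b * u ^ 2) + b ^ 2 * u ^ 3 := by ring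
    _ ≤ (1 + b) ^ 5 * u ^ 4 + 2 * ((1 + b) ^ 5 * u ^ 4) + (1 + b) ^ 5 * u ^ 4 := by gcongr
    _ ≤ _ := by
        have : 0 ≤ (1 + b) ^ 5 * u ^ 4 := by positivity
        linarith

theorem cB {σ v a r w a' w' : ℂ} {b u : ℝ} (hb : 0 ≤ b) (hu : 1 ≤ u) (hσ : ‖σ‖ ≤ 1)
    (hv : ‖v‖ ≤ b) (ha : ‖a‖ ≤ u) (ha' : ‖a'‖ = ‖a‖) (hr : ‖r‖ ≤ u)
    (hw : w = 1 + σ * v * a) (hw' : ‖w'‖ = ‖w‖) :
    ‖v ^ 3 * (w * w') * (a + a') - (v * r * w * (w * w') + v * (2 * a' + a) +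
      σ * v ^ 2 * (a' ^ 2 + 2 * (a * a')) + σ ^ 2 * v ^ 3 * (a * a' ^ 2))‖ ≤
      10 * (1 + b) ^ 5 * u ^ 4 := by
  have hu0 : 0 ≤ u := by linarith
  have h1b : 1 ≤ 1 + b := by linarith
  rw [← ha'] at ha
  have hwb : ‖w‖ ≤ (1 + b) * u := by
    rw [hw]
    refine (norm_add_le _ _).trans ?_
    rw [norm_one, norm_mul, norm_mul]
    rw [ha'] at ha
    calc 1 + ‖σ‖ * ‖v‖ * ‖a‖ ≤ 1 + 1 * b * u := by gcongr
      _ ≤ (1 + b) * u := by linarith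
  have t1 : ‖v ^ 3 * (w * w') * (a + a')‖ ≤ 2 * ((1 + b) ^ 5 * u ^ 4) := by
    rw [norm_mul, norm_mul, norm_mul, norm_pow, hw']
    have h3 : ‖a + a'‖ ≤ 2 * u := by
      refine (norm_add_le _ _).trans ?_
      linarith
    have h4 : b ^ 3 ≤ (1 + b) ^ 3 := pow_le_pow_left₀ hb (by linarith) 3
    calc ‖v‖ ^ 3 * (‖w‖ * ‖w‖) * ‖a + a'‖ ≤
        (1 + b) ^ 3 * (((1 + b) * u) * ((1 + b) * u)) * (2 * u) := by
          have : ‖v‖ ^ 3 ≤ (1 + b) ^ 3 := pow_le_pow_left₀ (norm_nonneg _) (by linarith) 3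
          gcongr
      _ = 2 * ((1 + b) ^ 5 * u ^ 3) := by ring
      _ ≤ _ := by
          have : u ^ 3 ≤ u ^ 4 := pow_le_pow_right₀ hu (by norm_num)
          gcongr
  have t2 : ‖v * r * w * (w * w')‖ ≤ (1 + b) ^ 5 * u ^ 4 := by
    rw [norm_mul, norm_mul, norm_mul, norm_mul, hw']
    have hv' : ‖v‖ ≤ 1 + b := by linarith
    calc ‖v‖ * ‖r‖ * ‖w‖ * (‖w‖ * ‖w‖) ≤
        (1 + b) * u * ((1 + b) * u) * (((1 + b) * u) * ((1 + b) * u)) := by gcongr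
      _ = (1 + b) ^ 4 * u ^ 4 := by ring
      _ ≤ _ := by
          have : (1 + b) ^ 4 ≤ (1 + b) ^ 5 := pow_le_pow_right₀ h1b (by norm_num)
          gcongr
  have t3 : ‖v * (2 * a' + a)‖ ≤ 3 * ((1 + b) ^ 5 * u ^ 4) := by
    rw [norm_mul]
    have h3 : ‖2 * a' + a‖ ≤ 3 * u := by
      refine (norm_add_le _ _).trans ?_
      rw [norm_mul, Complex.norm_ofNat]
      linarith
    have hv' : ‖v‖ ≤ (1 + b) ^ 1 := by linarith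
    calc ‖v‖ * ‖2 * a' + a‖ ≤ (1 + b) ^ 1 * (3 * u ^ 1) := by
          rw [pow_one u]
          gcongr
      _ ≤ (1 + b) ^ 5 * (3 * u ^ 4) := by
          have h5 : (1 + b) ^ 1 ≤ (1 + b) ^ 5 := pow_le_pow_right₀ h1b (by norm_num)
          have h6 : u ^ 1 ≤ u ^ 4 := pow_le_pow_right₀ hu (by norm_num)
          gcongr
      _ = _ := by ring
  have t4 : ‖σ * v ^ 2 * (a' ^ 2 + 2 * (a * a'))‖ ≤ 3 * ((1 + b) ^ 5 * u ^ 4) := by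
    have h3 : ‖a' ^ 2 + 2 * (a * a')‖ ≤ 3 * u ^ 2 := by
      refine (norm_add_le _ _).trans ?_
      rw [norm_mul, norm_mul, norm_pow, Complex.norm_ofNat, ← ha']
      have : ‖a'‖ ^ 2 ≤ u ^ 2 := pow_le_pow_left₀ (norm_nonneg _) ha 2
      nlinarith
    rw [norm_mul, norm_mul, norm_pow]
    have hv' : ‖v‖ ^ 2 ≤ (1 + b) ^ 2 := pow_le_pow_left₀ (norm_nonneg _) (by linarith) 2
    calc ‖σ‖ * ‖v‖ ^ 2 * ‖a' ^ 2 + 2 * (a * a')‖ ≤ 1 * (1 + b) ^ 2 * (3 * u ^ 2) := by gcongr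
      _ ≤ 1 * (1 + b) ^ 5 * (3 * u ^ 4) := by
          have h5 : (1 + b) ^ 2 ≤ (1 + b) ^ 5 := pow_le_pow_right₀ h1b (by norm_num)
          have h6 : u ^ 2 ≤ u ^ 4 := pow_le_pow_right₀ hu (by norm_num)
          gcongr
      _ = _ := by ring
  have t5 : ‖σ ^ 2 * v ^ 3 * (a * a' ^ 2)‖ ≤ (1 + b) ^ 5 * u ^ 4 := by
    rw [norm_mul, norm_mul, norm_mul, norm_pow, norm_pow, norm_pow, ← ha']
    have hv' : ‖v‖ ^ 3 ≤ (1 + b) ^ 3 := pow_le_pow_left₀ (norm_nonneg _) (by linarith) 3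
    have hs : ‖σ‖ ^ 2 ≤ 1 := pow_le_one₀ (norm_nonneg _) hσ
    calc ‖σ‖ ^ 2 * ‖v‖ ^ 3 * (‖a'‖ * ‖a'‖ ^ 2) ≤ 1 * (1 + b) ^ 3 * (u * u ^ 2) := by gcongr
      _ = (1 + b) ^ 3 * u ^ 3 := by ring
      _ ≤ (1 + b) ^ 5 * u ^ 4 := by
          have h5 : (1 + b) ^ 3 ≤ (1 + b) ^ 5 := pow_le_pow_right₀ h1b (by norm_num)
          have h6 : u ^ 3 ≤ u ^ 4 := pow_le_pow_right₀ hu (by norm_num)
          gcongr
  have h6 : ‖v * r * w * (w * w') + v * (2 * a' + a) +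
      σ * v ^ 2 * (a' ^ 2 + 2 * (a * a')) + σ ^ 2 * v ^ 3 * (a * a' ^ 2)‖ ≤
      (1 + b) ^ 5 * u ^ 4 + 3 * ((1 + b) ^ 5 * u ^ 4) + 3 * ((1 + b) ^ 5 * u ^ 4) +
      (1 + b) ^ 5 * u ^ 4 :=
    (norm_add_le _ _).trans (add_le_add ((norm_add_le _ _).trans
      (add_le_add ((norm_add_le _ _).trans (add_le_add t2 t3)) t4)) t5)
  refine (norm_sub_le _ _).trans ?_
  calc _ ≤ 2 * ((1 + b) ^ 5 * u ^ 4) + ((1 + b) ^ 5 * u ^ 4 + 3 * ((1 + b) ^ 5 * u ^ 4) +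
      3 * ((1 + b) ^ 5 * u ^ 4) + (1 + b) ^ 5 * u ^ 4) := add_le_add t1 h6
    _ = _ := by ring

end Run7.h108.GL
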