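import Pool.Agent.Run7.h108.GL.Var3

/-! The variances with the third order correction: conclusion. -/

set_option autoImplicit false
set_option linter.unusedSectionVars false

open scoped BigOperators Matrix
open MeasureTheory

namespace Run7.h108.GL

open Pool.Agent.Run7.h47 hiding Hyp good
open Pool.Agent.W788.MFP.Four Pool.Agent.W788.BK
open Pool.Agent.W788.MFP.Form

variable {d L : ℕ} [NeZero L] [Law]

/-- the bound for the third order coefficients on the good event -/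
noncomputable def Bρ (γ δ t : ℝ) : ℝ :=
  (5 * Law.b ^ 3 + 7 * Law.b) * (1 + 6 * γ * δ / t) ^ 2

/-- the crude bound -/
noncomputable def Kc (t : ℝ) : ℝ := 10 * (1 + Law.b) ^ 5 * (t⁻¹) ^ 4

section
variable {σ E t δ θ τ Q γ pb : ℝ} {G : Set (T d L → ℝ)}

theorem hB0 (H : Hyp d L σ E t δ θ τ Q γ pb G) : 0 ≤ 6 * γ * δ / t := by
  have h1 := H.ht
  have h2 := H.hγ
  have h3 := h1.trans_le H.htδ
  positivity

theorem rA_good (H : Hyp d L σ E t δ θ τ Q γ pb G) (V : T d L → ℝ) (hV : V ∈ G) (x : T d L) :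
    ‖rA σ E t x V‖ ≤ Bρ γ δ t := by
  have hb := (Law.hb (self := ‹Law›)).le
  have hB := hB0 H
  have h1 := nA (σ := (σ : ℂ)) (v := (V x : ℂ)) hb hB
    (by rw [Complex.norm_real]; exact H.hc V hV x) (a0_good H V hV x) (R_good H V hV x)
    (sva H V hV x)
  refine h1.trans ?_
  unfold Bρ
  have h2 : Law.b ^ 3 + 3 * Law.b ≤ 5 * Law.b ^ 3 + 7 * Law.b := by
    have : 0 ≤ (Law.b) ^ 3 := by positivity
    linarith
  have h3 : (6 * γ * δ / t) ^ 2 ≤ (1 + 6 * γ * δ / t) ^ 2 :=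
    pow_le_pow_left₀ hB (by linarith) 2
  exact mul_le_mul h2 h3 (sq_nonneg _) (by positivity)

theorem rB_good (H : Hyp d L σ E t δ θ τ Q γ pb G) (V : T d L → ℝ) (hV : V ∈ G) (x : T d L) :
    ‖rB σ E t x V‖ ≤ Bρ γ δ t := by
  have hb := (Law.hb (self := ‹Law›)).le
  have hB := hB0 H
  have h1 := nB (σ := (σ : ℂ)) (v := (V x : ℂ)) (a := a0 σ E t x V) (r := R σ E t V x x)
    (w := ww σ E t x V) (a' := (starRingEnd ℂ) (a0 σ E t x V))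
    (w' := (starRingEnd ℂ) (ww σ E t x V)) hb hB
    (by rw [Complex.norm_real]; exact H.hc V hV x) (a0_good H V hV x) (RCLike.norm_conj _)
    (a0_eq H.ht V x) (ww_good H V hV x) (RCLike.norm_conj _) (sva H V hV x)
  refine h1.trans ?_
  unfold Bρ
  refine mul_le_mul_of_nonneg_left ?_ (by positivity)
  nlinarith

theorem u_one (H : Hyp d L σ E t δ θ τ Q γ pb G) : 1 ≤ t⁻¹ := (one_le_inv₀ H.ht).2 H.ht1

theorem rA_bad (H : Hyp d L σ E t δ θ τ Q γ pb G) (V : T d L → ℝ)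
    (hV : ∀ x, |V x| ≤ Law.b) (x : T d L) : ‖rA σ E t x V‖ ≤ Kc t :=
  cA (σ := (σ : ℂ)) (v := (V x : ℂ)) (Law.hb (self := ‹Law›)).le (u_one H)
    (by rw [Complex.norm_real]; exact H.hs1) (by rw [Complex.norm_real]; exact hV x)
    (R_bd H.ht _ x x) (R_bd H.ht _ x x)

theorem rB_bad (H : Hyp d L σ E t δ θ τ Q γ pb G) (V : T d L → ℝ)
    (hV : ∀ x, |V x| ≤ Law.b) (x : T d L) : ‖rB σ E t x V‖ ≤ Kc t :=
  cB (σ := (σ : ℂ)) (v := (V x : ℂ)) (a := a0 σ E t x V) (r := R σ E t V x x)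
    (w := ww σ E t x V) (a' := (starRingEnd ℂ) (a0 σ E t x V))
    (w' := (starRingEnd ℂ) (ww σ E t x V)) (Law.hb (self := ‹Law›)).le (u_one H)
    (by rw [Complex.norm_real]; exact H.hs1) (by rw [Complex.norm_real]; exact hV x)
    (R_bd H.ht _ x x) (RCLike.norm_conj _) (R_bd H.ht _ x x) rfl (RCLike.norm_conj _)

/-- the integral of a function bounded on and off the good event -/
theorem int_two (H : Hyp d L σ E t δ θ τ Q γ pb G) (f g : (T d L → ℝ) → ℝ) (hf : BC f)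
    (hg : Integrable g (Γ (T d L))) (hg0 : ∀ V, 0 ≤ g V) (c : ℝ) (hc : 0 ≤ c)
    (h1 : ∀ V ∈ G, f V ≤ g V) (h2 : ∀ V : T d L → ℝ, (∀ x, |V x| ≤ Law.b) → f V ≤ c) :
    ∫ V, f V ∂(Γ (T d L)) ≤ ∫ V, g V ∂(Γ (T d L)) + c * pb := by
  have i3 : Integrable (Set.indicator Gᶜ fun _ : T d L → ℝ => c) (Γ (T d L)) :=
    (integrable_const _).indicator H.hG.compl
  have h3 : ∫ V, f V ∂(Γ (T d L)) ≤
      ∫ V, (g V + Set.indicator Gᶜ (fun _ : T d L → ℝ => c) V) ∂(Γ (T d L)) := by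
    refine integral_mono_ae hf.intR (hg.add i3) ?_
    filter_upwards [ae_cube (κ := T d L)] with V hV
    by_cases hG : V ∈ G
    · rw [Set.indicator_of_notMem (by simpa using hG), add_zero]
      exact h1 V hG
    · rw [Set.indicator_of_mem (by simpa using hG)]
      have := hg0 V
      have := h2 V hV
      linarith
  rw [integral_add hg i3, integral_indicator H.hG.compl, setIntegral_const, smul_eq_mul] at h3
  have h4 := mul_le_mul_of_nonneg_left H.hP hc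
  linarith

theorem pb_nonneg (H : Hyp d L σ E t δ θ τ Q γ pb G) : 0 ≤ pb :=
  measureReal_nonneg.trans H.hP

theorem intA (H : Hyp d L σ E t δ θ τ Q γ pb G) :
    ∫ V, ‖rA σ E t (0 : T d L) V‖ ^ 2 ∂(Γ (T d L)) ≤ Bρ γ δ t ^ 2 + Kc t ^ 2 * pb := by
  have h1 := int_two H (fun V => ‖rA σ E t (0 : T d L) V‖ ^ 2) (fun _ => Bρ γ δ t ^ 2)
    (rA_BC H.ht 0).nsq (integrable_const _) (fun _ => sq_nonneg _) (Kc t ^ 2) (sq_nonneg _)
    (fun V hV => pow_le_pow_left₀ (norm_nonneg _) (rA_good H V hV 0) 2)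
    (fun V hV => pow_le_pow_left₀ (norm_nonneg _) (rA_bad H V hV 0) 2)
  simpa using h1

theorem intB (H : Hyp d L σ E t δ θ τ Q γ pb G) (p : T d L) :
    ∫ V, ‖rB σ E t (0 : T d L) V * Fm σ E t p V 0 0‖ ^ 2 ∂(Γ (T d L)) ≤
      Bρ γ δ t ^ 2 * ((t ^ 2)⁻¹ * (2 * W1 d L σ E t + 2 * (mm d L σ E t).im ^ 2)) +
        (Kc t * (t ^ 2)⁻¹) ^ 2 * pb := by
  obtain ⟨i0, hi0⟩ := im_sq H
  have h1 := int_two H (fun V => ‖rB σ E t (0 : T d L) V * Fm σ E t p V 0 0‖ ^ 2)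
    (fun V => Bρ γ δ t ^ 2 * ((R σ E t V 0 0).im / t) ^ 2)
    (((rB_BC H.ht 0).mul (F_BC H.ht p 0 0)).nsq) (i0.const_mul _)
    (fun _ => mul_nonneg (sq_nonneg _) (sq_nonneg _)) ((Kc t * (t ^ 2)⁻¹) ^ 2) (sq_nonneg _)
    (fun V hV => by
      rw [norm_mul, mul_pow]
      have h2 := pow_le_pow_left₀ (norm_nonneg _) (rB_good H V hV 0) 2
      have h3 := pow_le_pow_left₀ (norm_nonneg _) (F_diag_le (σ := σ) (E := E) H.ht p V 0) 2
      exact mul_le_mul h2 h3 (sq_nonneg _) (sq_nonneg _))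
    (fun V hV => by
      refine pow_le_pow_left₀ (norm_nonneg _) ?_ 2
      rw [norm_mul]
      exact mul_le_mul (rB_bad H V hV 0) (F_bd H.ht p V 0) (norm_nonneg _)
        ((norm_nonneg _).trans (rB_bad H V hV 0)))
  rw [integral_const_mul] at h1
  refine h1.trans ?_
  have := mul_le_mul_of_nonneg_left hi0 (sq_nonneg (Bρ γ δ t))
  linarith

theorem sq2 (a b : ℂ) (s : ℝ) : ‖a - s * b‖ ^ 2 ≤ 2 * ‖a‖ ^ 2 + 2 * s ^ 2 * ‖b‖ ^ 2 := by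
  have h1 : ‖a - s * b‖ ≤ ‖a‖ + |s| * ‖b‖ := by
    refine (norm_sub_le _ _).trans (le_of_eq ?_)
    rw [norm_mul, Complex.norm_real, Real.norm_eq_abs]
  refine (pow_le_pow_left₀ (norm_nonneg _) h1 2).trans ?_
  rw [← sq_abs s]
  nlinarith [sq_nonneg (‖a‖ - |s| * ‖b‖)]

theorem V1_le (H : Hyp d L σ E t δ θ τ Q γ pb G) :
    V1 d L σ E t ≤ 2 * W1 d L σ E t + 2 * σ ^ 2 * (Bρ γ δ t ^ 2 + Kc t ^ 2 * pb) := by
  have ht := H.ht
  have b1 := ((R_BC (σ := σ) (E := E) ht (0 : T d L) 0).sub (BC.const (mm d L σ E t))).nsq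
  have b2 := (rA_BC (σ := σ) (E := E) ht (0 : T d L)).nsq
  have h1 : V1 d L σ E t ≤ 2 * W1 d L σ E t +
      2 * σ ^ 2 * ∫ V, ‖rA σ E t (0 : T d L) V‖ ^ 2 ∂(Γ (T d L)) := by
    unfold V1 W1
    rw [← integral_const_mul, ← integral_const_mul, ← integral_add (b1.intR.const_mul _)
      (b2.intR.const_mul _)]
    refine integral_mono (D1_BC ht 0).nsq.intR
      ((b1.intR.const_mul _).add (b2.intR.const_mul _)) fun V => ?_
    exact sq2 _ _ _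
  have h2 := mul_le_mul_of_nonneg_left (intA H) (show 0 ≤ 2 * σ ^ 2 by positivity)
  linarith

theorem V2m_le (H : Hyp d L σ E t δ θ τ Q γ pb G) (p : T d L) :
    V2m σ E t p ≤ 2 * W2 σ E t p + 2 * σ ^ 2 *
      (Bρ γ δ t ^ 2 * ((t ^ 2)⁻¹ * (2 * W1 d L σ E t + 2 * (mm d L σ E t).im ^ 2)) +
        (Kc t * (t ^ 2)⁻¹) ^ 2 * pb) := by
  have ht := H.ht
  have b1 := ((F_BC (σ := σ) (E := E) ht p (0 : T d L) 0).sub (BC.const (ff σ E t p))).nsq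
  have b2 := ((rB_BC (σ := σ) (E := E) ht (0 : T d L)).mul
    (F_BC (σ := σ) (E := E) ht p (0 : T d L) 0)).nsq
  have h1 : V2m σ E t p ≤ 2 * W2 σ E t p +
      2 * σ ^ 2 * ∫ V, ‖rB σ E t (0 : T d L) V * Fm σ E t p V 0 0‖ ^ 2 ∂(Γ (T d L)) := by
    unfold V2m W2
    rw [← integral_const_mul, ← integral_const_mul, ← integral_add (b1.intR.const_mul _)
      (b2.intR.const_mul _)]
    refine integral_mono (D2_BC ht p 0 _).nsq.intR
      ((b1.intR.const_mul _).add (b2.intR.const_mul _)) fun V => ?_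
    exact sq2 _ _ _
  have h2 := mul_le_mul_of_nonneg_left (intB H p) (show 0 ≤ 2 * σ ^ 2 by positivity)
  linarith

/-- the variance bounds -/
theorem variances (H : Hyp d L σ E t δ θ τ Q γ pb G)
    (hα : 72 * (σ ^ 2 * Law.b ^ 2) * (48 * Q * δ ^ 2 + lw d L θ) * (t ^ 2)⁻¹ ≤ 1 / 2)
    (hρ : σ ^ 2 * Bρ γ δ t ^ 2 ≤ 1) :
    ∃ Λ : ℝ, 0 ≤ Λ ∧ V1 d L σ E t ≤ Λ ∧ (∀ p : T d L, V2 σ E t p ≤ (t ^ 2)⁻¹ * Λ) ∧
      Λ ≤ 14 * (72 * (σ ^ 2 * Law.b ^ 2) * (48 * Q * δ ^ 2 + lw d L θ) * (t ^ 2)⁻¹) *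
        (mm d L σ E t).im ^ 2 +
        14 * (36 * (σ ^ 2 * Law.b ^ 2) * (32 * Q * γ ^ 2) + 4 * NN d L * (t ^ 2)⁻¹ * pb) +
        4 * (σ ^ 2 * Bρ γ δ t ^ 2) * (1 + (mm d L σ E t).im ^ 2) +
        2 * σ ^ 2 * (Kc t * t⁻¹) ^ 2 * pb := by
  obtain ⟨Λ0, hΛ0, hW1, hW2, hΛ⟩ := var0 H hα
  have hpb := pb_nonneg H
  have ht := H.ht
  have hu := u_one H
  have hX : 0 ≤ (mm d L σ E t).im ^ 2 := sq_nonneg _
  obtain ⟨X2, hX2⟩ : ∃ X2, X2 = (mm d L σ E t).im ^ 2 := ⟨_, rfl⟩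
  obtain ⟨ρ, hρd⟩ : ∃ ρ, ρ = σ ^ 2 * Bρ γ δ t ^ 2 := ⟨_, rfl⟩
  obtain ⟨κ, hκd⟩ : ∃ κ, κ = 2 * σ ^ 2 * (Kc t * t⁻¹) ^ 2 * pb := ⟨_, rfl⟩
  have hρ0 : 0 ≤ ρ := by rw [hρd]; positivity
  have hκ0 : 0 ≤ κ := by rw [hκd]; positivity
  rw [← hX2] at hX hΛ ⊢
  rw [← hρd] at hρ ⊢
  rw [← hκd]
  have hv1 := V1_le H
  have e1 : 2 * σ ^ 2 * (Bρ γ δ t ^ 2 + Kc t ^ 2 * pb) =
      2 * ρ + 2 * σ ^ 2 * Kc t ^ 2 * pb := by
    rw [hρd]
    ring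
  have e2 : 2 * σ ^ 2 * Kc t ^ 2 * pb ≤ κ := by
    rw [hκd]
    refine mul_le_mul_of_nonneg_right ?_ hpb
    refine mul_le_mul_of_nonneg_left ?_ (by positivity)
    rw [mul_pow]
    have : 1 ≤ t⁻¹ ^ 2 := one_le_pow₀ hu
    exact le_mul_of_one_le_right (sq_nonneg _) this
  refine ⟨7 * Λ0 + 4 * ρ * (1 + X2) + κ, by positivity, ?_, fun p => ?_, by linarith⟩
  · rw [e1] at hv1
    have : 0 ≤ ρ * X2 := mul_nonneg hρ0 hX
    linarith
  · have hv2 := V2m_le H p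
    have hw2 := hW2 p
    have e3 : 2 * σ ^ 2 * (Bρ γ δ t ^ 2 * ((t ^ 2)⁻¹ * (2 * W1 d L σ E t +
        2 * (mm d L σ E t).im ^ 2)) + (Kc t * (t ^ 2)⁻¹) ^ 2 * pb) =
        (t ^ 2)⁻¹ * (4 * ρ * W1 d L σ E t + 4 * ρ * X2 + κ) := by
      rw [hρd, hX2, hκd, ← inv_pow]
      ring
    have e4 : 4 * ρ * W1 d L σ E t ≤ 4 * Λ0 := by
      calc 4 * ρ * W1 d L σ E t ≤ 4 * 1 * Λ0 :=
            mul_le_mul (by linarith) hW1 (W1_nonneg _ _ _) (by norm_num)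
        _ = 4 * Λ0 := by ring
    have ht2 : 0 ≤ (t ^ 2)⁻¹ := by positivity
    rw [e3] at hv2
    unfold V2
    calc V2m σ E t p + W2 σ E t p ≤ 3 * ((t ^ 2)⁻¹ * Λ0) +
        (t ^ 2)⁻¹ * (4 * ρ * W1 d L σ E t + 4 * ρ * X2 + κ) := by linarith
      _ = (t ^ 2)⁻¹ * (3 * Λ0 + (4 * ρ * W1 d L σ E t + 4 * ρ * X2 + κ)) := by ring
      _ ≤ (t ^ 2)⁻¹ * (7 * Λ0 + 4 * ρ * (1 + X2) + κ) := by
          refine mul_le_mul_of_nonneg_left ?_ ht2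
          linarith

end

end Run7.h108.GL
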