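import Pool.Agent.Run7.h108.GL.Lim2
import Pool.Agent.Run7.h47.Zl

/-! The limit on the lattice. -/

set_option autoImplicit false
set_option linter.unusedSectionVars false

open scoped BigOperators Matrix Topology
open MeasureTheory ProbabilityTheory

namespace Run7.h108.GL

open Pool.Agent.Run7.h47 hiding Hyp good
open Pool.Agent.W788.MFP.Four Pool.Agent.W788.BK
open Pool.Agent.H4R2.LO (Zd)
open Pool.Agent.H695R3.AN (lf lf_inj lf_add lf_sub)

variable [Law]

/-- the law of the field on the torus -/
theorem law_tor {d L : ℕ} [NeZero L] {g : (T d L → ℝ) → ℝ} (hg : Measurable g) :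
    ∫ ω, g (fun y => ω (lf y)) ∂(Measure.infinitePi fun _ : Zd d => Law.μ) =
      ∫ V, g V ∂(Γ (T d L)) := by
  have h1 := Pool.Agent.W788.Gen3.law_shift (d := d) (L := L) Law.μ 0
  have h2 : (fun (ω : Zd d → ℝ) (y : T d L) => ω (lf y + 0)) = fun ω y => ω (lf y) := by
    funext ω y
    rw [add_zero]
  rw [h2] at h1
  have hm : Measurable fun (ω : Zd d → ℝ) (y : T d L) => ω (lf y) :=
    measurable_pi_iff.2 fun y => measurable_pi_apply _
  unfold Γ
  rw [← h1, integral_map hm.aemeasurable hg.aestronglyMeasurable]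

end Run7.h108.GL
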