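import Pool.Agent.Run7.h108.GL.Zl
import Pool.Agent.Run7.h47.Zm

/-! The limit on the lattice, second part. -/

set_option autoImplicit false
set_option linter.unusedSectionVars false

open scoped BigOperators Matrix Topology
open MeasureTheory ProbabilityTheory

namespace Run7.h108.GL

open Pool.Agent.Run7.h47 hiding Hyp good
open Pool.Agent.W788.MFP.Four Pool.Agent.W788.BK
open Pool.Agent.H4R2.LO (Zd)
open Pool.Agent.H695R3.AN (lf lf_inj lf_add lf_sub)

variable [Law]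

/-- **the limit on the lattice** -/
theorem z_lim (d : ℕ) (hd : 3 ≤ d) (κ : ℝ) (hκ0 : 0 < κ) (hκ1 : κ < 4 / 35) (a c0 : ℝ)
    (hc0 : 0 < c0) (hJ : ∀ E : ℝ, |E| ≤ a → c0 ≤ (mJ d E).re)
    (hS : ∀ E : ℝ, |E| ≤ a → 0 ≤ (mS d E).re) (M : ℝ) (hM : 0 ≤ M) (ε : ℝ) (hε : 0 < ε) :
    ∃ s : ℝ, 0 < s ∧ s ≤ 1 / 5 ∧ ∀ σ E t : ℝ, 0 < |σ| → |σ| ≤ s → |E| ≤ a →
      |σ| ^ (2 + κ) ≤ t → t ≤ s * σ ^ 2 → ∀ P : Fin d → ℝ, (∀ i, |P i| ≤ M) →
      ∀ G : (Zd d → ℝ) → Zd d → ℂ,
      (∀ ω, IsGreen d σ ((E : ℂ) + (t : ℂ) * Complex.I) ω (G ω)) →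
      (Measurable fun ω => Qz (fun i => |σ| * Real.sqrt t * P i) (G ω)) ∧
      Integrable (fun ω => ‖(t : ℂ) * Qz (fun i => |σ| * Real.sqrt t * P i) (G ω) -
        ((Dl (mJ d E).re (mS d E).re (∑ i, P i ^ 2) : ℝ) : ℂ)‖ ^ 2)
        (Measure.infinitePi fun _ : Zd d => Law.μ) ∧
      ∫ ω, ‖(t : ℂ) * Qz (fun i => |σ| * Real.sqrt t * P i) (G ω) -
        ((Dl (mJ d E).re (mS d E).re (∑ i, P i ^ 2) : ℝ) : ℂ)‖ ^ 2
        ∂(Measure.infinitePi fun _ : Zd d => Law.μ) ≤ ε := by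
  have hC0 := C0_ge
  have hd1 : 1 ≤ d := by omega
  have hd0 : (1 : ℝ) ≤ d := by exact_mod_cast hd1
  obtain ⟨e, he⟩ : ∃ e, e = min 1 (ε / 16) := ⟨_, rfl⟩
  have he0 : 0 < e := by rw [he]; positivity
  have he1 : e ≤ 1 := by rw [he]; exact min_le_left _ _
  have he2 : e ≤ ε / 16 := by rw [he]; exact min_le_right _ _
  obtain ⟨s1, hs1, hs1', H1⟩ := tor_lim d hd κ hκ0 hκ1 a c0 hc0 hJ hS (d * M + 1) (by positivity) e
    he0
  obtain ⟨s2, hs2, hs2', H2⟩ := apr d hd κ hκ0 hκ1 e he0 he1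
  obtain ⟨K, hK⟩ : ∃ K : ℝ, K = 17 * d + 13 * d * (M + 1) + 17 * d / e +
    C0 / (4 * c0) * (13 * d * (M + 1)) / e := ⟨_, rfl⟩
  have hK0 : 0 < K := by rw [hK]; positivity
  refine ⟨min (min s1 s2) (1 / K), by positivity, ((min_le_left _ _).trans
    (min_le_left _ _)).trans hs1', ?_⟩
  intro σ E t hσ hσs hE htl htu P hP G hG
  have hσ1 : |σ| ≤ s1 := hσs.trans ((min_le_left _ _).trans (min_le_left _ _))
  have hσ2 : |σ| ≤ s2 := hσs.trans ((min_le_left _ _).trans (min_le_right _ _))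
  have hσ3 : |σ| ≤ 1 / K := hσs.trans (min_le_right _ _)
  obtain ⟨x, hx⟩ : ∃ x, x = |σ| := ⟨_, rfl⟩
  have hσx : σ ^ 2 = x ^ 2 := by rw [hx, sq_abs]
  rw [← hx] at hσ hσ1 hσ2 hσ3 htl
  have hx15 : x ≤ 1 / 5 := hσ1.trans hs1'
  have hxK : x * K ≤ 1 := by
    rw [le_div_iff₀ hK0] at hσ3
    exact hσ3
  have hσ0 : 0 < σ ^ 2 := by rw [hσx]; positivity
  have ht : 0 < t := (Real.rpow_pos_of_pos hσ _).trans_le htl
  have htu1 : t ≤ σ ^ 2 := by
    refine htu.trans ?_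
    have : min (min s1 s2) (1 / K) ≤ 1 := ((min_le_left _ _).trans (min_le_left _ _)).trans
      (hs1'.trans (by norm_num))
    nlinarith
  have htus : t ≤ s1 * σ ^ 2 := by
    refine htu.trans ?_
    exact mul_le_mul_of_nonneg_right ((min_le_left _ _).trans (min_le_left _ _)) hσ0.le
  have ht1 : t ≤ 1 := by
    refine htu1.trans ?_
    rw [hσx]
    exact pow_le_one₀ hσ.le (by linarith)
  have hA : x * (17 * d + 13 * d * (M + 1)) ≤ 1 := by
    refine le_trans ?_ hxK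
    apply mul_le_mul_of_nonneg_left _ hσ.le
    rw [hK]
    have h1 : 0 ≤ 17 * d / e := by positivity
    have h2 : 0 ≤ C0 / (4 * c0) * (13 * d * (M + 1)) / e := by positivity
    linarith
  have hB : 17 * d * x ≤ e := by
    have h1 : x * (17 * d / e) ≤ 1 := by
      refine le_trans ?_ hxK
      apply mul_le_mul_of_nonneg_left _ hσ.le
      rw [hK]
      have h1 : 0 ≤ 17 * d + 13 * d * (M + 1) := by positivity
      have h2 : 0 ≤ C0 / (4 * c0) * (13 * d * (M + 1)) / e := by positivity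
      linarith
    have h2 : x * (17 * d / e) = 17 * d * x / e := by ring
    rw [h2, div_le_one he0] at h1
    exact h1
  have hC : C0 / (4 * c0) * (13 * d * (M + 1) * x) ≤ e := by
    have h1 : x * (C0 / (4 * c0) * (13 * d * (M + 1)) / e) ≤ 1 := by
      refine le_trans ?_ hxK
      apply mul_le_mul_of_nonneg_left _ hσ.le
      rw [hK]
      have h1 : 0 ≤ 17 * d + 13 * d * (M + 1) := by positivity
      have h2 : 0 ≤ 17 * d / e := by positivity
      linarith
    have h2 : x * (C0 / (4 * c0) * (13 * d * (M + 1)) / e) =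
      C0 / (4 * c0) * (13 * d * (M + 1) * x) / e := by ring
    rw [h2, div_le_one he0] at h1
    exact h1
  obtain ⟨c1, c2, c3, c4, c5, c6⟩ := scales (d := d) (κ := κ) (M := M) hκ1 hσ hx15 hA hM htl ht1
  obtain ⟨L, hL0, hL1, hL2, hL3⟩ := size_ex hσ hx15
  have hNZ : NeZero L := ⟨hL0⟩
  have hLR : (0 : ℝ) < L := by exact_mod_cast Nat.pos_of_ne_zero hL0
  obtain ⟨θ, hθ⟩ : ∃ θ : Fin d → ℝ, θ = fun i => |σ| * Real.sqrt t * P i := ⟨_, rfl⟩
  obtain ⟨j, hj⟩ := round_mom L θ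
  have hq : Real.pi / L ≤ Real.pi * x ^ 12 := by
    have h1 : (L : ℝ)⁻¹ ≤ x ^ 12 := by
      rw [inv_le_comm₀ hLR (by positivity)]
      exact hL1
    calc Real.pi / L = Real.pi * (L : ℝ)⁻¹ := by ring
      _ ≤ _ := by
        have := Real.pi_pos
        gcongr
  have hj' : ∀ i, |θ i - ang L j i| ≤ Real.pi * x ^ 12 := fun i => (hj i).trans hq
  rw [← hθ]
  have hmeas : Measurable fun ω => Qz θ (G ω) := Qz_meas hd1 ht θ hG
  obtain ⟨Lm, hLm⟩ : ∃ Lm, Lm = Dl (mJ d E).re (mS d E).re (∑ i, P i ^ 2) := ⟨_, rfl⟩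
  rw [← hLm]
  -- the momentum
  have hst0 := Real.sqrt_nonneg t
  have hθi : ∀ i, |θ i| ≤ M * (x * Real.sqrt t) := by
    intro i
    rw [hθ]
    simp only
    rw [abs_mul, abs_of_nonneg (by positivity : 0 ≤ |σ| * Real.sqrt t), ← hx, mul_comm]
    exact mul_le_mul_of_nonneg_right (hP i) (by positivity)
  have hsz : sz L j ≤ (d * M + 1) * (|σ| * Real.sqrt t) := by
    unfold sz
    calc ∑ i, |ang L j i| ≤ ∑ _i : Fin d, (M * (x * Real.sqrt t) + Real.pi * x ^ 12) := by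
          refine Finset.sum_le_sum fun i _ => ?_
          have h1 : ang L j i = θ i - (θ i - ang L j i) := by ring
          rw [h1]
          refine (abs_sub _ _).trans (add_le_add (hθi i) (hj' i))
      _ = d * M * (x * Real.sqrt t) + d * (Real.pi * x ^ 12) := by
          rw [Finset.sum_const, Finset.card_univ, Fintype.card_fin, nsmul_eq_mul]
          ring
      _ ≤ d * M * (x * Real.sqrt t) + x * Real.sqrt t := by linarith
      _ = _ := by rw [hx]; ring
  have hT := H1 σ E t L (by rw [← hx]; exact hσ) (by rw [← hx]; exact hσ1) hE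
    (by rw [← hx]; exact htl) htus (by rw [← hx]; exact hL1) (by rw [← hx]; exact hL2) j hsz
  obtain ⟨_, _, _, _, hV2, _, _⟩ := H2 σ E t L (by rw [← hx]; exact hσ) (by rw [← hx]; exact hσ2)
    (by rw [← hx]; exact htl) htu1 (by rw [← hx]; exact hL1) (by rw [← hx]; exact hL2)
  have hV2j := hV2 (mom d L j)
  have hr1 : (t / σ ^ 2) ^ 3 ≤ 1 := by
    apply pow_le_one₀ (by positivity)
    rw [div_le_one hσ0]
    exact htu1
  have hV2e : t ^ 2 * V2 σ E t (mom d L j) ≤ e := by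
    refine hV2j.trans ?_
    calc e * (t / σ ^ 2) ^ 3 ≤ e * 1 := by gcongr
      _ = e := mul_one _
  -- the four terms
  obtain ⟨lj, hlj⟩ : ∃ lj, lj = Dl (mJ d E).re (mS d E).re
    ((∑ i, ang L j i ^ 2) / (σ ^ 2 * t)) := ⟨_, rfl⟩
  have hT' : ‖(t : ℂ) * ff σ E t (mom d L j) - ((lj : ℝ) : ℂ)‖ ≤ e := by
    rw [hlj]
    exact hT
  have hlim : |lj - Lm| ≤ e := by
    rw [hlj, hLm]
    have hSC : (mS d E).re ≤ C0 := by
      have h1 := mS_bd hd E
      have h2 := (le_abs_self _).trans (Complex.abs_re_le_norm (mS d E))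
      unfold C0
      linarith
    refine (Dl_lip hc0 (hJ E hE) (hS E hE) hSC (by positivity) (by positivity)).trans ?_
    refine le_trans ?_ hC
    apply mul_le_mul_of_nonneg_left _ (by positivity)
    have h1 : (∑ i, ang L j i ^ 2) / (σ ^ 2 * t) - ∑ i, P i ^ 2 =
        (∑ i, (ang L j i ^ 2 - θ i ^ 2)) / (x ^ 2 * t) := by
      rw [Finset.sum_sub_distrib, sub_div, hσx]
      congr 1
      rw [eq_div_iff (by positivity), Finset.sum_mul]
      refine Finset.sum_congr rfl fun i _ => ?_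
      rw [hθ]
      simp only
      rw [← hx, mul_pow, mul_pow, Real.sq_sqrt ht.le]
      ring
    rw [h1, abs_div, abs_of_pos (by positivity : 0 < x ^ 2 * t)]
    refine le_trans ?_ c6
    apply div_le_div_of_nonneg_right _ (by positivity)
    calc |∑ i, (ang L j i ^ 2 - θ i ^ 2)| ≤ ∑ i, |ang L j i ^ 2 - θ i ^ 2| :=
          Finset.abs_sum_le_sum_abs _ _
      _ ≤ ∑ _i : Fin d, (Real.pi * x ^ 12) * (2 * M * (x * Real.sqrt t) + Real.pi * x ^ 12) := by
          refine Finset.sum_le_sum fun i _ => ?_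
          have h2 : ang L j i ^ 2 - θ i ^ 2 = (ang L j i - θ i) * (ang L j i + θ i) := by ring
          rw [h2, abs_mul]
          have h3 : |ang L j i - θ i| ≤ Real.pi * x ^ 12 := by
            rw [abs_sub_comm]
            exact hj' i
          have h4 : |ang L j i + θ i| ≤ 2 * M * (x * Real.sqrt t) + Real.pi * x ^ 12 := by
            have h5 : ang L j i + θ i = (ang L j i - θ i) + 2 * θ i := by ring
            rw [h5]
            refine (abs_add_le _ _).trans ?_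
            rw [abs_mul, abs_two]
            linarith [hθi i]
          exact mul_le_mul h3 h4 (abs_nonneg _) ((abs_nonneg _).trans h3)
      _ = _ := by
          rw [Finset.sum_const, Finset.card_univ, Fintype.card_fin, nsmul_eq_mul]
          ring
  have hpath : ∀ ω, ‖(t : ℂ) * (Qz θ (G ω) - Fm σ E t (mom d L j) (fun y => ω (lf y)) 0 0)‖ ≤
      e := by
    intro ω
    have h1 := trans (L := L) hd1 ht (ℓ := (x ^ 6)⁻¹) (by positivity) hL3 (hG ω) θ j _ hj'
    rw [norm_mul, Complex.norm_real, Real.norm_of_nonneg ht.le]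
    calc t * ‖Qz θ (G ω) - Fm σ E t (mom d L j) (fun y => ω (lf y)) 0 0‖ ≤
        t * (10 * d / ((x ^ 6)⁻¹ * t ^ 3) +
          2 * d * (Real.pi * x ^ 12) * (x ^ 6)⁻¹ / t ^ 2) := by gcongr
      _ ≤ 17 * d * x := c4
      _ ≤ e := hB
  have hpt : ∀ ω, ‖(t : ℂ) * Qz θ (G ω) - ((Lm : ℝ) : ℂ)‖ ^ 2 ≤ 12 * e +
      4 * (t ^ 2 * ‖Fm σ E t (mom d L j) (fun y => ω (lf y)) 0 0 - ff σ E t (mom d L j)‖ ^ 2) := by
    intro ω
    have e1 : (t : ℂ) * Qz θ (G ω) - ((Lm : ℝ) : ℂ) =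
        (t : ℂ) * (Qz θ (G ω) - Fm σ E t (mom d L j) (fun y => ω (lf y)) 0 0) +
        (t : ℂ) * (Fm σ E t (mom d L j) (fun y => ω (lf y)) 0 0 - ff σ E t (mom d L j)) +
        ((t : ℂ) * ff σ E t (mom d L j) - ((lj : ℝ) : ℂ)) + ((lj - Lm : ℝ) : ℂ) := by
      push_cast
      ring
    have h1 : ‖(t : ℂ) * Qz θ (G ω) - ((Lm : ℝ) : ℂ)‖ ≤
        e + t * ‖Fm σ E t (mom d L j) (fun y => ω (lf y)) 0 0 - ff σ E t (mom d L j)‖ +
          e + e := by
      rw [e1]
      refine (norm_add_le _ _).trans (add_le_add ((norm_add_le _ _).trans (add_le_add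
        ((norm_add_le _ _).trans (add_le_add (hpath ω) (le_of_eq ?_))) hT')) ?_)
      · rw [norm_mul, Complex.norm_real, Real.norm_of_nonneg ht.le]
      · rw [Complex.norm_real]
        exact hlim
    have h2 := pow_le_pow_left₀ (norm_nonneg _) h1 2
    have h3 := sq_four e
      (t * ‖Fm σ E t (mom d L j) (fun y => ω (lf y)) 0 0 - ff σ E t (mom d L j)‖) e e
    have h4 : e ^ 2 ≤ e := by
      rw [sq]
      exact mul_le_of_le_one_left he0.le he1
    rw [mul_pow] at h3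
    linarith
  have hbc : ∃ C, ∀ V : T d L → ℝ, ‖Fm σ E t (mom d L j) V 0 0‖ ≤ C :=
    (Pool.Agent.Run7.h47.F_BC ht _ 0 0).2
  obtain ⟨C, hC⟩ := hbc
  have hFm : Measurable fun V : T d L → ℝ => t ^ 2 *
      ‖Fm σ E t (mom d L j) V 0 0 - ff σ E t (mom d L j)‖ ^ 2 := by
    have h1 : Continuous fun V : T d L → ℝ => Fm σ E t (mom d L j) V 0 0 := (F_BC ht _ 0 0).1
    exact (((h1.sub continuous_const).norm.pow 2).const_mul (t ^ 2)).measurable
  have hlaw := law_tor hFm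
  have hV2i : ∫ V, t ^ 2 * ‖Fm σ E t (mom d L j) V 0 0 - ff σ E t (mom d L j)‖ ^ 2
      ∂(Γ (T d L)) ≤ e := by
    rw [integral_const_mul]
    refine le_trans ?_ hV2e
    have h1 : W2 σ E t (mom d L j) ≤ V2 σ E t (mom d L j) :=
      le_add_of_nonneg_left (V2m_nonneg _)
    exact mul_le_mul_of_nonneg_left h1 (by positivity)
  have hFi : Integrable (fun ω : Zd d → ℝ => t ^ 2 *
      ‖Fm σ E t (mom d L j) (fun y => ω (lf y)) 0 0 - ff σ E t (mom d L j)‖ ^ 2)
      (Measure.infinitePi fun _ : Zd d => Law.μ) := by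
    have hm : Measurable fun ω : Zd d → ℝ => t ^ 2 *
        ‖Fm σ E t (mom d L j) (fun y => ω (lf y)) 0 0 - ff σ E t (mom d L j)‖ ^ 2 :=
      hFm.comp (g := fun V : T d L → ℝ => t ^ 2 *
        ‖Fm σ E t (mom d L j) V 0 0 - ff σ E t (mom d L j)‖ ^ 2)
        (f := fun (ω : Zd d → ℝ) (y : T d L) => ω (lf y))
        (measurable_pi_iff.2 fun y => measurable_pi_apply _)
    refine Integrable.of_bound (C := t ^ 2 * (C + ‖ff σ E t (mom d L j)‖) ^ 2)
      hm.aestronglyMeasurable (Filter.Eventually.of_forall fun ω => ?_)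
    rw [Real.norm_of_nonneg (by positivity)]
    gcongr
    exact (norm_sub_le _ _).trans (add_le_add (hC _) le_rfl)
  have hmeas2 : Measurable fun ω => ‖(t : ℂ) * Qz θ (G ω) - ((Lm : ℝ) : ℂ)‖ ^ 2 :=
    (((hmeas.const_mul _).sub_const _).norm).pow_const 2
  have hint : Integrable (fun ω => ‖(t : ℂ) * Qz θ (G ω) - ((Lm : ℝ) : ℂ)‖ ^ 2)
      (Measure.infinitePi fun _ : Zd d => Law.μ) := by
    refine Integrable.mono' ((integrable_const (12 * e)).add (hFi.const_mul 4))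
      hmeas2.aestronglyMeasurable (Filter.Eventually.of_forall fun ω => ?_)
    rw [Real.norm_of_nonneg (by positivity)]
    exact hpt ω
  refine ⟨hmeas, hint, ?_⟩
  refine (integral_mono hint ((integrable_const (12 * e)).add (hFi.const_mul 4)) hpt).trans ?_
  have h5 : ∫ ω, (12 * e + 4 * (t ^ 2 *
      ‖Fm σ E t (mom d L j) (fun y => ω (lf y)) 0 0 - ff σ E t (mom d L j)‖ ^ 2))
      ∂(Measure.infinitePi fun _ : Zd d => Law.μ) ≤ 16 * e := by
    rw [integral_add (integrable_const _) (hFi.const_mul 4), integral_const, probReal_univ,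
      one_smul, integral_const_mul, hlaw]
    linarith
  refine le_trans h5 ?_
  linarith

end Run7.h108.GL
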